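import Pool.Agent.OrthoChains.Defs

set_option autoImplicit false

open Finset

namespace Pool.Agent.OrthoChains

theorem card_compl_fin {n : ℕ} (A : Finset (Fin n)) : (Aᶜ).card = n - A.card := by
  rw [Finset.card_compl, Fintype.card_fin]

theorem card_le_fin {n : ℕ} (A : Finset (Fin n)) : A.card ≤ n := by
  simpa using Finset.card_le_univ A

theorem Win.dual {n : ℕ} {R : Finset (Fin n) → Prop} {lo hi : ℕ}
    {c : Finset (Fin n) → Finset (Fin n)} (h : Win R lo hi c) (hlh : lo ≤ hi) (hn : hi ≤ n) :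
    Win R (n - hi) (n - lo) (dual c) := by
  refine ⟨?_, ?_, ?_, ?_, ?_⟩
  · intro A B h1 h2 h3 h4
    have hA := card_le_fin A
    have hB := card_le_fin B
    have := h.inj Aᶜ Bᶜ (by rw [card_compl_fin]; omega) (by rw [card_compl_fin]; omega)
      (by rw [card_compl_fin, card_compl_fin, h3]) h4
    exact compl_injective this
  · intro A h1 h2 h3
    have hA := card_le_fin A
    obtain ⟨B, hB1, hB2, hB3⟩ := h.down Aᶜ (by rw [card_compl_fin]; omega)
      (by rw [card_compl_fin]; omega) (by rw [card_compl_fin]; omega)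
    refine ⟨Bᶜ, ?_, ?_, ?_⟩
    · have := Finset.compl_subset_compl.2 hB1
      rwa [compl_compl] at this
    · rw [card_compl_fin] at hB2 ⊢
      have := card_le_fin B
      omega
    · change c Bᶜᶜ = c Aᶜ
      rw [compl_compl]; exact hB3
  · intro B h1 h2 h3
    have hB := card_le_fin B
    obtain ⟨A, hA1, hA2, hA3⟩ := h.up Bᶜ (by rw [card_compl_fin]; omega)
      (by rw [card_compl_fin]; omega) (by rw [card_compl_fin]; omega)
    refine ⟨Aᶜ, ?_, ?_, ?_⟩
    · have := Finset.compl_subset_compl.2 hA1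
      rwa [compl_compl] at this
    · rw [card_compl_fin] at hA2 ⊢
      have := card_le_fin A
      omega
    · change c Aᶜᶜ = c Bᶜ
      rw [compl_compl]; exact hA3
  · intro A B h1 h2 h3 h4 h5 h6
    have hA := card_le_fin A
    have hB := card_le_fin B
    exact h.resHigh Bᶜ Aᶜ (by rw [card_compl_fin]; omega) (by rw [card_compl_fin]; omega)
      (Finset.compl_subset_compl.2 h3) (by rw [card_compl_fin, card_compl_fin]; omega)
      (by rwa [compl_compl]) h6.symm
  · intro A B h1 h2 h3 h4 h5 h6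
    have hA := card_le_fin A
    have hB := card_le_fin B
    exact h.resLow Bᶜ Aᶜ (by rw [card_compl_fin]; omega) (by rw [card_compl_fin]; omega)
      (Finset.compl_subset_compl.2 h3) (by rw [card_compl_fin, card_compl_fin]; omega)
      h5 h6.symm

theorem Orth.dual {n : ℕ} {lo hi : ℕ} {c d : Finset (Fin n) → Finset (Fin n)}
    (h : Orth lo hi c d) (hlh : lo ≤ hi) (hn : hi ≤ n) :
    Orth (n - hi) (n - lo) (dual c) (dual d) := by
  intro A B h1 h2 h3 h4 h5 h6
  have hA := card_le_fin A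
  have hB := card_le_fin B
  exact compl_injective (h Aᶜ Bᶜ (by rw [card_compl_fin]; omega) (by rw [card_compl_fin]; omega)
    (by rw [card_compl_fin]; omega) (by rw [card_compl_fin]; omega) h5 h6)

theorem survLow_dual {n m : ℕ} (c : Fin m → Finset (Fin n) → Finset (Fin n))
    (d : Finset (Fin n) → Finset (Fin n)) (lo hi : ℕ) (hlh : lo ≤ hi) (hn : hi ≤ n)
    (U : Finset (Fin n)) :
    survLow (fun i => dual (c i)) (dual d) (n - hi) (n - lo) U = survHigh c d lo hi Uᶜ := by
  unfold survLow survHigh aliveLow aliveHigh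
  refine Finset.card_bij (fun p _ => (p.1, p.2ᶜ)) ?_ ?_ ?_
  · rintro ⟨i, C⟩ hp
    have hC := card_le_fin C
    rw [Finset.mem_filter, Finset.mem_filter] at hp ⊢
    obtain ⟨⟨-, h1, h2, h3, B, h4, h5, h6⟩, h7⟩ := hp
    have hB := card_le_fin B
    simp only at h1 h2 h7
    refine ⟨⟨Finset.mem_univ _, ?_, ?_, h3, Bᶜ, ?_, h5, Finset.compl_subset_compl.2 h6⟩, ?_⟩
    · change lo ≤ (Cᶜ).card
      rw [card_compl_fin]; omega
    · change (Cᶜ).card ≤ hi
      rw [card_compl_fin]; omega
    · rw [card_compl_fin]; omega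
    · change (Cᶜ).card ≠ hi
      rw [card_compl_fin]; omega
  · rintro ⟨i, C⟩ _ ⟨j, D⟩ _ h
    simp only [Prod.mk.injEq] at h
    rw [h.1, compl_injective h.2]
  · rintro ⟨i, C⟩ hp
    have hC := card_le_fin C
    rw [Finset.mem_filter, Finset.mem_filter] at hp
    obtain ⟨⟨-, h1, h2, h3, B, h4, h5, h6⟩, h7⟩ := hp
    simp only at h1 h2 h7
    refine ⟨(i, Cᶜ), ?_, by simp⟩
    rw [Finset.mem_filter, Finset.mem_filter]
    refine ⟨⟨Finset.mem_univ _, ?_, ?_, ?_, Bᶜ, ?_, ?_, ?_⟩, ?_⟩
    · change n - hi ≤ (Cᶜ).card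
      rw [card_compl_fin]; omega
    · change (Cᶜ).card ≤ n - lo
      rw [card_compl_fin]; omega
    · change c i Cᶜᶜ = c i Uᶜ
      rw [compl_compl]; exact h3
    · rw [card_compl_fin]; omega
    · change d Bᶜᶜ = d Cᶜᶜ
      rw [compl_compl, compl_compl]; exact h5
    · have := Finset.compl_subset_compl.2 h6
      rwa [compl_compl] at this
    · change (Cᶜ).card ≠ n - hi
      rw [card_compl_fin]; omega

theorem survHigh_dual {n m : ℕ} (c : Fin m → Finset (Fin n) → Finset (Fin n))
    (d : Finset (Fin n) → Finset (Fin n)) (lo hi : ℕ) (hlh : lo ≤ hi) (hn : hi ≤ n)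
    (U : Finset (Fin n)) :
    survHigh (fun i => dual (c i)) (dual d) (n - hi) (n - lo) U = survLow c d lo hi Uᶜ := by
  have h := survLow_dual (fun i => dual (c i)) (dual d) (n - hi) (n - lo) (by omega) (by omega) Uᶜ
  rw [compl_compl] at h
  rw [← h]
  have e1 : n - (n - lo) = lo := by omega
  have e2 : n - (n - hi) = hi := by omega
  have e3 : ∀ c : Finset (Fin n) → Finset (Fin n), dual (dual c) = c := by
    intro c; funext A; simp [dual]
  rw [e1, e2, e3]
  simp only [e3]

theorem Wlow_dual {n m : ℕ} (K : ℝ) (c : Fin m → Finset (Fin n) → Finset (Fin n))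
    (d : Finset (Fin n) → Finset (Fin n)) (lo0 lo hi : ℕ) (hlh : lo ≤ hi) (hn : hi ≤ n)
    (h0 : lo0 ≤ lo) (h1 : hi ≤ n - lo0) :
    Wlow K (fun i => dual (c i)) (dual d) lo0 (n - hi) (n - lo) = Whigh K c d lo0 lo hi := by
  unfold Wlow Whigh
  refine Finset.sum_bij (fun U _ => Uᶜ) ?_ ?_ ?_ ?_
  · intro U hU
    have := card_le_fin U
    simp only [Finset.mem_filter, Finset.mem_univ, true_and, card_compl_fin] at hU ⊢
    omega
  · intro U _ V _ h
    exact compl_injective h
  · intro V hV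
    have := card_le_fin V
    refine ⟨Vᶜ, ?_, compl_compl V⟩
    simp only [Finset.mem_filter, Finset.mem_univ, true_and, card_compl_fin] at hV ⊢
    omega
  · intro U hU
    have hUn := card_le_fin U
    simp only [Finset.mem_filter, Finset.mem_univ, true_and] at hU
    rw [survLow_dual c d lo hi hlh hn U, card_compl_fin]
    have e1 : n - hi - 1 - U.card = n - U.card - hi - 1 := by omega
    rw [e1, Nat.choose_symm hUn]

theorem Whigh_dual {n m : ℕ} (K : ℝ) (c : Fin m → Finset (Fin n) → Finset (Fin n))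
    (d : Finset (Fin n) → Finset (Fin n)) (lo0 lo hi : ℕ) (hlh : lo ≤ hi) (hn : hi ≤ n)
    (h0 : lo0 ≤ lo) (h1 : hi ≤ n - lo0) :
    Whigh K (fun i => dual (c i)) (dual d) lo0 (n - hi) (n - lo) = Wlow K c d lo0 lo hi := by
  have h := Wlow_dual K (fun i => dual (c i)) (dual d) lo0 (n - hi) (n - lo) (by omega) (by omega)
    (by omega) (by omega)
  rw [← h]
  have e1 : n - (n - lo) = lo := by omega
  have e2 : n - (n - hi) = hi := by omega
  have e3 : ∀ c : Finset (Fin n) → Finset (Fin n), dual (dual c) = c := by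
    intro c; funext A; simp [dual]
  rw [e1, e2, e3]
  simp only [e3]

end Pool.Agent.OrthoChains
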