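import Pool.Agent.OrthoChains.Defs

set_option autoImplicit false

/-!
# The numerical conditions hold for large `n`
-/

open Finset

namespace Pool.Agent.OrthoChains

namespace Numerics

/-- exponential beats the sixth power -/
theorem pow_six_le (x : ℕ) (hx : 64 ≤ x) : (5 * x) ^ 6 ≤ 2 ^ x := by
  induction x, hx using Nat.le_induction with
  | base => norm_num
  | succ x hx ih =>
    have h1 : (x + 1) ^ 6 ≤ 2 * x ^ 6 := by
      have h2 : 10 * (x + 1) ≤ 11 * x := by omega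
      have h3 : (10 * (x + 1)) ^ 6 ≤ (11 * x) ^ 6 := Nat.pow_le_pow_left h2 6
      have h4 : (10 * (x + 1)) ^ 6 = 10 ^ 6 * (x + 1) ^ 6 := by rw [mul_pow]
      have h5 : (11 * x) ^ 6 = 11 ^ 6 * x ^ 6 := by rw [mul_pow]
      rw [h4, h5] at h3
      have h6 : (11 : ℕ) ^ 6 * x ^ 6 ≤ (10 ^ 6 * 2) * x ^ 6 := Nat.mul_le_mul_right _ (by norm_num)
      have h7 : 10 ^ 6 * (x + 1) ^ 6 ≤ 10 ^ 6 * (2 * x ^ 6) := by
        calc 10 ^ 6 * (x + 1) ^ 6 ≤ 11 ^ 6 * x ^ 6 := h3
          _ ≤ (10 ^ 6 * 2) * x ^ 6 := h6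
          _ = 10 ^ 6 * (2 * x ^ 6) := by ring
      exact Nat.le_of_mul_le_mul_left h7 (by norm_num)
    calc (5 * (x + 1)) ^ 6 = 5 ^ 6 * (x + 1) ^ 6 := by rw [mul_pow]
      _ ≤ 5 ^ 6 * (2 * x ^ 6) := Nat.mul_le_mul_left _ h1
      _ = (5 * x) ^ 6 * 2 := by ring
      _ ≤ 2 ^ x * 2 := Nat.mul_le_mul_right _ ih
      _ = 2 ^ (x + 1) := by rw [pow_succ]

theorem final_ineq (x m : ℕ) (hx : 64 ≤ x) (hm : m + 1 ≤ x) :
    (5 * x) ^ (6 * x) * (8 * (x + 1) ^ 4 * (m + 1)) ≤ 4 ^ (x ^ 2) := by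
  have h1 := pow_six_le x hx
  have h2 : (5 * x) ^ (6 * x) ≤ 2 ^ (x * x) := by
    rw [pow_mul, pow_mul]
    exact Nat.pow_le_pow_left h1 x
  have h3 : 8 * (x + 1) ^ 4 * (m + 1) ≤ 2 ^ (x * x) := by
    have h4 : (x + 1) ^ 4 ≤ (2 * x) ^ 4 := Nat.pow_le_pow_left (by omega) 4
    calc 8 * (x + 1) ^ 4 * (m + 1) ≤ 8 * (2 * x) ^ 4 * x :=
          Nat.mul_le_mul (Nat.mul_le_mul_left _ h4) hm
      _ = 128 * x ^ 5 := by ring
      _ ≤ (5 ^ 6 * x) * x ^ 5 := Nat.mul_le_mul_right _ (by omega)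
      _ = (5 * x) ^ 6 := by ring
      _ ≤ 2 ^ x := h1
      _ ≤ 2 ^ (x * x) := Nat.pow_le_pow_right (by norm_num) (Nat.le_mul_of_pos_left _ (by omega))
  calc (5 * x) ^ (6 * x) * (8 * (x + 1) ^ 4 * (m + 1)) ≤ 2 ^ (x * x) * 2 ^ (x * x) :=
        Nat.mul_le_mul h2 h3
    _ = 4 ^ (x ^ 2) := by
        rw [← pow_add, show (4 : ℕ) = 2 ^ 2 by norm_num, ← pow_mul]
        congr 1; ring

/-- growth of the binomial coefficients below `k'` -/
theorem choose_growth (n k' : ℕ) (u : ℝ) (hu : 0 ≤ u) (hk : u * k' ≤ (n : ℝ) - k') (a t : ℕ)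
    (h : a + t ≤ k') (hkn : k' ≤ n) : (n.choose a : ℝ) * u ^ t ≤ (n.choose (a + t) : ℝ) := by
  induction t with
  | zero => simp
  | succ t ih =>
    have ih' := ih (by omega)
    have h1 : (n.choose (a + t + 1) : ℝ) * ((a + t : ℕ) + 1 : ℝ) =
        (n.choose (a + t) : ℝ) * ((n : ℝ) - (a + t : ℕ)) := by
      have := Nat.choose_succ_right_eq n (a + t)
      have h2 : ((n.choose (a + t + 1) * (a + t + 1) : ℕ) : ℝ) =
        ((n.choose (a + t) * (n - (a + t)) : ℕ) : ℝ) := by rw [this]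
      rw [Nat.cast_mul, Nat.cast_mul, Nat.cast_sub (by omega)] at h2
      push_cast at h2 ⊢
      exact h2
    have hcast : ((a + t : ℕ) : ℝ) + 1 ≤ (k' : ℝ) := by exact_mod_cast (by omega : a + t + 1 ≤ k')
    have hpos : (0 : ℝ) < ((a + t : ℕ) : ℝ) + 1 := by positivity
    have h3 : u * (((a + t : ℕ) : ℝ) + 1) ≤ (n : ℝ) - (a + t : ℕ) := by
      have h4 : u * (((a + t : ℕ) : ℝ) + 1) ≤ u * k' := mul_le_mul_of_nonneg_left hcast hu
      linarith
    have h5 : (n.choose (a + t) : ℝ) * u ≤ (n.choose (a + t + 1) : ℝ) := by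
      have h6 : (n.choose (a + t) : ℝ) * (u * (((a + t : ℕ) : ℝ) + 1)) ≤
          (n.choose (a + t) : ℝ) * ((n : ℝ) - (a + t : ℕ)) :=
        mul_le_mul_of_nonneg_left h3 (Nat.cast_nonneg _)
      rw [← h1] at h6
      have h7 : ((n.choose (a + t) : ℝ) * u) * (((a + t : ℕ) : ℝ) + 1) ≤
          (n.choose (a + t + 1) : ℝ) * (((a + t : ℕ) : ℝ) + 1) := by linarith
      exact le_of_mul_le_mul_right h7 hpos
    calc (n.choose a : ℝ) * u ^ (t + 1) = ((n.choose a : ℝ) * u ^ t) * u := by ring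
      _ ≤ (n.choose (a + t) : ℝ) * u := mul_le_mul_of_nonneg_right ih' hu
      _ ≤ (n.choose (a + t + 1) : ℝ) := h5

/-- two steps down in the first argument, one in the second -/
theorem choose_two (N K : ℕ) :
    (N + 2).choose (K + 1) * ((K + 1) * (N + 1 - K)) = (N + 2) * (N + 1) * N.choose K := by
  have h1 := Nat.add_one_mul_choose_eq (N + 1) K
  have h2 := Nat.choose_mul_succ_eq N K
  -- (N+2) * C(N+1,K) = C(N+2,K+1) * (K+1), C(N,K) * (N+1) = C(N+1,K) * (N+1-K)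
  calc (N + 2).choose (K + 1) * ((K + 1) * (N + 1 - K))
      = ((N + 1 + 1).choose (K + 1) * (K + 1)) * (N + 1 - K) := by ring
    _ = ((N + 1 + 1) * (N + 1).choose K) * (N + 1 - K) := by rw [← h1]
    _ = (N + 2) * ((N + 1).choose K * (N + 1 - K)) := by ring
    _ = (N + 2) * (N.choose K * (N + 1)) := by rw [h2]
    _ = (N + 2) * (N + 1) * N.choose K := by ring

theorem choose_down (N K g w : ℕ) (h2g : 2 * g ≤ N) (hgK : g ≤ K) (hKN : K + g ≤ N)
    (hstep : N * N ≤ w * ((K - g) * (N - K - g))) :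
    N.choose K ≤ w ^ g * (N - 2 * g).choose (K - g) := by
  have key : ∀ i, i ≤ g → N.choose K ≤ w ^ i * (N - 2 * i).choose (K - i) := by
    intro i
    induction i with
    | zero => simp
    | succ i ih =>
      intro hi
      have ih' := ih (by omega)
      obtain ⟨N', hN'⟩ : ∃ N', N - 2 * i = N' + 2 := ⟨N - 2 * i - 2, by omega⟩
      obtain ⟨K', hK'⟩ : ∃ K', K - i = K' + 1 := ⟨K - i - 1, by omega⟩
      have hN2 : N - 2 * (i + 1) = N' := by omega
      have hK2 : K - (i + 1) = K' := by omega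
      rw [hN2, hK2]
      rw [hN', hK'] at ih'
      have h3 := choose_two N' K'
      have h4 : (N' + 2).choose (K' + 1) ≤ w * N'.choose K' := by
        have hpos : 0 < (K' + 1) * (N' + 1 - K') := Nat.mul_pos (by omega) (by omega)
        have h5 : (N' + 2) * (N' + 1) ≤ w * ((K' + 1) * (N' + 1 - K')) := by
          calc (N' + 2) * (N' + 1) ≤ N * N := Nat.mul_le_mul (by omega) (by omega)
            _ ≤ w * ((K - g) * (N - K - g)) := hstep
            _ ≤ w * ((K' + 1) * (N' + 1 - K')) :=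
                Nat.mul_le_mul_left _ (Nat.mul_le_mul (by omega) (by omega))
        have h6 : (N' + 2).choose (K' + 1) * ((K' + 1) * (N' + 1 - K')) ≤
            (w * N'.choose K') * ((K' + 1) * (N' + 1 - K')) := by
          rw [h3]
          calc (N' + 2) * (N' + 1) * N'.choose K'
              ≤ (w * ((K' + 1) * (N' + 1 - K'))) * N'.choose K' := Nat.mul_le_mul_right _ h5
            _ = (w * N'.choose K') * ((K' + 1) * (N' + 1 - K')) := by ring
        exact Nat.le_of_mul_le_mul_right h6 hpos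
      calc N.choose K ≤ w ^ i * (N' + 2).choose (K' + 1) := ih'
        _ ≤ w ^ i * (w * N'.choose K') := Nat.mul_le_mul_left _ h4
        _ = w ^ (i + 1) * N'.choose K' := by ring
  exact key g le_rfl

/-- the root -/
theorem root (n : ℕ) : (Nat.sqrt (Nat.sqrt n)) ^ 4 ≤ n ∧ n < (Nat.sqrt (Nat.sqrt n) + 1) ^ 4 := by
  have h1 := Nat.sqrt_le' n
  have h2 := Nat.sqrt_le' (Nat.sqrt n)
  have h3 := Nat.lt_succ_sqrt' n
  have h4 := Nat.lt_succ_sqrt' (Nat.sqrt n)
  constructor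
  · calc (Nat.sqrt (Nat.sqrt n)) ^ 4 = ((Nat.sqrt (Nat.sqrt n)) ^ 2) ^ 2 := by ring
      _ ≤ (Nat.sqrt n) ^ 2 := Nat.pow_le_pow_left h2 2
      _ ≤ n := h1
  · calc n < (Nat.sqrt n + 1) ^ 2 := h3
      _ ≤ ((Nat.sqrt (Nat.sqrt n) + 1) ^ 2) ^ 2 := Nat.pow_le_pow_left h4 2
      _ = (Nat.sqrt (Nat.sqrt n) + 1) ^ 4 := by ring

end Numerics

open Numerics in
theorem good_of_large (m n : ℕ) (hn : 2 ^ (700 * (m + 1)) ≤ n) : ∃ s q, Good n m s q := by
  obtain ⟨hx4, hx5⟩ := root n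
  set x := Nat.sqrt (Nat.sqrt n) with hxdef
  have hxbig : 2 ^ (175 * (m + 1)) ≤ x := by
    by_contra hcon
    push Not at hcon
    have h1 : (x + 1) ^ 4 ≤ (2 ^ (175 * (m + 1))) ^ 4 := Nat.pow_le_pow_left hcon 4
    rw [← pow_mul, show 175 * (m + 1) * 4 = 700 * (m + 1) by ring] at h1
    omega
  have hx175 : 2 ^ 175 ≤ x := le_trans (Nat.pow_le_pow_right (by norm_num) (by omega)) hxbig
  have hx1000 : 1000 ≤ x := le_trans (by norm_num) hx175
  have hmx : m + 1 ≤ x := by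
    have h1 : m + 1 < 2 ^ (m + 1) := Nat.lt_two_pow_self
    have h2 : 2 ^ (m + 1) ≤ 2 ^ (175 * (m + 1)) := Nat.pow_le_pow_right (by norm_num) (by omega)
    omega
  -- powers of `x`
  have hx43 : x ^ 4 = x * x ^ 3 := by ring
  have hx3 : 1000 * 1000 * x ≤ x ^ 3 := by
    calc 1000 * 1000 * x ≤ x * x * x := Nat.mul_le_mul_right _ (Nat.mul_le_mul hx1000 hx1000)
      _ = x ^ 3 := by ring
  have hx43' : 1000 * x ^ 3 ≤ x ^ 4 := by rw [hx43]; exact Nat.mul_le_mul_right _ hx1000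
  have hn3 : 1000 * x ^ 3 ≤ n := hx43'.trans hx4
  have hup : 100 * n ≤ 101 * x ^ 4 := by
    -- (x+1)^4 ≤ 1.01 x^4
    have h1 : 1000 * (x + 1) ≤ 1001 * x := by omega
    have h2 : (1000 * (x + 1)) ^ 4 ≤ (1001 * x) ^ 4 := Nat.pow_le_pow_left h1 4
    rw [mul_pow, mul_pow] at h2
    have h3 : 1000 ^ 4 * (100 * n) ≤ 1000 ^ 4 * (101 * x ^ 4) := by
      calc 1000 ^ 4 * (100 * n) ≤ 100 * (1000 ^ 4 * (x + 1) ^ 4) := by nlinarith [hx5.le]
        _ ≤ 100 * (1001 ^ 4 * x ^ 4) := Nat.mul_le_mul_left _ h2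
        _ ≤ 1000 ^ 4 * (101 * x ^ 4) := by
            have : 100 * (1001 ^ 4 * x ^ 4) = (100 * 1001 ^ 4) * x ^ 4 := by ring
            have h' : 1000 ^ 4 * (101 * x ^ 4) = (1000 ^ 4 * 101) * x ^ 4 := by ring
            rw [this, h']
            exact Nat.mul_le_mul_right _ (by norm_num)
    exact Nat.le_of_mul_le_mul_left h3 (by norm_num)
  have hm_big : m * 2 ^ (5 * m + 10) ≤ x := by
    have h1 : m ≤ 2 ^ m := Nat.lt_two_pow_self.le
    calc m * 2 ^ (5 * m + 10) ≤ 2 ^ m * 2 ^ (5 * m + 10) := Nat.mul_le_mul_right _ h1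
      _ = 2 ^ (6 * m + 10) := by rw [← pow_add]; congr 1; ring
      _ ≤ 2 ^ (175 * (m + 1)) := Nat.pow_le_pow_right (by norm_num) (by omega)
      _ ≤ x := hxbig
  refine ⟨x ^ 3, 6 * x, ?_⟩
  refine
    { hs := by omega
      hs1 := by omega
      big := by omega
      dens := by omega
      hm := by omega
      hq := by omega
      hqs := by omega
      hφ := ?_
      hδ := ?_
      outer := ?_ }
  · -- 8 (n / (6x) + 1) ≤ 2 x^3 + 1
    have h1 : n / (6 * x) ≤ x ^ 3 * 101 / 600 := by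
      rw [Nat.div_le_iff_le_mul_add_pred (by omega)]
      have h2 : 600 * (x ^ 3 * 101 / 600) + 599 ≥ x ^ 3 * 101 := by omega
      have h3 : x * (600 * (x ^ 3 * 101 / 600) + 599) ≥ x * (x ^ 3 * 101) := Nat.mul_le_mul_left _ h2
      have h4 : x * (x ^ 3 * 101) = 101 * x ^ 4 := by rw [hx43]; ring
      have h5 : x * (600 * (x ^ 3 * 101 / 600) + 599) =
          100 * (6 * x * (x ^ 3 * 101 / 600)) + 599 * x := by ring
      rw [h4, h5] at h3
      omega
    omega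
  · -- hδ
    have hxR : (2 : ℝ) ^ (175 * (m + 1)) ≤ (x : ℝ) := by exact_mod_cast hxbig
    have hxpos : (0 : ℝ) < x := by
      have : 0 < x := by omega
      exact_mod_cast this
    have hnR : (x : ℝ) ^ 4 ≤ n := by exact_mod_cast hx4
    have hnpos : (0 : ℝ) < n := lt_of_lt_of_le (by positivity) hnR
    have h1 : (n : ℝ) + 2 - 2 * ((n / 2 - 2 * x ^ 3 : ℕ) : ℝ) ≤ 5 * (x : ℝ) ^ 3 := by
      have h2 : n + 2 ≤ 5 * x ^ 3 + 2 * (n / 2 - 2 * x ^ 3) := by omega
      have h3 : ((n + 2 : ℕ) : ℝ) ≤ ((5 * x ^ 3 + 2 * (n / 2 - 2 * x ^ 3) : ℕ) : ℝ) := by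
        exact_mod_cast h2
      push_cast at h3
      linarith
    have h4 : ((m : ℝ) + 1) ≤ 2 ^ m := by
      have : m + 1 ≤ 2 ^ m := Nat.lt_two_pow_self
      exact_mod_cast this
    have h5 : (0 : ℝ) < 2 ^ (5 * m + 10) := by positivity
    rw [le_div_iff₀ h5]
    have h6 : 4 / (n : ℝ) ≤ 4 / (x : ℝ) ^ 4 := by
      apply div_le_div_of_nonneg_left (by norm_num) (by positivity) hnR
    have h0 : 0 ≤ (n : ℝ) + 2 - 2 * ((n / 2 - 2 * x ^ 3 : ℕ) : ℝ) := by
      have h2 : 2 * (n / 2 - 2 * x ^ 3) ≤ n + 2 := by omega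
      have h3 : ((2 * (n / 2 - 2 * x ^ 3) : ℕ) : ℝ) ≤ ((n + 2 : ℕ) : ℝ) := by exact_mod_cast h2
      push_cast at h3
      linarith
    calc 8 * (4 / (n : ℝ) * (m + 1) * ((2 : ℝ) ^ 128) ^ m *
          ((n : ℝ) + 2 - 2 * ((n / 2 - 2 * x ^ 3 : ℕ) : ℝ))) * 2 ^ (5 * m + 10)
        ≤ 8 * (4 / (x : ℝ) ^ 4 * 2 ^ m * ((2 : ℝ) ^ 128) ^ m * (5 * (x : ℝ) ^ 3)) *
          2 ^ (5 * m + 10) := by
          gcongr
      _ = (160 * 2 ^ m * ((2 : ℝ) ^ 128) ^ m * 2 ^ (5 * m + 10)) / x := by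
          field_simp
          ring
      _ ≤ 1 := by
          rw [div_le_one hxpos]
          calc 160 * (2 : ℝ) ^ m * ((2 : ℝ) ^ 128) ^ m * 2 ^ (5 * m + 10)
              ≤ 2 ^ 8 * (2 : ℝ) ^ m * ((2 : ℝ) ^ 128) ^ m * 2 ^ (5 * m + 10) := by
                gcongr
                norm_num
            _ = (2 : ℝ) ^ (8 + m + 128 * m + (5 * m + 10)) := by
                rw [← pow_mul, ← pow_add, ← pow_add, ← pow_add]
            _ ≤ (2 : ℝ) ^ (175 * (m + 1)) := pow_le_pow_right₀ (by norm_num) (by omega)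
            _ ≤ x := hxR
  · -- outer
    intro a ha
    set k' := n / 2 - x ^ 3 with hk'
    have hak : a + x ^ 3 < k' := by omega
    -- lower bound for C(n,k')
    have hgrow : (n.choose a : ℝ) * 4 ^ (x ^ 2) ≤ (n.choose k' : ℝ) := by
      have hxpos : (0 : ℝ) < x := by
        have : 0 < x := by omega
        exact_mod_cast this
      have hnpos : (0 : ℝ) < n := by
        have : 0 < n := by omega
        exact_mod_cast this
      set u : ℝ := 1 + 4 * (x : ℝ) ^ 3 / n with hu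
      have hu1 : 1 ≤ u := by
        have : 0 ≤ 4 * (x : ℝ) ^ 3 / n := by positivity
        linarith
      have hcond : u * k' ≤ (n : ℝ) - k' := by
        have h1 : (2 : ℝ) * k' ≤ n := by
          have : 2 * k' ≤ n := by omega
          exact_mod_cast this
        have h2 : (2 : ℝ) * k' + 2 * (x : ℝ) ^ 3 ≤ n := by
          have : 2 * k' + 2 * x ^ 3 ≤ n := by omega
          exact_mod_cast this
        have h3 : 4 * (x : ℝ) ^ 3 / n * k' ≤ 2 * (x : ℝ) ^ 3 := by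
          rw [div_mul_eq_mul_div, div_le_iff₀ hnpos]
          have : 0 ≤ 2 * (x : ℝ) ^ 3 := by positivity
          nlinarith [mul_le_mul_of_nonneg_left h1 this]
        rw [hu]
        linarith
      have h1 := choose_growth n k' u (by linarith) hcond a (k' - a) (by omega) (by omega)
      rw [show a + (k' - a) = k' by omega] at h1
      have h2 : (4 : ℝ) ≤ u ^ x := by
        have h3 : 1 + (x : ℝ) * (4 * (x : ℝ) ^ 3 / n) ≤ (1 + 4 * (x : ℝ) ^ 3 / n) ^ x :=
          one_add_mul_le_pow (by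
            have : 0 ≤ 4 * (x : ℝ) ^ 3 / n := by positivity
            linarith) x
        have h4 : (3 : ℝ) ≤ (x : ℝ) * (4 * (x : ℝ) ^ 3 / n) := by
          rw [← mul_div_assoc, le_div_iff₀ hnpos]
          have h5 : (100 : ℝ) * n ≤ 101 * (x : ℝ) ^ 4 := by exact_mod_cast hup
          nlinarith [h5]
        rw [hu]
        linarith
      have h3 : (4 : ℝ) ^ (x ^ 2) ≤ u ^ (k' - a) := by
        calc (4 : ℝ) ^ (x ^ 2) ≤ (u ^ x) ^ (x ^ 2) := pow_le_pow_left₀ (by norm_num) h2 _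
          _ = u ^ (x ^ 3) := by rw [← pow_mul]; congr 1; ring
          _ ≤ u ^ (k' - a) := pow_le_pow_right₀ hu1 (by omega)
      calc (n.choose a : ℝ) * 4 ^ (x ^ 2) ≤ (n.choose a : ℝ) * u ^ (k' - a) :=
            mul_le_mul_of_nonneg_left h3 (Nat.cast_nonneg _)
        _ ≤ (n.choose k' : ℝ) := h1
    have hgrow' : n.choose a * 4 ^ (x ^ 2) ≤ n.choose k' := by exact_mod_cast hgrow
    have hmul := Nat.choose_mul (n := n) (k := k') (s := a) (by omega)
    have hapos : 0 < n.choose a := Nat.choose_pos (by omega)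
    have h1 : k'.choose a * 4 ^ (x ^ 2) ≤ (n - a).choose (k' - a) := by
      have h2 : n.choose a * (k'.choose a * 4 ^ (x ^ 2)) ≤ n.choose a * (n - a).choose (k' - a) := by
        rw [← hmul]
        calc n.choose a * (k'.choose a * 4 ^ (x ^ 2)) = (n.choose a * 4 ^ (x ^ 2)) * k'.choose a := by
              ring
          _ ≤ n.choose k' * k'.choose a := Nat.mul_le_mul_right _ hgrow'
      exact Nat.le_of_mul_le_mul_left h2 hapos
    have h2 : (n - a).choose (k' - a) ≤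
        (5 * x) ^ (6 * x - 1) * (n - a - 2 * (6 * x - 1)).choose (k' - a - (6 * x - 1)) := by
      apply choose_down
      · omega
      · omega
      · omega
      · -- (n-a)^2 ≤ 5 x * ((k'-a-g) * (n-a-(k'-a)-g))
        have h3 : x ^ 3 ≤ 2 * (k' - a - (6 * x - 1)) := by omega
        have h4 : n ≤ 2 * (n - a - (k' - a) - (6 * x - 1)) := by omega
        have h5 : x ^ 3 * n ≤ 4 * ((k' - a - (6 * x - 1)) * (n - a - (k' - a) - (6 * x - 1))) := by
          calc x ^ 3 * n ≤ (2 * (k' - a - (6 * x - 1))) * (2 * (n - a - (k' - a) - (6 * x - 1))) :=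
                Nat.mul_le_mul h3 h4
            _ = _ := by ring
        have h6 : 4 * ((n - a) * (n - a)) ≤
            4 * (5 * x * ((k' - a - (6 * x - 1)) * (n - a - (k' - a) - (6 * x - 1)))) := by
          calc 4 * ((n - a) * (n - a)) ≤ 4 * (n * n) :=
                Nat.mul_le_mul_left _ (Nat.mul_le_mul (Nat.sub_le _ _) (Nat.sub_le _ _))
            _ ≤ (5 * x) * (x ^ 3 * n) := by
                have h7 : 4 * n ≤ 5 * x ^ 4 := by omega
                calc 4 * (n * n) = (4 * n) * n := by ring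
                  _ ≤ (5 * x ^ 4) * n := Nat.mul_le_mul_right _ h7
                  _ = (5 * x) * (x ^ 3 * n) := by ring
            _ ≤ (5 * x) * (4 * ((k' - a - (6 * x - 1)) * (n - a - (k' - a) - (6 * x - 1)))) :=
                Nat.mul_le_mul_left _ h5
            _ = _ := by ring
        exact Nat.le_of_mul_le_mul_left h6 (by norm_num)
    set D := (n - a - 2 * (6 * x - 1)).choose (k' - a - (6 * x - 1)) with hD
    have h3 : (5 * x) ^ (6 * x - 1) ≤ (5 * x) ^ (6 * x) :=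
      Nat.pow_le_pow_right (by omega) (by omega)
    have h4 : k'.choose a * 4 ^ (x ^ 2) ≤ (5 * x) ^ (6 * x) * D :=
      (h1.trans h2).trans (Nat.mul_le_mul_right _ h3)
    have h5 := final_ineq x m (by omega) hmx
    have h6 : k'.choose a * (8 * (x + 1) ^ 4 * (m + 1)) ≤ D := by
      have h7 : (5 * x) ^ (6 * x) * (k'.choose a * (8 * (x + 1) ^ 4 * (m + 1))) ≤
          (5 * x) ^ (6 * x) * D := by
        calc (5 * x) ^ (6 * x) * (k'.choose a * (8 * (x + 1) ^ 4 * (m + 1)))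
            = k'.choose a * ((5 * x) ^ (6 * x) * (8 * (x + 1) ^ 4 * (m + 1))) := by ring
          _ ≤ k'.choose a * 4 ^ (x ^ 2) := Nat.mul_le_mul_left _ h5
          _ ≤ (5 * x) ^ (6 * x) * D := h4
      exact Nat.le_of_mul_le_mul_left h7 (by positivity)
    have hc1 : 1 ≤ k'.choose a := Nat.choose_pos (by omega)
    have h8 : 2 * n + 2 * (m * (n + 2)) ≤ 8 * (x + 1) ^ 4 * (m + 1) := by
      have h9 : n + 2 ≤ 2 * (x + 1) ^ 4 := by omega
      have h10 : m * (n + 2) ≤ m * (2 * (x + 1) ^ 4) := Nat.mul_le_mul_left _ h9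
      have h11 : 8 * (x + 1) ^ 4 * (m + 1) = 8 * (x + 1) ^ 4 + 4 * (m * (2 * (x + 1) ^ 4)) := by ring
      rw [h11]
      omega
    calc 2 * n * k'.choose a + 2 * (m * (n + 2))
        ≤ 2 * n * k'.choose a + 2 * (m * (n + 2)) * k'.choose a :=
          Nat.add_le_add_left (Nat.le_mul_of_pos_right _ hc1) _
      _ = k'.choose a * (2 * n + 2 * (m * (n + 2))) := by ring
      _ ≤ k'.choose a * (8 * (x + 1) ^ 4 * (m + 1)) := Nat.mul_le_mul_left _ h8
      _ ≤ D := h6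

end Pool.Agent.OrthoChains
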