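import Mathlib

set_option autoImplicit false

/-!
# Orthogonal chain decompositions: definitions

`n`-cube = `Finset (Fin n)`. A *window decomposition* on the levels `lo..hi` is a label function
`c : Finset (Fin n) → Finset (Fin n)` (labels are arbitrary); the chains are its fibres. The
construction goes from the middle level outwards.
-/

open Finset

namespace Pool.Agent.OrthoChains

/-- A labelled window decomposition on the levels `lo..hi`; `R` = reserved sets (never matched from
below; complements of reserved sets are never matched from above). -/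
structure Win {n : ℕ} (R : Finset (Fin n) → Prop) (lo hi : ℕ)
    (c : Finset (Fin n) → Finset (Fin n)) : Prop where
  inj : ∀ A B : Finset (Fin n), lo ≤ A.card → A.card ≤ hi → A.card = B.card → c A = c B → A = B
  up : ∀ A : Finset (Fin n), lo ≤ A.card → A.card < hi → 2 * A.card < n →
    ∃ B : Finset (Fin n), A ⊆ B ∧ B.card = A.card + 1 ∧ c B = c A
  down : ∀ B : Finset (Fin n), lo < B.card → B.card ≤ hi → n < 2 * B.card →
    ∃ A : Finset (Fin n), A ⊆ B ∧ B.card = A.card + 1 ∧ c A = c B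
  resLow : ∀ A B : Finset (Fin n), lo ≤ A.card → B.card ≤ hi → A ⊆ B → B.card = A.card + 1 →
    R B → c A ≠ c B
  resHigh : ∀ A B : Finset (Fin n), lo ≤ A.card → B.card ≤ hi → A ⊆ B → B.card = A.card + 1 →
    R Aᶜ → c A ≠ c B

/-- Orthogonality on the window `lo..hi`. -/
def Orth {n : ℕ} (lo hi : ℕ) (c d : Finset (Fin n) → Finset (Fin n)) : Prop :=
  ∀ A B : Finset (Fin n), lo ≤ A.card → A.card ≤ hi → lo ≤ B.card → B.card ≤ hi →
    c A = c B → d A = d B → A = B

/-- For `U` below the window `lo..hi` of the new decomposition `d`: the pairs `(i, C)`, `C` in the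
window and in the same `c i`-chain as `U`, such that the level-`lo` member of the `d`-chain of `C`
contains `U`. -/
noncomputable def aliveLow {n m : ℕ} (c : Fin m → Finset (Fin n) → Finset (Fin n))
    (d : Finset (Fin n) → Finset (Fin n)) (lo hi : ℕ) (U : Finset (Fin n)) :
    Finset (Fin m × Finset (Fin n)) :=
  Finset.univ.filter (fun p => lo ≤ p.2.card ∧ p.2.card ≤ hi ∧ c p.1 p.2 = c p.1 U ∧
    ∃ B : Finset (Fin n), B.card = lo ∧ d B = d p.2 ∧ U ⊆ B)

/-- Number of alive pairs whose `C` is not on the level `lo`. -/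
noncomputable def survLow {n m : ℕ} (c : Fin m → Finset (Fin n) → Finset (Fin n))
    (d : Finset (Fin n) → Finset (Fin n)) (lo hi : ℕ) (U : Finset (Fin n)) : ℕ :=
  ((aliveLow c d lo hi U).filter (fun p => p.2.card ≠ lo)).card

/-- The same for `U` above the window. -/
noncomputable def aliveHigh {n m : ℕ} (c : Fin m → Finset (Fin n) → Finset (Fin n))
    (d : Finset (Fin n) → Finset (Fin n)) (lo hi : ℕ) (U : Finset (Fin n)) :
    Finset (Fin m × Finset (Fin n)) :=
  Finset.univ.filter (fun p => lo ≤ p.2.card ∧ p.2.card ≤ hi ∧ c p.1 p.2 = c p.1 U ∧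
    ∃ B : Finset (Fin n), B.card = hi ∧ d B = d p.2 ∧ B ⊆ U)

noncomputable def survHigh {n m : ℕ} (c : Fin m → Finset (Fin n) → Finset (Fin n))
    (d : Finset (Fin n) → Finset (Fin n)) (lo hi : ℕ) (U : Finset (Fin n)) : ℕ :=
  ((aliveHigh c d lo hi U).filter (fun p => p.2.card ≠ hi)).card

/-- Exponential potential below the window. -/
noncomputable def Wlow {n m : ℕ} (K : ℝ) (c : Fin m → Finset (Fin n) → Finset (Fin n))
    (d : Finset (Fin n) → Finset (Fin n)) (lo0 lo hi : ℕ) : ℝ :=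
  ∑ U ∈ Finset.univ.filter (fun U : Finset (Fin n) => lo0 ≤ U.card ∧ U.card < lo),
    (1 / 2 : ℝ) ^ (lo - 1 - U.card) / (n.choose U.card : ℝ) * (K ^ survLow c d lo hi U - 1)

/-- Exponential potential above the window. -/
noncomputable def Whigh {n m : ℕ} (K : ℝ) (c : Fin m → Finset (Fin n) → Finset (Fin n))
    (d : Finset (Fin n) → Finset (Fin n)) (lo0 lo hi : ℕ) : ℝ :=
  ∑ U ∈ Finset.univ.filter (fun U : Finset (Fin n) => hi < U.card ∧ U.card ≤ n - lo0),
    (1 / 2 : ℝ) ^ (U.card - hi - 1) / (n.choose U.card : ℝ) * (K ^ survHigh c d lo hi U - 1)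

/-- The complement of a label function. -/
def dual {n : ℕ} (c : Finset (Fin n) → Finset (Fin n)) : Finset (Fin n) → Finset (Fin n) :=
  fun A => c Aᶜ

/-- All `k`-subsets of `Fin n`. -/
def Lv (n k : ℕ) : Finset (Finset (Fin n)) := Finset.univ.filter (fun A => A.card = k)

/-- Forbidden pairs for the step matching level `k` into level `k+1`. -/
def Forb {n m : ℕ} (R : Finset (Fin n) → Prop) (c : Fin m → Finset (Fin n) → Finset (Fin n))
    (d : Finset (Fin n) → Finset (Fin n)) (k hi : ℕ) (A B : Finset (Fin n)) : Prop :=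
  R B ∨ ∃ p ∈ aliveLow c d (k + 1) hi A, d p.2 = d B

/-- `δ` of the step at level `k`. -/
noncomputable def del (n m k lo0 : ℕ) (K : ℝ) : ℝ :=
  2 / ((n : ℝ) - k) * (m + 1) * K ^ m * ((n : ℝ) + 2 - 2 * lo0)

/-- State of the construction of a new decomposition `d`, processed levels `lo..hi`. -/
structure State {n m : ℕ} (R : Finset (Fin n) → Prop) (K : ℝ)
    (c : Fin m → Finset (Fin n) → Finset (Fin n)) (lo0 lo hi : ℕ) (wl wh : ℝ)
    (d : Finset (Fin n) → Finset (Fin n)) : Prop where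
  win : Win R lo hi d
  orth : ∀ i, Orth lo hi (c i) d
  low : Wlow K c d lo0 lo hi ≤ wl
  high : Whigh K c d lo0 lo hi ≤ wh

/-- Reserved sets: members of the level `k'` whose sum is divisible by `q`. -/
def Res (n k' q : ℕ) (B : Finset (Fin n)) : Prop :=
  B.card = k' ∧ q ∣ ∑ x ∈ B, (x : ℕ)

/-- Numerical conditions; `m` is the number of decompositions, `lo0 = n/2 - 2s` the bottom of the
window, `k' = n/2 - s` the level of the reserved sets. -/
structure Good (n m s q : ℕ) : Prop where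
  hs : 2 * s ≤ n / 2
  hs1 : 1 ≤ s
  big : 400 ≤ n / 2 - 2 * s
  dens : 9 * n ≤ 20 * (n / 2 - 2 * s)
  hm : m * 2 ^ (5 * m + 10) ≤ n / 2 - 2 * s + 1
  hq : 0 < q
  hqs : q ≤ s
  hφ : 8 * (n / q + 1) ≤ 2 * s + 1
  hδ : 8 * (4 / (n : ℝ) * (m + 1) * ((2 : ℝ) ^ 128) ^ m *
    ((n : ℝ) + 2 - 2 * ((n / 2 - 2 * s : ℕ) : ℝ))) ≤ 1 / 2 ^ (5 * m + 10)
  outer : ∀ a : ℕ, a < n / 2 - 2 * s →
    2 * n * (n / 2 - s).choose a + 2 * (m * (n + 2)) ≤
      (n - a - 2 * (q - 1)).choose (n / 2 - s - a - (q - 1))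

/-- The new label function after matching the level `k` by `M`. -/
def ext {n : ℕ} (d : Finset (Fin n) → Finset (Fin n)) (M : Finset (Fin n) → Finset (Fin n))
    (k : ℕ) : Finset (Fin n) → Finset (Fin n) :=
  fun A => if A.card = k then d (M A) else d A

/-- Cost of matching `A` (level `k`) to `B` (level `k+1`), lower part. -/
noncomputable def costLow {n m : ℕ} (K : ℝ) (c : Fin m → Finset (Fin n) → Finset (Fin n))
    (d : Finset (Fin n) → Finset (Fin n)) (lo0 k hi : ℕ) (A B : Finset (Fin n)) : ℝ :=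
  ∑ U ∈ Finset.univ.filter (fun U : Finset (Fin n) => lo0 ≤ U.card ∧ U.card < k ∧ U ⊆ A),
    (1 / 2 : ℝ) ^ (k - 1 - U.card) / (n.choose U.card : ℝ) *
      ((K ^ (aliveLow c d (k + 1) hi U).card - 1) / ((aliveLow c d (k + 1) hi U).card : ℝ)) *
      (((aliveLow c d (k + 1) hi U).filter (fun p => d p.2 = d B)).card : ℝ)

/-- Cost of matching `A` (level `k`) to `B` (level `k+1`), upper part. -/
noncomputable def costHigh {n m : ℕ} (K : ℝ) (c : Fin m → Finset (Fin n) → Finset (Fin n))
    (d : Finset (Fin n) → Finset (Fin n)) (lo0 k hi : ℕ) (A B : Finset (Fin n)) : ℝ :=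
  ∑ U ∈ Finset.univ.filter (fun U : Finset (Fin n) => hi < U.card ∧ U.card ≤ n - lo0 ∧
      ∃ B' : Finset (Fin n), B'.card = hi ∧ d B' = d B ∧ B' ⊆ U),
    (1 / 2 : ℝ) ^ (U.card - hi - 1) / (n.choose U.card : ℝ) *
      (K ^ survHigh c d (k + 1) hi U * K ^ m) *
      ((Finset.univ.filter (fun i : Fin m => c i A = c i U)).card : ℝ)

/-- Orthogonal labelled chain decompositions of the whole cube. -/
structure Full {n m : ℕ} (e : Fin m → Finset (Fin n) → Finset (Fin n)) : Prop where
  chain : ∀ i A B, e i A = e i B → A ⊆ B ∨ B ⊆ A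
  mid : ∀ i A, ∃ M : Finset (Fin n), M.card = n / 2 ∧ e i M = e i A
  inj : ∀ i (M M' : Finset (Fin n)), M.card = n / 2 → M'.card = n / 2 → e i M = e i M' → M = M'
  orth : ∀ i j, i ≠ j → ∀ A B, e i A = e i B → e j A = e j B → A = B

end Pool.Agent.OrthoChains
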