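import Mathlib
import Pool.Agent.OrthoChains.Defs

/-!
# Reserved sets: few reserved sets just above a set, many reserved sets above a small set
-/

set_option autoImplicit false

open Finset

namespace Pool.Agent.OrthoChains

theorem res_degree {n k q : ℕ} (hq : 0 < q) (A : Finset (Fin n)) (T : Finset (Finset (Fin n)))
    (hT : ∀ B ∈ T, B.card = A.card + 1 ∧ A ⊆ B ∧ Res n k q B) : T.card ≤ n / q + 1 := by
  have hx : ∀ B ∈ T, ∃ x : Fin n, x ∉ A ∧ insert x A = B := by
    intro B hB
    obtain ⟨h1, h2, -⟩ := hT B hB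
    exact Finset.exists_eq_insert_iff.2 ⟨h2, h1.symm⟩
  have hsum : ∀ (x : Fin n), x ∉ A → ∑ y ∈ insert x A, (y : ℕ) = x + ∑ y ∈ A, (y : ℕ) :=
    fun x hx => Finset.sum_insert hx
  rw [← Finset.card_range (n / q + 1)]
  refine Finset.card_le_card_of_injOn
    (fun B => (∑ y ∈ B, (y : ℕ) - ∑ y ∈ A, (y : ℕ)) / q) ?_ ?_
  · intro B hB
    obtain ⟨x, hxA, rfl⟩ := hx B hB
    simp only [hsum x hxA, Nat.add_sub_cancel, Finset.coe_range, Set.mem_Iio]
    exact Nat.lt_succ_of_le (Nat.div_le_div_right x.2.le)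
  · intro B hB B' hB' h
    obtain ⟨x, hxA, rfl⟩ := hx B hB
    obtain ⟨x', hxA', rfl⟩ := hx B' hB'
    simp only [hsum x hxA, hsum x' hxA', Nat.add_sub_cancel] at h
    have h1 := (hT _ hB).2.2.2
    have h2 := (hT _ hB').2.2.2
    rw [hsum x hxA] at h1
    rw [hsum x' hxA'] at h2
    have h3 : (x : ℕ) ≡ x' [MOD q] := by
      have h4 : (x : ℕ) + ∑ y ∈ A, (y : ℕ) ≡ x' + ∑ y ∈ A, (y : ℕ) [MOD q] :=
        ((Nat.modEq_zero_iff_dvd).2 h1).trans ((Nat.modEq_zero_iff_dvd).2 h2).symm
      exact Nat.ModEq.add_right_cancel' _ h4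
    have h5 : (x : ℕ) = x' := by
      rw [← Nat.div_add_mod (x : ℕ) q, ← Nat.div_add_mod (x' : ℕ) q, h, h3]
    rw [Fin.ext h5]

/-- the lower element of a pair -/
private def rcLo {n : ℕ} (x : Fin (n / 2)) : Fin n := ⟨2 * x, by omega⟩

/-- the upper element of a pair -/
private def rcUp {n : ℕ} (x : Fin (n / 2)) : Fin n := ⟨2 * x + 1, by omega⟩

private theorem rcLo_inj {n : ℕ} : Function.Injective (rcLo (n := n)) := by
  intro x y h
  have : 2 * (x : ℕ) = 2 * y := congrArg Fin.val h
  exact Fin.ext (by omega)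

private theorem rcUp_inj {n : ℕ} : Function.Injective (rcUp (n := n)) := by
  intro x y h
  have : 2 * (x : ℕ) + 1 = 2 * y + 1 := congrArg Fin.val h
  exact Fin.ext (by omega)

private theorem rcLo_ne_up {n : ℕ} (x y : Fin (n / 2)) : rcLo x ≠ rcUp y := by
  intro h
  have : 2 * (x : ℕ) = 2 * y + 1 := congrArg Fin.val h
  omega

theorem res_above_count {n k' q : ℕ} (hq : 0 < q) (A : Finset (Fin n))
    (hpairs : A.card + (q - 1) ≤ n / 2) (hk : A.card + (q - 1) ≤ k') :
    (n - A.card - 2 * (q - 1)).choose (k' - A.card - (q - 1)) ≤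
      {B : Finset (Fin n) | A ⊆ B ∧ Res n k' q B}.ncard := by
  classical
  -- free pairs
  set F : Finset (Fin (n / 2)) := univ.filter fun x => rcLo x ∉ A ∧ rcUp x ∉ A with hF
  have hFc : Fᶜ.card ≤ A.card := by
    refine Finset.card_le_card_of_injOn (fun x => if rcLo x ∈ A then rcLo x else rcUp x) ?_ ?_
    · intro x hx
      simp only [hF, coe_compl, coe_filter, mem_univ, true_and, Set.mem_compl_iff,
        Set.mem_ofPred_eq, not_and_or, not_not] at hx
      by_cases h : rcLo x ∈ A
      · simp only [h, if_true]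
        exact h
      · simp only [h, if_false]
        exact hx.resolve_left h
    · intro x _ y _ h
      by_cases h1 : rcLo x ∈ A <;> by_cases h2 : rcLo y ∈ A <;>
        simp only [h1, h2, if_true, if_false] at h
      · exact rcLo_inj h
      · exact absurd h (rcLo_ne_up _ _)
      · exact absurd h.symm (rcLo_ne_up _ _)
      · exact rcUp_inj h
  have hFcard : q - 1 ≤ F.card := by
    have := Finset.card_add_card_compl F
    rw [Fintype.card_fin] at this
    omega
  obtain ⟨P, hPF, hPc⟩ := Finset.exists_subset_card_eq hFcard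
  have hPlo : ∀ x ∈ P, rcLo x ∉ A := fun x hx => (mem_filter.1 (hPF hx)).2.1
  have hPup : ∀ x ∈ P, rcUp x ∉ A := fun x hx => (mem_filter.1 (hPF hx)).2.2
  -- upper parts
  have hU : ∀ u : ℕ, ∃ U : Finset (Fin (n / 2)), U ⊆ P ∧ (u ≤ q - 1 → U.card = u) := by
    intro u
    by_cases hu : u ≤ q - 1
    · obtain ⟨U, h1, h2⟩ := Finset.exists_subset_card_eq (s := P) (n := u) (by omega)
      exact ⟨U, h1, fun _ => h2⟩
    · exact ⟨∅, by simp, fun h => absurd h hu⟩
  choose U hUP hUc using hU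
  -- the rest
  set W : Finset (Fin n) := (A ∪ (P.image rcLo ∪ P.image rcUp))ᶜ with hW
  have hd1 : Disjoint (P.image rcLo) (P.image rcUp) := by
    rw [Finset.disjoint_left]
    intro z hz hz'
    obtain ⟨x, _, rfl⟩ := mem_image.1 hz
    obtain ⟨y, _, h⟩ := mem_image.1 hz'
    exact rcLo_ne_up _ _ h.symm
  have hd2 : Disjoint A (P.image rcLo ∪ P.image rcUp) := by
    rw [Finset.disjoint_right]
    intro z hz
    rcases mem_union.1 hz with hz | hz
    · obtain ⟨x, hx, rfl⟩ := mem_image.1 hz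
      exact hPlo x hx
    · obtain ⟨x, hx, rfl⟩ := mem_image.1 hz
      exact hPup x hx
  have hWc : W.card = n - A.card - 2 * (q - 1) := by
    rw [hW, Finset.card_compl, Fintype.card_fin, Finset.card_union_of_disjoint hd2,
      Finset.card_union_of_disjoint hd1, Finset.card_image_of_injective _ rcLo_inj,
      Finset.card_image_of_injective _ rcUp_inj, hPc]
    omega
  -- the shift
  let u : Finset (Fin n) → ℕ := fun C =>
    (q - (∑ y ∈ A, (y : ℕ) + ∑ y ∈ C, (y : ℕ) + ∑ x ∈ P, 2 * (x : ℕ)) % q) % q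
  have hu : ∀ C, u C ≤ q - 1 := fun C => Nat.le_sub_one_of_lt (Nat.mod_lt _ hq)
  let f : Finset (Fin n) → Finset (Fin n) := fun C =>
    A ∪ (C ∪ ((P \ U (u C)).image rcLo ∪ (U (u C)).image rcUp))
  have hsub : ∀ C, (P \ U (u C)).image rcLo ∪ (U (u C)).image rcUp ⊆
      P.image rcLo ∪ P.image rcUp := by
    intro C
    exact union_subset_union (image_subset_image sdiff_subset) (image_subset_image (hUP _))
  have hCd : ∀ C ⊆ W, Disjoint C (P.image rcLo ∪ P.image rcUp) := by
    intro C hC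
    rw [Finset.disjoint_left]
    intro z hz hz'
    have := hC hz
    rw [hW, mem_compl] at this
    exact this (mem_union_right _ hz')
  have hCA : ∀ C ⊆ W, Disjoint A C := by
    intro C hC
    rw [Finset.disjoint_right]
    intro z hz hz'
    have := hC hz
    rw [hW, mem_compl] at this
    exact this (mem_union_left _ hz')
  have hD1 : ∀ C, Disjoint ((P \ U (u C)).image rcLo) ((U (u C)).image rcUp) := by
    intro C
    exact Finset.disjoint_of_subset_left (image_subset_image sdiff_subset)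
      (Finset.disjoint_of_subset_right (image_subset_image (hUP _)) hd1)
  have hD2 : ∀ C ⊆ W, Disjoint C ((P \ U (u C)).image rcLo ∪ (U (u C)).image rcUp) :=
    fun C hC => Finset.disjoint_of_subset_right (hsub C) (hCd C hC)
  have hD3 : ∀ C ⊆ W, Disjoint A (C ∪ ((P \ U (u C)).image rcLo ∪ (U (u C)).image rcUp)) := by
    intro C hC
    rw [Finset.disjoint_union_right]
    exact ⟨hCA C hC, Finset.disjoint_of_subset_right (hsub C) hd2⟩
  have hcardU : ∀ C, (U (u C)).card = u C := fun C => hUc _ (hu C)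
  rw [← hWc, ← Finset.card_powersetCard, ← Set.ncard_coe_finset]
  refine Set.ncard_le_ncard_of_injOn f ?_ ?_ (Set.toFinite _)
  · intro C hC
    rw [mem_coe, mem_powersetCard] at hC
    obtain ⟨hCW, hCc⟩ := hC
    refine ⟨subset_union_left, ?_, ?_⟩
    · show (A ∪ (C ∪ ((P \ U (u C)).image rcLo ∪ (U (u C)).image rcUp))).card = k'
      rw [Finset.card_union_of_disjoint (hD3 C hCW), Finset.card_union_of_disjoint (hD2 C hCW),
        Finset.card_union_of_disjoint (hD1 C), Finset.card_image_of_injective _ rcLo_inj,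
        Finset.card_image_of_injective _ rcUp_inj, Finset.card_sdiff_of_subset (hUP _), hPc,
        hcardU, hCc]
      have := hu C
      omega
    · show q ∣ ∑ y ∈ A ∪ (C ∪ ((P \ U (u C)).image rcLo ∪ (U (u C)).image rcUp)), (y : ℕ)
      rw [Finset.sum_union (hD3 C hCW), Finset.sum_union (hD2 C hCW), Finset.sum_union (hD1 C),
        Finset.sum_image (fun x _ y _ h => rcLo_inj h),
        Finset.sum_image (fun x _ y _ h => rcUp_inj h)]
      have e1 : ∑ x ∈ P \ U (u C), ((rcLo x : Fin n) : ℕ) + ∑ x ∈ U (u C), ((rcUp x : Fin n) : ℕ) =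
          ∑ x ∈ P, 2 * (x : ℕ) + u C := by
        have e2 : ∑ x ∈ U (u C), ((rcUp x : Fin n) : ℕ) = ∑ x ∈ U (u C), 2 * (x : ℕ) + u C := by
          have e4 : ∑ x ∈ U (u C), ((rcUp x : Fin n) : ℕ) = ∑ x ∈ U (u C), (2 * (x : ℕ) + 1) := rfl
          rw [e4, Finset.sum_add_distrib, ← Finset.card_eq_sum_ones, hcardU]
        rw [e2, ← Finset.sum_sdiff (hUP (u C)), add_assoc]
        rfl
      rw [e1]
      set S := ∑ y ∈ A, (y : ℕ) + ∑ y ∈ C, (y : ℕ) + ∑ x ∈ P, 2 * (x : ℕ) with hS
      have e3 : ∑ y ∈ A, (y : ℕ) + (∑ y ∈ C, (y : ℕ) + (∑ x ∈ P, 2 * (x : ℕ) + u C)) =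
          S + (q - S % q) % q := by
        rw [hS]
        show _ + (_ + (_ + (q - (∑ y ∈ A, (y : ℕ) + ∑ y ∈ C, (y : ℕ) +
          ∑ x ∈ P, 2 * (x : ℕ)) % q) % q)) = _
        ring
      rw [e3, Nat.dvd_iff_mod_eq_zero, Nat.add_mod, Nat.mod_mod, ← Nat.add_mod]
      have h1 : S % q < q := Nat.mod_lt _ hq
      rw [← Nat.mod_add_mod, show S % q + (q - S % q) = q by omega, Nat.mod_self]
  · intro C hC C' hC' h
    rw [mem_coe, mem_powersetCard] at hC hC'
    have key : ∀ C ⊆ W, f C ∩ W = C := by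
      intro C hC
      ext z
      constructor
      · intro hz
        obtain ⟨hz1, hz2⟩ := mem_inter.1 hz
        rw [hW, mem_compl] at hz2
        rcases mem_union.1 hz1 with h | h
        · exact absurd (mem_union_left _ h) hz2
        · rcases mem_union.1 h with h | h
          · exact h
          · exact absurd (mem_union_right _ (hsub C h)) hz2
      · intro hz
        exact mem_inter.2 ⟨mem_union_right _ (mem_union_left _ hz), hC hz⟩
    rw [← key C hC.1, ← key C' hC'.1, h]

end Pool.Agent.OrthoChains
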