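import Mathlib
import Pool.Agent.OrthoChains.Defs
import Pool.Agent.OrthoChains.ResCount

/-!
# Attaching the sets of the outer levels to reserved sets (weighted Hall condition)
-/

set_option autoImplicit false

open Finset

namespace Pool.Agent.OrthoChains

theorem attach {n m s q : ℕ} (hG : Good n m s q)
    (Ex : Finset (Fin n) → Finset (Finset (Fin n)))
    (hEx : ∀ A, (Ex A).card ≤ m * (n + 2)) :
    ∃ g : Finset (Fin n) → Finset (Fin n),
      (∀ A, A.card < n / 2 - 2 * s → A ⊆ g A ∧ Res n (n / 2 - s) q (g A) ∧ g A ∉ Ex A) ∧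
      Set.InjOn g {A | A.card < n / 2 - 2 * s} := by
  classical
  have hs := hG.hs
  have hs1 := hG.hs1
  have hbig := hG.big
  have hq := hG.hq
  have hqs := hG.hqs
  have hn : 0 < n := by omega
  set k' := n / 2 - s with hk'
  set lo := n / 2 - 2 * s with hlo
  have hlon : lo ≤ n := by omega
  let t : {A : Finset (Fin n) // A.card < lo} → Finset (Finset (Fin n)) := fun A =>
    univ.filter fun B => A.1 ⊆ B ∧ Res n k' q B ∧ B ∉ Ex A.1
  -- the number of choices
  have ht : ∀ A, n * k'.choose A.1.card ≤ (t A).card := by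
    intro A
    have hA := A.2
    have h1 := res_above_count (k' := k') hq A.1 (by omega) (by omega)
    have h2 := hG.outer A.1.card hA
    rw [← hk'] at h2
    have h3 : {B : Finset (Fin n) | A.1 ⊆ B ∧ Res n k' q B}.ncard ≤ (t A).card + (Ex A.1).card := by
      rw [← Set.ncard_coe_finset (t A), ← Set.ncard_coe_finset (Ex A.1)]
      refine le_trans (Set.ncard_le_ncard ?_ (Set.toFinite _)) (Set.ncard_union_le _ _)
      intro B hB
      by_cases h : B ∈ Ex A.1
      · exact Or.inr h
      · left
        rw [mem_coe, mem_filter]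
        exact ⟨mem_univ _, hB.1, hB.2, h⟩
    have h4 := hEx A.1
    have h5 : n * k'.choose A.1.card ≤ 2 * n * k'.choose A.1.card := by
      rw [mul_assoc]
      omega
    omega
  -- the weights
  let w : Finset (Fin n) → ℝ := fun A => 1 / ((n : ℝ) * (k'.choose A.card : ℝ))
  have hw0 : ∀ A, 0 ≤ w A := fun A => by positivity
  have hcp : ∀ a, a < lo → 0 < k'.choose a := fun a ha => Nat.choose_pos (by omega)
  have hw1 : ∀ A : {A : Finset (Fin n) // A.card < lo}, 1 ≤ ∑ _B ∈ t A, w A.1 := by
    intro A
    have h1 : (0 : ℝ) < (n : ℝ) * (k'.choose A.1.card : ℝ) := by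
      have := hcp _ A.2
      positivity
    rw [Finset.sum_const, nsmul_eq_mul, mul_one_div, le_div_iff₀ h1, one_mul]
    exact_mod_cast ht A
  -- the weight below a reserved set
  have hwB : ∀ B : Finset (Fin n), B.card = k' →
      ∑ A ∈ B.powerset.filter (fun A => A.card < lo), w A ≤ 1 := by
    intro B hB
    rw [← Finset.sum_fiberwise_of_maps_to (t := range lo) (g := Finset.card)
      (fun A hA => mem_range.2 (mem_filter.1 hA).2)]
    have h1 : ∀ a ∈ range lo,
        ∑ A ∈ (B.powerset.filter (fun A => A.card < lo)).filter (fun A => A.card = a), w A =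
          1 / (n : ℝ) := by
      intro a ha
      rw [mem_range] at ha
      have h2 : (B.powerset.filter (fun A => A.card < lo)).filter (fun A => A.card = a) =
          powersetCard a B := by
        ext A
        simp only [mem_filter, mem_powerset, mem_powersetCard]
        constructor
        · rintro ⟨⟨h3, _⟩, h4⟩
          exact ⟨h3, h4⟩
        · rintro ⟨h3, h4⟩
          exact ⟨⟨h3, h4 ▸ ha⟩, h4⟩
      rw [h2]
      have h3 : ∀ A ∈ powersetCard a B, w A = 1 / ((n : ℝ) * (k'.choose a : ℝ)) := by
        intro A hA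
        show 1 / ((n : ℝ) * (k'.choose A.card : ℝ)) = _
        rw [(mem_powersetCard.1 hA).2]
      rw [Finset.sum_congr rfl h3, Finset.sum_const, Finset.card_powersetCard, hB, nsmul_eq_mul]
      have h4 : (k'.choose a : ℝ) ≠ 0 := by
        have := hcp a ha
        positivity
      have h5 : (n : ℝ) ≠ 0 := by positivity
      field_simp
    rw [Finset.sum_congr rfl h1, Finset.sum_const, card_range, nsmul_eq_mul, mul_one_div]
    rw [div_le_one (by positivity)]
    exact_mod_cast hlon
  -- Hall condition
  have hall : ∀ X : Finset {A : Finset (Fin n) // A.card < lo}, X.card ≤ (X.biUnion t).card := by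
    intro X
    have h1 : (X.card : ℝ) ≤ ((X.biUnion t).card : ℝ) := by
      calc (X.card : ℝ) = ∑ _A ∈ X, (1 : ℝ) := by simp
        _ ≤ ∑ A ∈ X, ∑ _B ∈ t A, w A.1 := Finset.sum_le_sum fun A _ => hw1 A
        _ = ∑ B ∈ X.biUnion t, ∑ A ∈ X.filter (fun A => B ∈ t A), w A.1 := by
            refine Finset.sum_comm' ?_
            intro A B
            constructor
            · rintro ⟨h1, h2⟩
              exact ⟨mem_filter.2 ⟨h1, h2⟩, mem_biUnion.2 ⟨A, h1, h2⟩⟩
            · rintro ⟨h1, _⟩
              exact ⟨(mem_filter.1 h1).1, (mem_filter.1 h1).2⟩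
        _ ≤ ∑ _B ∈ X.biUnion t, (1 : ℝ) := by
            refine Finset.sum_le_sum fun B hB => ?_
            obtain ⟨A0, _, hA0⟩ := mem_biUnion.1 hB
            have hBk : B.card = k' := ((mem_filter.1 hA0).2.2.1).1
            refine le_trans ?_ (hwB B hBk)
            have h2 : ∑ A ∈ X.filter (fun A => B ∈ t A), w A.1 =
                ∑ A ∈ (X.filter (fun A => B ∈ t A)).map (Function.Embedding.subtype _), w A := by
              rw [Finset.sum_map]
              rfl
            rw [h2]
            refine Finset.sum_le_sum_of_subset_of_nonneg ?_ (fun A _ _ => hw0 A)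
            intro A hA
            obtain ⟨A', hA', rfl⟩ := mem_map.1 hA
            rw [mem_filter] at hA'
            rw [mem_filter, mem_powerset]
            exact ⟨(mem_filter.1 hA'.2).2.1, A'.2⟩
        _ = ((X.biUnion t).card : ℝ) := by simp
    exact_mod_cast h1
  obtain ⟨f, hf1, hf2⟩ := (Finset.all_card_le_biUnion_card_iff_exists_injective t).1 hall
  refine ⟨fun A => if h : A.card < lo then f ⟨A, h⟩ else A, ?_, ?_⟩
  · intro A hA
    simp only [dif_pos hA]
    have := (mem_filter.1 (hf2 ⟨A, hA⟩)).2
    exact ⟨this.1, this.2.1, this.2.2⟩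
  · intro A hA A' hA' h
    have hA1 : A.card < lo := hA
    have hA2 : A'.card < lo := hA'
    simp only [dif_pos hA1, dif_pos hA2] at h
    have := hf1 h
    exact congrArg Subtype.val this

end Pool.Agent.OrthoChains
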