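import Pool.Agent.OrthoChains.Defs

/-!
# Allowed edges leaving a pair of families (OC9)
-/

set_option autoImplicit false
set_option linter.unusedVariables false

open Finset

namespace Pool.Agent.OrthoChains

theorem ea_card_prod_filter {α β : Type*} (X : Finset α) (Z : Finset β) (P : α → β → Prop)
    [∀ a b, Decidable (P a b)] :
    ((X ×ˢ Z).filter (fun p => P p.1 p.2)).card = ∑ a ∈ X, (Z.filter (fun b => P a b)).card := by
  rw [Finset.card_filter, Finset.sum_product]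
  simp_rw [Finset.card_filter]

theorem ea_card_prod_filter' {α β : Type*} (X : Finset α) (Z : Finset β) (P : α → β → Prop)
    [∀ a b, Decidable (P a b)] :
    ((X ×ˢ Z).filter (fun p => P p.1 p.2)).card = ∑ b ∈ Z, (X.filter (fun a => P a b)).card := by
  rw [Finset.card_filter, Finset.sum_product_right]
  simp_rw [Finset.card_filter]

theorem ea_mem_Lv {n k : ℕ} {A : Finset (Fin n)} : A ∈ Lv n k ↔ A.card = k := by
  unfold Lv
  simp

theorem ea_card_Lv (n k : ℕ) : (Lv n k).card = n.choose k := by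
  have : Lv n k = Finset.powersetCard k (Finset.univ : Finset (Fin n)) := by
    ext A
    rw [ea_mem_Lv, Finset.mem_powersetCard]
    exact ⟨fun h => ⟨Finset.subset_univ _, h⟩, fun h => h.2⟩
  rw [this, Finset.card_powersetCard]
  simp

/-- The number of sets of the next level above `A`. -/
theorem ea_card_above {n k : ℕ} (A : Finset (Fin n)) (hA : A.card = k) :
    n - k ≤ ((Lv n (k + 1)).filter (fun B => A ⊆ B)).card := by
  classical
  have h : (Aᶜ.image (fun x => insert x A)) ⊆ (Lv n (k + 1)).filter (fun B => A ⊆ B) := by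
    intro B hB
    obtain ⟨x, hx, rfl⟩ := mem_image.1 hB
    rw [mem_compl] at hx
    rw [mem_filter, ea_mem_Lv, Finset.card_insert_of_notMem hx, hA]
    exact ⟨rfl, Finset.subset_insert _ _⟩
  refine le_trans (le_of_eq ?_) (Finset.card_le_card h)
  rw [Finset.card_image_of_injOn, Finset.card_compl, Fintype.card_fin, hA]
  intro x hx y hy hxy
  rw [mem_coe, mem_compl] at hx hy
  simp only at hxy
  have : x ∈ insert y A := hxy ▸ Finset.mem_insert_self x A
  rcases Finset.mem_insert.1 this with h1 | h1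
  · exact h1
  · exact absurd h1 hx

theorem ea_card_below {n k : ℕ} (B : Finset (Fin n)) (hB : B.card = k + 1) :
    ((Lv n k).filter (fun A => A ⊆ B)).card ≤ k + 1 := by
  have h : (Lv n k).filter (fun A => A ⊆ B) ⊆ Finset.powersetCard k B := by
    intro A hA
    rw [mem_filter, ea_mem_Lv] at hA
    exact Finset.mem_powersetCard.2 ⟨hA.2, hA.1⟩
  refine (Finset.card_le_card h).trans (le_of_eq ?_)
  rw [Finset.card_powersetCard, hB]
  exact Nat.choose_succ_self_right k

section CH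

variable {n k m φ : ℕ}
  (succ : Fin m → Finset (Fin n) → Finset (Fin n))
  (F : Finset (Fin n) → Finset (Fin n) → Prop) [DecidableRel F]
  (sv : Finset (Fin n) → ℕ)

theorem edges_allowed_small (hsucc : ∀ i, ∀ A ∈ Lv n k, A ⊆ succ i A ∧ succ i A ∈ Lv n (k + 1))
    (hF : ∀ A ∈ Lv n k, ((Lv n (k + 1)).filter
      (fun B => A ⊆ B ∧ F A B ∧ ∀ i, B ≠ succ i A)).card ≤ φ + sv A)
    (X Y : Finset (Finset (Fin n))) (hX : X ⊆ Lv n k) (hY : Y ⊆ Lv n (k + 1)) :
    (((X ×ˢ (Lv n (k + 1) \ Y)).filter (fun p => p.1 ⊆ p.2)).card : ℝ) -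
      ∑ A ∈ X, ((m : ℝ) + φ + sv A) ≤
    (((X ×ˢ (Lv n (k + 1) \ Y)).filter (fun p => p.1 ⊆ p.2 ∧ ¬ F p.1 p.2)).card : ℝ) := by
  classical
  have h1 : ((X ×ˢ (Lv n (k + 1) \ Y)).filter (fun p => p.1 ⊆ p.2)).card ≤
      ((X ×ˢ (Lv n (k + 1) \ Y)).filter (fun p => p.1 ⊆ p.2 ∧ ¬ F p.1 p.2)).card +
      ∑ A ∈ X, (m + φ + sv A) := by
    rw [ea_card_prod_filter X _ (fun A B => A ⊆ B),
      ea_card_prod_filter X _ (fun A B => A ⊆ B ∧ ¬ F A B), ← Finset.sum_add_distrib]
    refine Finset.sum_le_sum fun A hA => ?_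
    have hsub : (Lv n (k + 1) \ Y).filter (fun B => A ⊆ B) ⊆
        ((Lv n (k + 1) \ Y).filter (fun B => A ⊆ B ∧ ¬ F A B)) ∪
        ((Finset.univ.image (fun i => succ i A)) ∪
        ((Lv n (k + 1)).filter (fun B => A ⊆ B ∧ F A B ∧ ∀ i, B ≠ succ i A))) := by
      intro B hB
      rw [mem_filter, mem_sdiff] at hB
      rw [mem_union, mem_union, mem_filter, mem_sdiff, mem_filter, mem_image]
      by_cases hf : F A B
      · by_cases hs : ∃ i, succ i A = B
        · obtain ⟨i, hi⟩ := hs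
          exact Or.inr (Or.inl ⟨i, mem_univ _, hi⟩)
        · push Not at hs
          exact Or.inr (Or.inr ⟨hB.1.1, hB.2, hf, fun i => (hs i).symm⟩)
      · exact Or.inl ⟨hB.1, hB.2, hf⟩
    refine (Finset.card_le_card hsub).trans ((Finset.card_union_le _ _).trans ?_)
    refine Nat.add_le_add_left ((Finset.card_union_le _ _).trans ?_) _
    have h2 : (Finset.univ.image (fun i : Fin m => succ i A)).card ≤ m := by
      refine Finset.card_image_le.trans ?_
      simp
    have h3 := hF A (hX hA)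
    omega
  have h2 : (((X ×ˢ (Lv n (k + 1) \ Y)).filter (fun p => p.1 ⊆ p.2)).card : ℝ) ≤
      (((X ×ˢ (Lv n (k + 1) \ Y)).filter (fun p => p.1 ⊆ p.2 ∧ ¬ F p.1 p.2)).card : ℝ) +
      ∑ A ∈ X, ((m : ℝ) + φ + sv A) := by
    exact_mod_cast h1
  linarith

theorem edges_allowed_large (hkn : k < n)
    (hsucc : ∀ i, ∀ A ∈ Lv n k, A ⊆ succ i A ∧ succ i A ∈ Lv n (k + 1))
    (hsinj : ∀ i, ∀ A ∈ Lv n k, ∀ A' ∈ Lv n k, succ i A = succ i A' → A = A')
    (hsdisj : ∀ i j, i ≠ j → ∀ A ∈ Lv n k, succ i A ≠ succ j A)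
    (hF : ∀ A ∈ Lv n k, ((Lv n (k + 1)).filter
      (fun B => A ⊆ B ∧ F A B ∧ ∀ i, B ≠ succ i A)).card ≤ φ + sv A)
    (X Y : Finset (Finset (Fin n))) (hX : X ⊆ Lv n k) (hY : Y ⊆ Lv n (k + 1)) :
    ((k : ℝ) + 1 - m) * ((X.card : ℝ) - Y.card) + X.card * ((n : ℝ) - 2 * k - 1 - φ) -
      m * ((n.choose (k + 1) : ℝ) - n.choose k) - ∑ A ∈ X, (sv A : ℝ) ≤
    (((X ×ˢ (Lv n (k + 1) \ Y)).filter (fun p => p.1 ⊆ p.2 ∧ ¬ F p.1 p.2)).card : ℝ) := by
  classical
  -- the edges of `G - F₀`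
  set E0 := (X ×ˢ Lv n (k + 1)).filter (fun p => p.1 ⊆ p.2 ∧ ∀ i, p.2 ≠ succ i p.1) with hE0
  set EY := (X ×ˢ Y).filter (fun p => p.1 ⊆ p.2 ∧ ∀ i, p.2 ≠ succ i p.1) with hEY
  set EF := (X ×ˢ Lv n (k + 1)).filter
    (fun p => p.1 ⊆ p.2 ∧ F p.1 p.2 ∧ ∀ i, p.2 ≠ succ i p.1) with hEF
  have h0 : E0.card ≤
      ((X ×ˢ (Lv n (k + 1) \ Y)).filter (fun p => p.1 ⊆ p.2 ∧ ¬ F p.1 p.2)).card +
      (EY.card + EF.card) := by
    have hsub : E0 ⊆ ((X ×ˢ (Lv n (k + 1) \ Y)).filter (fun p => p.1 ⊆ p.2 ∧ ¬ F p.1 p.2)) ∪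
        (EY ∪ EF) := by
      intro p hp
      rw [hE0, mem_filter, mem_product] at hp
      obtain ⟨⟨hp1, hp2⟩, hp3, hp4⟩ := hp
      rw [mem_union, mem_union, hEY, hEF, mem_filter, mem_filter, mem_filter, mem_product,
        mem_product, mem_product, mem_sdiff]
      by_cases hy : p.2 ∈ Y
      · exact Or.inr (Or.inl ⟨⟨hp1, hy⟩, hp3, hp4⟩)
      · by_cases hf : F p.1 p.2
        · exact Or.inr (Or.inr ⟨⟨hp1, hp2⟩, hp3, hf, hp4⟩)
        · exact Or.inl ⟨⟨hp1, hp2, hy⟩, hp3, hf⟩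
    refine (Finset.card_le_card hsub).trans ((Finset.card_union_le _ _).trans ?_)
    exact Nat.add_le_add_left (Finset.card_union_le _ _) _
  -- lower bound for `E0`
  have h1 : ((X.card : ℝ)) * ((n : ℝ) - k - m) ≤ (E0.card : ℝ) := by
    rw [hE0, ea_card_prod_filter X _ (fun A B => A ⊆ B ∧ ∀ i, B ≠ succ i A)]
    push_cast
    rw [← nsmul_eq_mul]
    refine Finset.card_nsmul_le_sum X _ _ fun A hA => ?_
    have hAk : A.card = k := ea_mem_Lv.1 (hX hA)
    have hsub : (Lv n (k + 1)).filter (fun B => A ⊆ B) ⊆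
        ((Lv n (k + 1)).filter (fun B => A ⊆ B ∧ ∀ i, B ≠ succ i A)) ∪
        (Finset.univ.image (fun i => succ i A)) := by
      intro B hB
      rw [mem_filter] at hB
      rw [mem_union, mem_filter, mem_image]
      by_cases hs : ∃ i, succ i A = B
      · obtain ⟨i, hi⟩ := hs
        exact Or.inr ⟨i, mem_univ _, hi⟩
      · push Not at hs
        exact Or.inl ⟨hB.1, hB.2, fun i => (hs i).symm⟩
    have h2 := (ea_card_above A hAk).trans ((Finset.card_le_card hsub).trans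
      (Finset.card_union_le _ _))
    have h3 : (Finset.univ.image (fun i : Fin m => succ i A)).card ≤ m := by
      refine Finset.card_image_le.trans ?_
      simp
    have h4 : n ≤ ((Lv n (k + 1)).filter (fun B => A ⊆ B ∧ ∀ i, B ≠ succ i A)).card + m + k := by
      omega
    have h5 : (n : ℝ) ≤
        (((Lv n (k + 1)).filter (fun B => A ⊆ B ∧ ∀ i, B ≠ succ i A)).card : ℝ) + m + k := by
      exact_mod_cast h4
    linarith
  -- upper bound for `EF`
  have h2 : (EF.card : ℝ) ≤ X.card * (φ : ℝ) + ∑ A ∈ X, (sv A : ℝ) := by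
    rw [hEF, ea_card_prod_filter X _ (fun A B => A ⊆ B ∧ F A B ∧ ∀ i, B ≠ succ i A)]
    have : ∑ A ∈ X, ((Lv n (k + 1)).filter (fun B => A ⊆ B ∧ F A B ∧ ∀ i, B ≠ succ i A)).card ≤
        ∑ A ∈ X, (φ + sv A) := Finset.sum_le_sum fun A hA => hF A (hX hA)
    rw [Finset.sum_add_distrib, Finset.sum_const, smul_eq_mul] at this
    exact_mod_cast this
  -- the degrees in the matchings
  set d0 : Finset (Fin n) → ℕ := fun B =>
    (Finset.univ.filter (fun i : Fin m => ∃ A ∈ Lv n k, succ i A = B)).card with hd0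
  have hd0m : ∀ B, d0 B ≤ m := by
    intro B
    refine (Finset.card_filter_le _ _).trans ?_
    simp
  have h3 : ∀ B ∈ Y, (X.filter (fun A => A ⊆ B ∧ ∀ i, B ≠ succ i A)).card + d0 B ≤ k + 1 := by
    intro B hB
    have hBk : B.card = k + 1 := ea_mem_Lv.1 (hY hB)
    refine le_trans ?_ (ea_card_below B hBk)
    -- injection from the matchings
    have hch : ∀ i ∈ Finset.univ.filter (fun i : Fin m => ∃ A ∈ Lv n k, succ i A = B),
        ∃ A ∈ Lv n k, succ i A = B := fun i hi => (mem_filter.1 hi).2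
    choose! a ha1 ha2 using hch
    have hinj : Set.InjOn a
        (Finset.univ.filter (fun i : Fin m => ∃ A ∈ Lv n k, succ i A = B) : Finset (Fin m)) := by
      intro i hi j hj hij
      by_contra hne
      refine hsdisj i j hne (a i) (ha1 i hi) ?_
      rw [ha2 i hi, hij, ha2 j hj]
    rw [hd0]
    simp only
    rw [← Finset.card_image_of_injOn hinj, ← Finset.card_union_of_disjoint]
    · refine Finset.card_le_card ?_
      intro A hA
      rw [mem_union] at hA
      rw [mem_filter]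
      rcases hA with hA | hA
      · rw [mem_filter] at hA
        exact ⟨hX hA.1, hA.2.1⟩
      · obtain ⟨i, hi, rfl⟩ := mem_image.1 hA
        refine ⟨ha1 i hi, ?_⟩
        have := (hsucc i _ (ha1 i hi)).1
        rwa [ha2 i hi] at this
    · rw [Finset.disjoint_left]
      intro A hA hA'
      obtain ⟨i, hi, rfl⟩ := mem_image.1 hA'
      rw [mem_filter] at hA
      exact hA.2.2 i (ha2 i hi).symm
  have h4 : ∑ B ∈ Lv n (k + 1), d0 B = m * n.choose k := by
    have e1 : ∀ B, d0 B = ∑ i : Fin m, if (∃ A ∈ Lv n k, succ i A = B) then 1 else 0 := by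
      intro B
      rw [hd0]
      simp only
      rw [Finset.card_filter]
    rw [Finset.sum_congr rfl fun B _ => e1 B, Finset.sum_comm]
    have e2 : ∀ i : Fin m, (∑ B ∈ Lv n (k + 1), if (∃ A ∈ Lv n k, succ i A = B) then 1 else 0) =
        n.choose k := by
      intro i
      rw [← Finset.card_filter, ← ea_card_Lv n k]
      have e3 : (Lv n (k + 1)).filter (fun B => ∃ A ∈ Lv n k, succ i A = B) =
          (Lv n k).image (succ i) := by
        ext B
        rw [mem_filter, mem_image]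
        constructor
        · rintro ⟨_, A, hA, hAB⟩
          exact ⟨A, hA, hAB⟩
        · rintro ⟨A, hA, rfl⟩
          exact ⟨(hsucc i A hA).2, A, hA, rfl⟩
      rw [e3, Finset.card_image_of_injOn]
      intro A hA A' hA' h
      exact hsinj i A hA A' hA' h
    rw [Finset.sum_congr rfl fun i _ => e2 i, Finset.sum_const, smul_eq_mul, card_univ,
      Fintype.card_fin]
  -- upper bound for `EY`
  have h5 : (EY.card : ℝ) ≤ (Y.card : ℝ) * ((k : ℝ) + 1 - m) +
      m * ((n.choose (k + 1) : ℝ) - n.choose k) := by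
    rw [hEY, ea_card_prod_filter' X Y (fun A B => A ⊆ B ∧ ∀ i, B ≠ succ i A)]
    push_cast
    have e1 : ∑ B ∈ Y, ((X.filter (fun A => A ⊆ B ∧ ∀ i, B ≠ succ i A)).card : ℝ) ≤
        ∑ B ∈ Y, (((k : ℝ) + 1 - m) + ((m : ℝ) - d0 B)) := by
      refine Finset.sum_le_sum fun B hB => ?_
      have : ((X.filter (fun A => A ⊆ B ∧ ∀ i, B ≠ succ i A)).card : ℝ) + d0 B ≤ k + 1 := by
        exact_mod_cast h3 B hB
      linarith
    refine e1.trans ?_
    rw [Finset.sum_add_distrib, Finset.sum_const, nsmul_eq_mul]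
    refine add_le_add le_rfl ?_
    have e2 : ∑ B ∈ Y, ((m : ℝ) - d0 B) ≤ ∑ B ∈ Lv n (k + 1), ((m : ℝ) - d0 B) := by
      refine Finset.sum_le_sum_of_subset_of_nonneg hY fun B _ _ => ?_
      have : (d0 B : ℝ) ≤ m := by exact_mod_cast hd0m B
      linarith
    refine e2.trans (le_of_eq ?_)
    rw [Finset.sum_sub_distrib, Finset.sum_const, nsmul_eq_mul, ea_card_Lv]
    have e3 : (∑ B ∈ Lv n (k + 1), (d0 B : ℝ)) = m * n.choose k := by
      exact_mod_cast h4
    rw [e3]
    ring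
  have h6 : (E0.card : ℝ) ≤
      (((X ×ˢ (Lv n (k + 1) \ Y)).filter (fun p => p.1 ⊆ p.2 ∧ ¬ F p.1 p.2)).card : ℝ) +
      (EY.card + EF.card) := by
    exact_mod_cast h0
  nlinarith

end CH

end Pool.Agent.OrthoChains
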