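import Pool.Agent.OrthoChains.Defs

/-!
# Edges leaving a pair of sets of adjacent levels (OC8)
-/

set_option autoImplicit false
set_option linter.unusedVariables false

open Finset

namespace Pool.Agent.OrthoChains

lemma sup_card {n k : ℕ} (A : Finset (Fin n)) (hA : A ∈ Lv n k) :
    ((Lv n (k + 1)).filter (fun B => A ⊆ B)).card = n - k := by
  classical
  have hAk : A.card = k := (mem_filter.mp hA).2
  have h1 : (Lv n (k + 1)).filter (fun B => A ⊆ B) = (Aᶜ).image (fun i => insert i A) := by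
    ext B
    simp only [Lv, mem_filter, mem_univ, true_and, mem_image, mem_compl]
    constructor
    · rintro ⟨h2, h3⟩
      have h4 : (B \ A).card = 1 := by
        rw [card_sdiff_of_subset h3]; omega
      obtain ⟨i, hi⟩ := card_eq_one.mp h4
      have hiB : i ∈ B \ A := by rw [hi]; exact mem_singleton_self i
      refine ⟨i, (mem_sdiff.mp hiB).2, ?_⟩
      rw [← union_sdiff_of_subset h3, hi, insert_eq, union_comm]
    · rintro ⟨i, hi, rfl⟩
      exact ⟨by rw [card_insert_of_notMem hi, hAk], subset_insert _ _⟩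
  rw [h1, card_image_of_injOn, card_compl, Fintype.card_fin, hAk]
  intro i hi j hj hij
  have hi' : i ∉ A := by simpa using hi
  have h2 : i ∈ insert j A := by
    have : i ∈ insert i A := mem_insert_self i A
    rw [show insert i A = insert j A from hij] at this
    exact this
  rcases mem_insert.mp h2 with h | h
  · exact h
  · exact absurd h hi'

lemma common_card {n k : ℕ} (A A' : Finset (Fin n)) (hA : A ∈ Lv n k) (hA' : A' ∈ Lv n k)
    (hne : A ≠ A') :
    ((Lv n (k + 1)).filter (fun B => A ⊆ B ∧ A' ⊆ B)).card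
      ≤ if (A \ A').card = 1 then 1 else 0 := by
  classical
  have hAk : A.card = k := (mem_filter.mp hA).2
  have hAk' : A'.card = k := (mem_filter.mp hA').2
  have hsd : 1 ≤ (A \ A').card := by
    rw [Nat.one_le_iff_ne_zero, Ne, card_eq_zero, sdiff_eq_empty_iff_subset]
    intro h
    exact hne (eq_of_subset_of_card_le h (by omega))
  have hun : (A ∪ A').card = k + (A \ A').card := by
    rw [← sdiff_union_self_eq_union, card_union_of_disjoint disjoint_sdiff_self_left]
    omega
  have key : ∀ B ∈ (Lv n (k + 1)).filter (fun B => A ⊆ B ∧ A' ⊆ B),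
      B = A ∪ A' ∧ (A \ A').card = 1 := by
    intro B hB
    simp only [Lv, mem_filter, mem_univ, true_and] at hB
    obtain ⟨h1, h2, h3⟩ := hB
    have h4 : A ∪ A' ⊆ B := union_subset h2 h3
    have h5 := card_le_card h4
    have h6 : (A \ A').card = 1 := by omega
    exact ⟨(eq_of_subset_of_card_le h4 (by omega)).symm, h6⟩
  by_cases h : (A \ A').card = 1
  · rw [if_pos h]
    refine card_le_one.mpr ?_
    intro B hB B' hB'
    rw [(key B hB).1, (key B' hB').1]
  · rw [if_neg h, Nat.le_zero, card_eq_zero, eq_empty_iff_forall_notMem]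
    intro B hB
    exact h (key B hB).2

theorem edges_out {n k : ℕ} (hk : k < n) (X Y : Finset (Finset (Fin n)))
    (hX : X ⊆ Lv n k) (hY : Y ⊆ Lv n (k + 1)) (g : ℝ)
    (hg : (∑ A ∈ X, ((X.filter (fun A' => (A \ A').card = 1)).card : ℝ)) ≤
      ((n : ℝ) - k) * X.card * (k - g)) :
    (X.card : ℝ) * (((n : ℝ) - k) - (k + 1 - g)) / 2 +
      ((n : ℝ) - k) / 2 * ((X.card : ℝ) - Y.card) ≤
      (((X ×ˢ (Lv n (k + 1) \ Y)).filter (fun p => p.1 ⊆ p.2)).card : ℝ) := by
  classical
  set d : Finset (Fin n) → ℕ := fun B => (X.filter (fun A => A ⊆ B)).card with hd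
  have hnk : (0 : ℝ) < (n : ℝ) - k := by
    have : (k : ℝ) < n := by exact_mod_cast hk
    linarith
  have hcast : ((n - k : ℕ) : ℝ) = (n : ℝ) - k := by rw [Nat.cast_sub hk.le]
  -- the edges leaving
  have h1 : ((X ×ˢ (Lv n (k + 1) \ Y)).filter (fun p => p.1 ⊆ p.2)).card + ∑ B ∈ Y, d B
      = X.card * (n - k) := by
    have e1 : ((X ×ˢ (Lv n (k + 1) \ Y)).filter (fun p => p.1 ⊆ p.2)).card
        = ∑ B ∈ Lv n (k + 1) \ Y, d B := by
      rw [card_filter, sum_product_right]
      refine sum_congr rfl fun B _ => ?_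
      rw [hd]
      simp only
      rw [card_filter]
    rw [e1, sum_sdiff hY]
    have e2 : ∑ B ∈ Lv n (k + 1), d B = ∑ A ∈ X, ((Lv n (k + 1)).filter (fun B => A ⊆ B)).card := by
      simp only [hd, card_filter]
      rw [sum_comm]
    rw [e2, sum_congr rfl fun A hA => sup_card A (hX hA), sum_const, smul_eq_mul]
  -- second moment
  have h2 : (∑ B ∈ Y, d B ^ 2 : ℕ) ≤ ∑ A ∈ X, ((n - k) + (X.filter
      (fun A' => (A \ A').card = 1)).card) := by
    calc (∑ B ∈ Y, d B ^ 2 : ℕ) ≤ ∑ B ∈ Lv n (k + 1), d B ^ 2 :=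
          sum_le_sum_of_subset hY
      _ = ∑ A ∈ X, ∑ A' ∈ X, ((Lv n (k + 1)).filter (fun B => A ⊆ B ∧ A' ⊆ B)).card := by
          have e3 : ∀ B, d B ^ 2 = ∑ A ∈ X, ∑ A' ∈ X, if A ⊆ B ∧ A' ⊆ B then 1 else 0 := by
            intro B
            rw [sq, hd]
            simp only
            rw [card_filter, sum_mul_sum]
            refine sum_congr rfl fun A _ => sum_congr rfl fun A' _ => ?_
            by_cases h3 : A ⊆ B <;> by_cases h4 : A' ⊆ B <;> simp [h3, h4]
          rw [sum_congr rfl fun B _ => e3 B, sum_comm]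
          refine sum_congr rfl fun A _ => ?_
          rw [sum_comm]
          refine sum_congr rfl fun A' _ => ?_
          rw [card_filter]
      _ ≤ _ := by
          refine sum_le_sum fun A hA => ?_
          rw [← add_sum_erase X _ hA]
          apply add_le_add
          · simp only [and_self]
            rw [sup_card A (hX hA)]
          · calc ∑ A' ∈ X.erase A, ((Lv n (k + 1)).filter (fun B => A ⊆ B ∧ A' ⊆ B)).card
                ≤ ∑ A' ∈ X.erase A, if (A \ A').card = 1 then 1 else 0 :=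
                  sum_le_sum fun A' hA' => common_card A A' (hX hA)
                    (hX (mem_of_mem_erase hA')) (ne_of_mem_erase hA').symm
              _ ≤ ∑ A' ∈ X, if (A \ A').card = 1 then 1 else 0 :=
                  sum_le_sum_of_subset (erase_subset _ _)
              _ = _ := by rw [card_filter]
  have h3 : (∑ B ∈ Y, (d B : ℝ) ^ 2) ≤ ((n : ℝ) - k) * X.card * (k + 1 - g) := by
    have h4 : (∑ B ∈ Y, (d B : ℝ) ^ 2) ≤ ∑ A ∈ X, (((n : ℝ) - k) + ((X.filter
      (fun A' => (A \ A').card = 1)).card : ℝ)) := by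
      rw [← hcast]
      exact_mod_cast h2
    rw [sum_add_distrib, sum_const, nsmul_eq_mul] at h4
    nlinarith
  have h4 : (∑ B ∈ Y, (d B : ℝ)) ≤ (X.card : ℝ) * (k + 1 - g) / 2
      + ((n : ℝ) - k) / 2 * Y.card := by
    have h5 : ∀ B ∈ Y, (d B : ℝ) ≤ (d B : ℝ) ^ 2 / (2 * ((n : ℝ) - k)) + ((n : ℝ) - k) / 2 := by
      intro B _
      have h6 : (d B : ℝ) ^ 2 / (2 * ((n : ℝ) - k)) + ((n : ℝ) - k) / 2 - d B
          = ((d B : ℝ) - ((n : ℝ) - k)) ^ 2 / (2 * ((n : ℝ) - k)) := by
        field_simp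
        ring
      have h7 : 0 ≤ ((d B : ℝ) - ((n : ℝ) - k)) ^ 2 / (2 * ((n : ℝ) - k)) := by positivity
      linarith
    calc (∑ B ∈ Y, (d B : ℝ)) ≤ ∑ B ∈ Y, ((d B : ℝ) ^ 2 / (2 * ((n : ℝ) - k))
          + ((n : ℝ) - k) / 2) := sum_le_sum h5
      _ = (∑ B ∈ Y, (d B : ℝ) ^ 2) / (2 * ((n : ℝ) - k)) + Y.card * (((n : ℝ) - k) / 2) := by
          rw [sum_add_distrib, sum_const, nsmul_eq_mul, sum_div]
      _ ≤ (((n : ℝ) - k) * X.card * (k + 1 - g)) / (2 * ((n : ℝ) - k))
          + Y.card * (((n : ℝ) - k) / 2) := by gcongr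
      _ = _ := by field_simp
  have h5 : ((((X ×ˢ (Lv n (k + 1) \ Y)).filter (fun p => p.1 ⊆ p.2)).card : ℕ) : ℝ)
      + ∑ B ∈ Y, (d B : ℝ) = (X.card : ℝ) * ((n : ℝ) - k) := by
    rw [← hcast]
    exact_mod_cast h1
  linarith

end Pool.Agent.OrthoChains
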