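import Pool.Agent.OrthoChains.JohnsonIso
import Pool.Agent.OrthoChains.EdgesOut
import Pool.Agent.OrthoChains.EdgesAllowed

/-!
# OC10: the capacity Hall condition
-/

set_option autoImplicit false

open Finset

namespace Pool.Agent.OrthoChains

namespace CapHallAux

lemma card_Lv (n k : ℕ) : (Lv n k).card = n.choose k := by
  unfold Lv
  have h : (Finset.univ.filter (fun A : Finset (Fin n) => A.card = k)) =
      Finset.powersetCard k (Finset.univ : Finset (Fin n)) := by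
    ext A
    simp [Finset.mem_powersetCard]
  rw [h, Finset.card_powersetCard, Finset.card_univ, Fintype.card_fin]

/-- the Jensen step -/
lemma sum_sv_le {ι : Type*} (X : Finset ι) (sv : ι → ℕ) (K x N : ℝ) (hK : 0 < K)
    (hlog : Real.log K = 128 * Real.log 2) (hx : x = X.card) (hx0 : 0 < x)
    (hxN : x ≤ N) (hs : ∑ A ∈ X, (K ^ sv A - 1) ≤ N) :
    ∑ A ∈ X, (sv A : ℝ) ≤ x * ((Real.logb 2 (N / x) + 1) / 128) := by
  have hN : 0 < N := lt_of_lt_of_le hx0 hxN
  obtain ⟨c, hcd⟩ : ∃ c : ℝ, c = 2 * N / x := ⟨_, rfl⟩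
  have hc : 0 < c := by rw [hcd]; positivity
  have hln2 : 0 < Real.log 2 := Real.log_pos (by norm_num)
  have h1 : ∀ A ∈ X, 128 * Real.log 2 * (sv A : ℝ) ≤ K ^ sv A / c - 1 + Real.log c := by
    intro A _
    have h2 : 0 < K ^ sv A / c := by positivity
    have h3 := Real.log_le_sub_one_of_pos h2
    have h4 : Real.log (K ^ sv A / c) = 128 * Real.log 2 * (sv A : ℝ) - Real.log c := by
      rw [Real.log_div (by positivity) hc.ne', Real.log_pow, hlog]
      ring
    linarith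
  have h5 := Finset.sum_le_sum h1
  rw [← Finset.mul_sum, Finset.sum_add_distrib, Finset.sum_sub_distrib, ← Finset.sum_div,
    Finset.sum_const, Finset.sum_const, nsmul_eq_mul, nsmul_eq_mul, ← hx, mul_one] at h5
  have h6 : ∑ A ∈ X, K ^ sv A ≤ 2 * N := by
    rw [Finset.sum_sub_distrib, Finset.sum_const, nsmul_eq_mul, ← hx, mul_one] at hs
    linarith
  have h7 : (∑ A ∈ X, K ^ sv A) / c ≤ x := by
    rw [div_le_iff₀ hc]
    have h71 : x * c = 2 * N := by rw [hcd]; field_simp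
    rw [h71]
    exact h6
  have h8 : Real.log c = Real.log 2 * (Real.logb 2 (N / x) + 1) := by
    have h9 : c = 2 * (N / x) := by rw [hcd]; ring
    rw [h9, Real.log_mul (by norm_num) (by positivity)]
    unfold Real.logb
    field_simp
    ring
  rw [h8] at h5
  obtain ⟨S, hS⟩ : ∃ S : ℝ, S = ∑ A ∈ X, (sv A : ℝ) := ⟨_, rfl⟩
  obtain ⟨ℓ, hℓ⟩ : ∃ ℓ : ℝ, ℓ = Real.logb 2 (N / x) + 1 := ⟨_, rfl⟩
  rw [← hS, ← hℓ] at h5
  rw [← hS, ← hℓ]
  have h12 : Real.log 2 * (128 * S) ≤ Real.log 2 * (x * ℓ) := by linarith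
  have h11 : 128 * S ≤ x * ℓ := le_of_mul_le_mul_left h12 hln2
  linarith

lemma sv_le_pow (K : ℝ) (hK : 2 ≤ K) (s : ℕ) : (s : ℝ) ≤ K ^ s - 1 := by
  have h1 : (1 : ℝ) + s * (K - 1) ≤ (1 + (K - 1)) ^ s :=
    one_add_mul_le_pow (R := ℝ) (a := K - 1) (by linarith) s
  have h2 : (1 : ℝ) + (K - 1) = K := by ring
  rw [h2] at h1
  have h4 : (s : ℝ) * 1 ≤ s * (K - 1) :=
    mul_le_mul_of_nonneg_left (by linarith) (Nat.cast_nonneg _)
  linarith

lemma key_num (m φ k L σ g n : ℝ) (hm0 : 0 ≤ m) (hφ : 8 * φ ≤ σ) (hσ : 1 ≤ σ)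
    (hL : 5 * m + 8 ≤ L) (hLn : L ≤ n) (_hd : 9 * n ≤ 20 * k) (hk : 400 ≤ k)
    (hm : m * 1024 ≤ k + 1) (hn : n - 2 * k = σ + 1)
    (hg : g = min ((L - (n - 2 * k)) / 2 - 3) (2 * k / 25)) :
    m + φ + (L + 1) / 128 ≤ (σ + g) / 2 := by
  rw [hn] at hg
  rcases min_choice ((L - (σ + 1)) / 2 - 3) (2 * k / 25) with h | h
  · rw [hg, h]
    linarith
  · rw [hg, h]
    linarith

end CapHallAux

open CapHallAux

variable {n k m φ : ℕ}
  (succ : Fin m → Finset (Fin n) → Finset (Fin n))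
  (F : Finset (Fin n) → Finset (Fin n) → Prop) [DecidableRel F]
  (sv : Finset (Fin n) → ℕ)

theorem cap_hall (hk : 2 * k < n) (hk400 : 400 ≤ k) (hdens : 9 * n ≤ 20 * k)
    (hm : m * 2 ^ (5 * m + 10) ≤ k + 1)
    (hsucc : ∀ i, ∀ A ∈ Lv n k, A ⊆ succ i A ∧ succ i A ∈ Lv n (k + 1))
    (hsinj : ∀ i, ∀ A ∈ Lv n k, ∀ A' ∈ Lv n k, succ i A = succ i A' → A = A')
    (hsdisj : ∀ i j, i ≠ j → ∀ A ∈ Lv n k, succ i A ≠ succ j A)
    (hF : ∀ A ∈ Lv n k, ((Lv n (k + 1)).filter
      (fun B => A ⊆ B ∧ F A B ∧ ∀ i, B ≠ succ i A)).card ≤ φ + sv A)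
    (hsv : ∑ A ∈ Lv n k, (((2 : ℝ) ^ 128) ^ sv A - 1) ≤ 1 / 2 ^ (5 * m + 10) * (n.choose k : ℝ))
    (hcase : (2 * k + 2 ≤ n ∧ 8 * φ ≤ n - 2 * k - 1) ∨
      (n = 2 * k + 1 ∧ φ = 0 ∧ ∀ A ∈ Lv n k, sv A = 0))
    (X Y : Finset (Finset (Fin n))) (hX : X ⊆ Lv n k) (hY : Y ⊆ Lv n (k + 1)) :
    (n - k) * X.card ≤ (n - k) * Y.card +
      2 * ((X ×ˢ (Lv n (k + 1) \ Y)).filter (fun p => p.1 ⊆ p.2 ∧ ¬ F p.1 p.2)).card := by
  rcases le_or_gt X.card Y.card with hw | hw
  · exact le_trans (Nat.mul_le_mul_left _ hw) (Nat.le_add_right _ _)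
  -- reals
  obtain ⟨K, hKd⟩ : ∃ K : ℝ, K = (2 : ℝ) ^ 128 := ⟨_, rfl⟩
  rw [← hKd] at hsv
  have hKlog : Real.log K = 128 * Real.log 2 := by
    rw [hKd, Real.log_pow]
    norm_num
  have hK2 : 2 ≤ K := by rw [hKd]; norm_num
  clear hKd
  obtain ⟨e, he⟩ : ∃ e : ℝ, e = (((X ×ˢ (Lv n (k + 1) \ Y)).filter
    (fun p => p.1 ⊆ p.2 ∧ ¬ F p.1 p.2)).card : ℝ) := ⟨_, rfl⟩
  have hkn : k < n := by omega
  have hnk : ((n - k : ℕ) : ℝ) = (n : ℝ) - k := by rw [Nat.cast_sub hkn.le]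
  suffices hmain : ((n : ℝ) - k) * ((X.card : ℝ) - Y.card) ≤ 2 * e by
    have h1 : (((n - k) * X.card : ℕ) : ℝ) ≤ (((n - k) * Y.card + 2 * ((X ×ˢ (Lv n (k + 1) \ Y)).filter
        (fun p => p.1 ⊆ p.2 ∧ ¬ F p.1 p.2)).card : ℕ) : ℝ) := by
      push_cast
      rw [hnk, ← he]
      linarith
    exact_mod_cast h1
  have hwr : (0 : ℝ) < (X.card : ℝ) - Y.card := by
    have : (Y.card : ℝ) < X.card := by exact_mod_cast hw
    linarith
  obtain ⟨x, hx⟩ : ∃ x : ℝ, x = X.card := ⟨_, rfl⟩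
  have hxpos : 0 < x := by
    rw [hx]
    have : 0 < X.card := by omega
    exact_mod_cast this
  obtain ⟨N, hN⟩ : ∃ N : ℝ, N = (n.choose k : ℝ) := ⟨_, rfl⟩
  have hxN : x ≤ N := by
    rw [hx, hN, ← card_Lv n k]
    exact_mod_cast Finset.card_le_card hX
  have hNpos : 0 < N := lt_of_lt_of_le hxpos hxN
  have hXne : X.Nonempty := Finset.card_pos.1 (by omega)
  -- numeric facts
  have hkr : (400 : ℝ) ≤ k := by exact_mod_cast hk400
  have hdr : 9 * (n : ℝ) ≤ 20 * k := by exact_mod_cast hdens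
  have hkr2 : 2 * (k : ℝ) + 1 ≤ n := by exact_mod_cast hk
  obtain ⟨P, hP⟩ : ∃ P : ℝ, P = 2 ^ (5 * m + 10) := ⟨_, rfl⟩
  have hPpos : 0 < P := by rw [hP]; positivity
  have hP1024 : 1024 ≤ P := by
    rw [hP, pow_add]
    have : (1 : ℝ) ≤ 2 ^ (5 * m) := one_le_pow₀ (by norm_num)
    linarith
  have hmr : (m : ℝ) * P ≤ k + 1 := by rw [hP]; exact_mod_cast hm
  have hm0 : (0 : ℝ) ≤ m := Nat.cast_nonneg _
  have hm1024 : (m : ℝ) * 1024 ≤ k + 1 := (mul_le_mul_of_nonneg_left hP1024 hm0).trans hmr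
  have hlarge := edges_allowed_large (φ := φ) succ F sv hkn hsucc hsinj hsdisj hF X Y hX hY
  rw [← he, ← hx, ← hN] at hlarge
  have hsmall := edges_allowed_small (φ := φ) succ F sv hsucc hF X Y hX hY
  rw [← he] at hsmall
  have h2k : (n : ℝ) - k ≤ 2 * ((k : ℝ) + 1 - m) := by linarith only [hm1024, hdr, hkr]
  -- difference of binomials
  have hbin : ((n.choose (k + 1) : ℝ) - N) * ((k : ℝ) + 1) = N * ((n : ℝ) - 2 * k - 1) := by
    have h1 : n.choose (k + 1) * (k + 1) = n.choose k * (n - k) := Nat.choose_succ_right_eq n k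
    have h2 : (n.choose (k + 1) : ℝ) * ((k : ℝ) + 1) = N * ((n : ℝ) - k) := by
      rw [hN, ← hnk]
      exact_mod_cast h1
    linarith
  have hsumsv0 : ∑ A ∈ X, (K ^ sv A - 1) ≤ 1 / P * N := by
    rw [← hP, ← hN] at hsv
    refine le_trans ?_ hsv
    refine Finset.sum_le_sum_of_subset_of_nonneg hX fun A _ _ => ?_
    have := sv_le_pow K hK2 (sv A)
    have h3 : (0 : ℝ) ≤ sv A := Nat.cast_nonneg _
    linarith
  clear hsv hF hsucc hsinj hsdisj
  rcases hcase with ⟨hn2, hφ⟩ | ⟨hn1, hφ0, hsv0⟩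
  · have hσ : (1 : ℝ) ≤ (n : ℝ) - 2 * k - 1 := by
      have : 2 * (k : ℝ) + 2 ≤ n := by exact_mod_cast hn2
      linarith
    have hφr : 8 * (φ : ℝ) ≤ (n : ℝ) - 2 * k - 1 := by
      have h1 : 8 * φ + 2 * k + 1 ≤ n := by omega
      have h2 : (((8 * φ + 2 * k + 1 : ℕ)) : ℝ) ≤ (n : ℝ) := by exact_mod_cast h1
      push_cast at h2
      linarith
    obtain ⟨σ, hσd⟩ : ∃ σ : ℝ, σ = (n : ℝ) - 2 * k - 1 := ⟨_, rfl⟩
    rw [← hσd] at hσ hφr hlarge hbin
    rcases le_or_gt N (x * (P / 4)) with hA | hB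
    · -- large X
      have h1 : (m : ℝ) * ((n.choose (k + 1) : ℝ) - N) ≤ N * σ / P := by
        rw [le_div_iff₀ hPpos]
        have h2 : 0 ≤ (n.choose (k + 1) : ℝ) - N := by
          have h3 : 0 ≤ ((n.choose (k + 1) : ℝ) - N) * ((k : ℝ) + 1) := by rw [hbin]; positivity
          exact nonneg_of_mul_nonneg_left h3 (by positivity)
        calc (m : ℝ) * ((n.choose (k + 1) : ℝ) - N) * P
            = ((n.choose (k + 1) : ℝ) - N) * (m * P) := by ring
          _ ≤ ((n.choose (k + 1) : ℝ) - N) * (k + 1) := mul_le_mul_of_nonneg_left hmr h2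
          _ = N * σ := hbin
      have h2 : ∑ A ∈ X, (sv A : ℝ) ≤ N / P := by
        refine le_trans (Finset.sum_le_sum fun A _ => sv_le_pow K hK2 (sv A))
          (hsumsv0.trans (le_of_eq ?_))
        ring
      have h3 : 7 / 2 * (N * σ / P) ≤ x * (σ - φ) := by
        have h4 : x * (7 / 8 * σ) ≤ x * (σ - φ) := mul_le_mul_of_nonneg_left (by linarith) hxpos.le
        refine le_trans ?_ h4
        have h5 : N / P ≤ x / 4 := by
          rw [div_le_iff₀ hPpos]
          linarith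
        have h6 : 7 / 2 * (N * σ / P) = (N / P) * (7 / 2 * σ) := by ring
        have h7 : x * (7 / 8 * σ) = (x / 4) * (7 / 2 * σ) := by ring
        rw [h6, h7]
        exact mul_le_mul_of_nonneg_right h5 (by positivity)
      have h4 : N / P ≤ N * σ / P := by
        rw [div_le_div_iff_of_pos_right hPpos]
        exact le_mul_of_one_le_right hNpos.le hσ
      have h5 : 0 < N * σ / P := by positivity
      have h6 : ((k : ℝ) + 1 - m) * (x - Y.card) ≤ e := by
        linarith only [hlarge, h1, h2, h3, h4, h5]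
      rw [← hx]
      rw [← hx] at hwr
      have h7 := mul_le_mul_of_nonneg_right h2k hwr.le
      linarith only [h6, h7]
    · -- small X
      obtain ⟨L, hL⟩ : ∃ L : ℝ, L = Real.logb 2 (N / x) := ⟨_, rfl⟩
      have hLlow : (5 * m + 8 : ℝ) ≤ L := by
        rw [hL]
        have h1 : (2 : ℝ) ^ (5 * m + 8) ≤ N / x := by
          rw [le_div_iff₀ hxpos]
          have : P / 4 = 2 ^ (5 * m + 8) := by
            rw [hP, pow_add, pow_add]
            norm_num
            ring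
          rw [← this]
          linarith
        have h2 : Real.logb 2 ((2 : ℝ) ^ (5 * m + 8)) ≤ Real.logb 2 (N / x) :=
          Real.logb_le_logb_of_le (by norm_num) (by positivity) h1
        rw [Real.logb_pow, Real.logb_self_eq_one (by norm_num)] at h2
        push_cast at h2
        linarith
      have hLup : L ≤ n := by
        rw [hL]
        have h1 : N / x ≤ 2 ^ n := by
          rw [div_le_iff₀ hxpos]
          have h2 : N ≤ 2 ^ n := by
            rw [hN]
            exact_mod_cast Nat.choose_le_two_pow n k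
          have h3 : 1 ≤ x := by
            rw [hx]
            have : 1 ≤ X.card := Finset.card_pos.2 hXne
            exact_mod_cast this
          exact h2.trans (le_mul_of_one_le_right (by positivity) h3)
        have h2 : Real.logb 2 (N / x) ≤ Real.logb 2 ((2 : ℝ) ^ n) :=
          Real.logb_le_logb_of_le (by norm_num) (by positivity) h1
        rw [Real.logb_pow, Real.logb_self_eq_one (by norm_num)] at h2
        linarith
      have hiso := johnson_iso hk.le hk400 X hX hXne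
      rw [← hx, ← hN, ← hL] at hiso
      obtain ⟨g, hg⟩ : ∃ g : ℝ, g = min ((L - ((n : ℝ) - 2 * k)) / 2 - 3) (2 * (k : ℝ) / 25) :=
        ⟨_, rfl⟩
      rw [← hg, hx] at hiso
      have hout := edges_out hkn X Y hX hY g hiso
      have hjen := sum_sv_le X sv K x N (by linarith) hKlog hx hxpos hxN (by
        refine hsumsv0.trans ?_
        rw [div_mul_eq_mul_div, one_mul, div_le_iff₀ hPpos]
        exact le_mul_of_one_le_right hNpos.le (by linarith only [hP1024]))
      rw [← hL] at hjen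
      have hsum : ∑ A ∈ X, ((m : ℝ) + φ + sv A) = x * (m + φ) + ∑ A ∈ X, (sv A : ℝ) := by
        rw [Finset.sum_add_distrib, Finset.sum_const, nsmul_eq_mul, ← hx]
      rw [hsum] at hsmall
      rw [← hx] at hout
      have key : (m : ℝ) + φ + (L + 1) / 128 ≤ (σ + g) / 2 :=
        key_num m φ k L σ g n hm0 hφr hσ hLlow hLup hdr hkr hm1024 (by rw [hσd]; ring) hg
      have hfin : x * (m + φ) + x * ((L + 1) / 128) ≤ x * ((σ + g) / 2) := by
        rw [← mul_add]
        exact mul_le_mul_of_nonneg_left key hxpos.le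
      have hout2 : x * ((σ + g) / 2) + ((n : ℝ) - k) / 2 * (x - Y.card) ≤
          (((X ×ˢ (Lv n (k + 1) \ Y)).filter (fun p => p.1 ⊆ p.2)).card : ℝ) := by
        refine le_trans (le_of_eq ?_) hout
        rw [hσd]
        ring
      rw [← hx]
      clear hiso hlarge hbin
      have f1 := hout2.trans (sub_le_iff_le_add.1 hsmall)
      have f2 : x * ((σ + g) / 2) + ((n : ℝ) - k) / 2 * (x - Y.card) ≤
          e + (x * (m + φ) + x * ((L + 1) / 128)) := f1.trans (by gcongr)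
      have f3 : ((n : ℝ) - k) / 2 * (x - Y.card) ≤ e := by
        have f4 := f2.trans (add_le_add_right hfin e)
        linarith only [f4]
      linarith only [f3]
  · -- n = 2 k + 1
    have h1 : (n : ℝ) - 2 * k - 1 = 0 := by
      rw [hn1]
      push_cast
      ring
    have h2 : (n.choose (k + 1) : ℝ) - N = 0 := by
      rw [h1, mul_zero] at hbin
      rcases mul_eq_zero.1 hbin with h | h
      · exact h
      · exfalso
        linarith
    have h3 : ∑ A ∈ X, (sv A : ℝ) = 0 := Finset.sum_eq_zero fun A hA => by rw [hsv0 A (hX hA)]; simp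
    rw [h1, h2, h3, hφ0] at hlarge
    have h4 : ((k : ℝ) + 1 - m) * (x - Y.card) ≤ e := by
      push_cast at hlarge
      linarith
    rw [← hx]
    rw [← hx] at hwr
    have h7 := mul_le_mul_of_nonneg_right h2k hwr.le
    linarith only [h4, h7]

end Pool.Agent.OrthoChains
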