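import Mathlib
import Pool.Agent.OrthoChains.Defs
import Pool.Agent.OrthoChains.CapHall

set_option autoImplicit false

open Finset

namespace Pool.Agent.OrthoChains

section Step

variable {n m : ℕ} (R : Finset (Fin n) → Prop)
  (c : Fin m → Finset (Fin n) → Finset (Fin n)) (d : Finset (Fin n) → Finset (Fin n))

theorem step_hall_forb {k hi φ : ℕ} (hkhi : k + 1 ≤ hi)
    (hd : Win R (k + 1) hi d)
    (hRφ : ∀ A ∈ Lv n k, ∀ T : Finset (Finset (Fin n)),
      (∀ B ∈ T, B.card = k + 1 ∧ A ⊆ B ∧ R B) → T.card ≤ φ)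
    (succ : Fin m → Finset (Fin n) → Finset (Fin n))
    (hs : ∀ i, ∀ A ∈ Lv n k, ∀ B ∈ Lv n (k + 1), c i B = c i A → B = succ i A)
    [DecidableRel (Forb R c d k hi)] (A : Finset (Fin n)) (hA : A ∈ Lv n k) :
    ((Lv n (k + 1)).filter
      (fun B => A ⊆ B ∧ Forb R c d k hi A B ∧ ∀ i, B ≠ succ i A)).card ≤
        φ + survLow c d (k + 1) hi A := by
  classical
  set G := (Lv n (k + 1)).filter
      (fun B => A ⊆ B ∧ Forb R c d k hi A B ∧ ∀ i, B ≠ succ i A) with hG
  have hsplit : G.card = (G.filter (fun B => R B)).card + (G.filter (fun B => ¬ R B)).card :=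
    (Finset.card_filter_add_card_filter_not (s := G) (fun B => R B)).symm
  rw [hsplit]
  refine Nat.add_le_add ?_ ?_
  · refine hRφ A hA _ ?_
    intro B hB
    rw [Finset.mem_filter, hG, Finset.mem_filter] at hB
    obtain ⟨⟨hB1, hB2, -, -⟩, hB3⟩ := hB
    have : B.card = k + 1 := by simpa [Lv] using hB1
    exact ⟨this, hB2, hB3⟩
  · have key : ∀ B ∈ G.filter (fun B => ¬ R B),
        ∃ p ∈ (aliveLow c d (k + 1) hi A).filter (fun p => p.2.card ≠ k + 1), d p.2 = d B := by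
      intro B hB
      rw [Finset.mem_filter, hG, Finset.mem_filter] at hB
      obtain ⟨⟨hB1, hB2, hB4, hB5⟩, hB3⟩ := hB
      have hBc : B.card = k + 1 := by simpa [Lv] using hB1
      rcases hB4 with hR | ⟨p, hp, hpd⟩
      · exact absurd hR hB3
      · refine ⟨p, ?_, hpd⟩
        rw [Finset.mem_filter]
        refine ⟨hp, ?_⟩
        intro hpc
        have hpB : p.2 = B := hd.inj p.2 B (by omega) (by omega) (by omega) hpd
        have hp' := hp
        rw [aliveLow, Finset.mem_filter] at hp'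
        obtain ⟨-, -, -, hc, -⟩ := hp'
        rw [hpB] at hc
        exact hB5 p.1 (hs p.1 A hA B hB1 hc)
    rw [survLow]
    have hinj : Set.InjOn d (G.filter (fun B => ¬ R B) : Finset (Finset (Fin n))) := by
      intro B hB B' hB' h3
      have hB1 : B ∈ G.filter (fun B => ¬ R B) := hB
      have hB1' : B' ∈ G.filter (fun B => ¬ R B) := hB'
      rw [Finset.mem_filter, hG, Finset.mem_filter] at hB1 hB1'
      have hc1 : B.card = k + 1 := by simpa [Lv] using hB1.1.1
      have hc2 : B'.card = k + 1 := by simpa [Lv] using hB1'.1.1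
      exact hd.inj B B' (by omega) (by omega) (by omega) h3
    rw [← Finset.card_image_of_injOn hinj]
    refine (Finset.card_le_card (t := ((aliveLow c d (k + 1) hi A).filter
      (fun p => p.2.card ≠ k + 1)).image (fun p => d p.2)) ?_).trans Finset.card_image_le
    intro x hx
    rw [Finset.mem_image] at hx
    obtain ⟨B, hB, rfl⟩ := hx
    obtain ⟨p, hp, hpd⟩ := key B hB
    rw [Finset.mem_image]
    exact ⟨p, hp, hpd⟩

theorem step_hall_sv {lo0 k hi : ℕ} (hlo0 : lo0 ≤ k) (hkn : k ≤ n) (K η : ℝ) (hK : 1 ≤ K)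
    (hW : Wlow K c d lo0 (k + 1) hi ≤ η) :
    ∑ A ∈ Lv n k, (K ^ survLow c d (k + 1) hi A - 1) ≤ η * (n.choose k : ℝ) := by
  classical
  have hch : (0 : ℝ) < (n.choose k : ℝ) := by exact_mod_cast Nat.choose_pos hkn
  have h1 : ∑ A ∈ Lv n k, (1 / 2 : ℝ) ^ (k + 1 - 1 - A.card) / (n.choose A.card : ℝ) *
      (K ^ survLow c d (k + 1) hi A - 1) ≤ Wlow K c d lo0 (k + 1) hi := by
    rw [Wlow]
    refine Finset.sum_le_sum_of_subset_of_nonneg ?_ ?_
    · intro A hA
      have hAc : A.card = k := by simpa [Lv] using hA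
      rw [Finset.mem_filter]
      exact ⟨Finset.mem_univ _, by omega, by omega⟩
    · intro U _ _
      refine mul_nonneg (by positivity) ?_
      have : (1 : ℝ) ≤ K ^ survLow c d (k + 1) hi U := one_le_pow₀ hK
      linarith
  have h2 : ∑ A ∈ Lv n k, (1 / 2 : ℝ) ^ (k + 1 - 1 - A.card) / (n.choose A.card : ℝ) *
      (K ^ survLow c d (k + 1) hi A - 1) =
      (∑ A ∈ Lv n k, (K ^ survLow c d (k + 1) hi A - 1)) / (n.choose k : ℝ) := by
    rw [Finset.sum_div]
    refine Finset.sum_congr rfl ?_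
    intro A hA
    have hAc : A.card = k := by simpa [Lv] using hA
    rw [hAc]
    have : k + 1 - 1 - k = 0 := by omega
    rw [this]
    ring
  rw [h2] at h1
  have h3 := h1.trans hW
  rwa [div_le_iff₀ hch] at h3

/-- From the numerical hypotheses: the capacity-Hall condition holds at the step. -/
theorem step_hall {lo0 k hi φ : ℕ} (hk2 : 2 * k < n) (hlo0 : lo0 ≤ k)
    (hkhi : k + 1 ≤ hi) (hhi : hi ≤ n - lo0)
    (hk400 : 400 ≤ k) (hdens : 9 * n ≤ 20 * k) (hm : m * 2 ^ (5 * m + 10) ≤ k + 1)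
    (hc : ∀ i, Win R lo0 (n - lo0) (c i))
    (hcc : ∀ i j, i ≠ j → Orth lo0 (n - lo0) (c i) (c j))
    (hd : Win R (k + 1) hi d)
    (hRφ : ∀ A ∈ Lv n k, ∀ T : Finset (Finset (Fin n)),
      (∀ B ∈ T, B.card = k + 1 ∧ A ⊆ B ∧ R B) → T.card ≤ φ)
    (hW : Wlow ((2 : ℝ) ^ 128) c d lo0 (k + 1) hi ≤ 1 / 2 ^ (5 * m + 10))
    (hcase : (2 * k + 2 ≤ n ∧ 8 * φ ≤ n - 2 * k - 1) ∨ (n = 2 * k + 1 ∧ φ = 0 ∧ hi = k + 1))
    (X Y : Finset (Finset (Fin n))) (hX : X ⊆ Lv n k) (hY : Y ⊆ Lv n (k + 1))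
    [DecidableRel (Forb R c d k hi)] :
    (n - k) * X.card ≤ (n - k) * Y.card +
      2 * ((X ×ˢ (Lv n (k + 1) \ Y)).filter
        (fun p => p.1 ⊆ p.2 ∧ ¬ Forb R c d k hi p.1 p.2)).card := by
  classical
  have hup : ∀ i : Fin m, ∀ A : Finset (Fin n), A ∈ Lv n k →
      ∃ B : Finset (Fin n), A ⊆ B ∧ B.card = k + 1 ∧ c i B = c i A := by
    intro i A hA
    have hAc : A.card = k := by simpa [Lv] using hA
    obtain ⟨B, h1, h2, h3⟩ := (hc i).up A (by omega) (by omega) (by omega)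
    exact ⟨B, h1, by omega, h3⟩
  choose! succ hs1 hs2 hs3 using hup
  have hLv : ∀ {j : ℕ} {A : Finset (Fin n)}, A ∈ Lv n j ↔ A.card = j := by
    intro j A; simp [Lv]
  refine cap_hall (φ := φ) succ (Forb R c d k hi) (survLow c d (k + 1) hi) hk2 hk400 hdens hm
    ?_ ?_ ?_ ?_ ?_ ?_ X Y hX hY
  · intro i A hA
    exact ⟨hs1 i A hA, hLv.2 (hs2 i A hA)⟩
  · intro i A hA A' hA' h
    have e1 := hs3 i A hA
    have e2 := hs3 i A' hA'
    have hc1 := hLv.1 hA
    have hc2 := hLv.1 hA'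
    refine (hc i).inj A A' (by omega) (by omega) (by omega) ?_
    rw [← e1, ← e2, h]
  · intro i j hij A hA h
    have e1 := hs3 i A hA
    have e2 := hs3 j A hA
    have hc1 := hLv.1 hA
    have hc2 := hs2 i A hA
    have := hcc i j hij (succ i A) A (by omega) (by omega) (by omega) (by omega) e1
      (by rw [h]; exact e2)
    rw [this] at hc2
    omega
  · intro A hA
    refine step_hall_forb R c d hkhi hd hRφ succ ?_ A hA
    intro i A' hA' B hB hcB
    have e1 := hs3 i A' hA'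
    have hc1 := hs2 i A' hA'
    have hc2 := hLv.1 hB
    refine (hc i).inj B (succ i A') (by omega) (by omega) (by omega) ?_
    rw [hcB, e1]
  · exact step_hall_sv c d hlo0 (by omega) _ _ (one_le_pow₀ (by norm_num)) hW
  · rcases hcase with h | ⟨h1, h2, h3⟩
    · exact Or.inl h
    · refine Or.inr ⟨h1, h2, ?_⟩
      intro A hA
      rw [survLow, Finset.card_eq_zero, Finset.filter_eq_empty_iff]
      intro p hp
      rw [aliveLow, Finset.mem_filter] at hp
      obtain ⟨-, h4, h5, -⟩ := hp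
      push Not
      omega

end Step

end Pool.Agent.OrthoChains
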