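import Pool.Agent.OrthoChains.Defs

/-!
# The upper potential after one step (OC14)
-/

set_option autoImplicit false
set_option linter.unusedVariables false

open Finset

namespace Pool.Agent.OrthoChains

section StepHigh

variable {n m : ℕ} (R : Finset (Fin n) → Prop) (K : ℝ)
  (c : Fin m → Finset (Fin n) → Finset (Fin n)) (d : Finset (Fin n) → Finset (Fin n))

theorem costHigh_nonneg {lo0 k hi : ℕ} (hK : 2 ≤ K) (A B : Finset (Fin n)) :
    0 ≤ costHigh K c d lo0 k hi A B := by
  have hK0 : (0 : ℝ) ≤ K := by linarith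
  unfold costHigh
  refine Finset.sum_nonneg fun U _ => ?_
  positivity

/-- The pairs on the level `k` which become alive. -/
noncomputable def newHigh (M : Finset (Fin n) → Finset (Fin n)) (k hi : ℕ)
    (U : Finset (Fin n)) : Finset (Fin m × Finset (Fin n)) :=
  Finset.univ.filter (fun p => p.2.card = k ∧ c p.1 p.2 = c p.1 U ∧
    ∃ B : Finset (Fin n), B.card = hi ∧ d B = d (M p.2) ∧ B ⊆ U)

theorem survHigh_ext {k hi : ℕ} (hkhi : k + 1 ≤ hi) (M : Finset (Fin n) → Finset (Fin n))
    (U : Finset (Fin n)) :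
    survHigh c (ext d M k) k hi U ≤ survHigh c d (k + 1) hi U + (newHigh c d M k hi U).card := by
  classical
  unfold survHigh
  refine (Finset.card_le_card ?_).trans (Finset.card_union_le _ _)
  intro p hp
  rw [mem_filter] at hp
  obtain ⟨hp, hne⟩ := hp
  unfold aliveHigh at hp
  rw [mem_filter] at hp
  obtain ⟨_, h1, h2, h3, B, hB, hBd, hBU⟩ := hp
  have hBk : B.card ≠ k := by omega
  unfold ext at hBd
  rw [if_neg hBk] at hBd
  rw [mem_union]
  by_cases hk : p.2.card = k
  · right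
    rw [if_pos hk] at hBd
    unfold newHigh
    rw [mem_filter]
    exact ⟨mem_univ _, hk, h3, B, hB, hBd, hBU⟩
  · left
    rw [if_neg hk] at hBd
    rw [mem_filter]
    refine ⟨?_, hne⟩
    unfold aliveHigh
    rw [mem_filter]
    exact ⟨mem_univ _, by omega, h2, h3, B, hB, hBd, hBU⟩

theorem card_newHigh_le {R : Finset (Fin n) → Prop} {lo0 k hi : ℕ} (hlo0 : lo0 ≤ k)
    (hkhi : k + 1 ≤ hi) (hhi : hi ≤ n - lo0) (hc : ∀ i, Win R lo0 (n - lo0) (c i))
    (M : Finset (Fin n) → Finset (Fin n)) (U : Finset (Fin n)) :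
    (newHigh c d M k hi U).card ≤ m := by
  classical
  have h : (newHigh c d M k hi U).card ≤ (Finset.univ : Finset (Fin m)).card := by
    refine Finset.card_le_card_of_injOn (fun p => p.1) (fun _ _ => mem_univ _) ?_
    intro p hp q hq hpq
    simp only at hpq
    unfold newHigh at hp hq
    rw [mem_coe, mem_filter] at hp hq
    obtain ⟨_, h1, h2, _⟩ := hp
    obtain ⟨_, h1', h2', _⟩ := hq
    refine Prod.ext hpq ?_
    refine (hc p.1).inj p.2 q.2 (by omega) (by omega) (by omega) ?_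
    rw [h2]
    rw [← hpq] at h2'
    rw [h2']
  simpa using h

open scoped Classical in
theorem card_newHigh_eq {k hi : ℕ} (M : Finset (Fin n) → Finset (Fin n)) (U : Finset (Fin n)) :
    ((newHigh c d M k hi U).card : ℝ) = ∑ A ∈ Lv n k,
      if (∃ B' : Finset (Fin n), B'.card = hi ∧ d B' = d (M A) ∧ B' ⊆ U) then
        ((Finset.univ.filter (fun i : Fin m => c i A = c i U)).card : ℝ) else 0 := by
  have h : newHigh c d M k hi U = (Lv n k).biUnion fun A =>
      if (∃ B' : Finset (Fin n), B'.card = hi ∧ d B' = d (M A) ∧ B' ⊆ U) then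
        (Finset.univ.filter (fun i : Fin m => c i A = c i U)).image (fun i => (i, A)) else ∅ := by
    ext p
    unfold newHigh Lv
    rw [mem_filter, mem_biUnion]
    constructor
    · rintro ⟨_, h1, h2, h3⟩
      refine ⟨p.2, mem_filter.2 ⟨mem_univ _, h1⟩, ?_⟩
      rw [if_pos h3]
      exact mem_image.2 ⟨p.1, mem_filter.2 ⟨mem_univ _, h2⟩, rfl⟩
    · rintro ⟨A, hA, h⟩
      by_cases h3 : ∃ B' : Finset (Fin n), B'.card = hi ∧ d B' = d (M A) ∧ B' ⊆ U
      · rw [if_pos h3] at h
        obtain ⟨i, hi', rfl⟩ := mem_image.1 h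
        exact ⟨mem_univ _, (mem_filter.1 hA).2, (mem_filter.1 hi').2, h3⟩
      · rw [if_neg h3] at h
        exact absurd h (notMem_empty _)
  rw [h, Finset.card_biUnion]
  · push_cast
    refine Finset.sum_congr rfl fun A _ => ?_
    split_ifs with h3
    · rw [Finset.card_image_of_injective]
      intro i j hij
      exact (Prod.ext_iff.1 hij).1
    · simp
  · intro A _ A' _ hAA'
    rw [Function.onFun, Finset.disjoint_left]
    intro p hp hp'
    have e1 : p.2 = A := by
      split_ifs at hp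
      · obtain ⟨i, _, rfl⟩ := mem_image.1 hp
        rfl
      · exact absurd hp (notMem_empty _)
    have e2 : p.2 = A' := by
      split_ifs at hp'
      · obtain ⟨i, _, rfl⟩ := mem_image.1 hp'
        rfl
      · exact absurd hp' (notMem_empty _)
    exact hAA' (e1.symm.trans e2)

theorem pow_step {K : ℝ} (hK : 2 ≤ K) {s s' q m : ℕ} (h : s' ≤ s + q) (hq : q ≤ m) :
    K ^ s' - 1 ≤ (K ^ s - 1) + K ^ s * K ^ m * q := by
  have hK1 : (1 : ℝ) ≤ K := by linarith
  have h1 : K ^ s' ≤ K ^ (s + q) := pow_le_pow_right₀ hK1 h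
  have h2 : K ^ q ≤ K ^ m := pow_le_pow_right₀ hK1 hq
  have h3 : (0 : ℝ) ≤ K ^ s := by positivity
  have h4 : K ^ q - 1 ≤ K ^ m * q := by
    rcases Nat.eq_zero_or_pos q with h0 | h0
    · subst h0
      simp
    · have : (1 : ℝ) ≤ q := by exact_mod_cast h0
      nlinarith [show (0 : ℝ) ≤ K ^ m by positivity]
  rw [pow_add] at h1
  nlinarith

theorem Whigh_step {lo0 k hi : ℕ} (hK : 2 ≤ K) (hlo0 : lo0 ≤ k) (hkhi : k + 1 ≤ hi)
    (hhi : hi ≤ n - lo0) (hc : ∀ i, Win R lo0 (n - lo0) (c i))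
    (M : Finset (Fin n) → Finset (Fin n))
    (hM : ∀ A ∈ Lv n k, M A ∈ Lv n (k + 1) ∧ A ⊆ M A) :
    Whigh K c (ext d M k) lo0 k hi ≤
      Whigh K c d lo0 (k + 1) hi + ∑ A ∈ Lv n k, costHigh K c d lo0 k hi A (M A) := by
  classical
  have hK0 : (0 : ℝ) ≤ K := by linarith
  have key : ∑ A ∈ Lv n k, costHigh K c d lo0 k hi A (M A) =
      ∑ U ∈ Finset.univ.filter (fun U : Finset (Fin n) => hi < U.card ∧ U.card ≤ n - lo0),
        (1 / 2 : ℝ) ^ (U.card - hi - 1) / (n.choose U.card : ℝ) *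
          (K ^ survHigh c d (k + 1) hi U * K ^ m) * ((newHigh c d M k hi U).card : ℝ) := by
    unfold costHigh
    have e1 : ∀ A, (Finset.univ.filter (fun U : Finset (Fin n) => hi < U.card ∧
        U.card ≤ n - lo0 ∧ ∃ B' : Finset (Fin n), B'.card = hi ∧ d B' = d (M A) ∧ B' ⊆ U)) =
        (Finset.univ.filter (fun U : Finset (Fin n) => hi < U.card ∧ U.card ≤ n - lo0)).filter
          (fun U => ∃ B' : Finset (Fin n), B'.card = hi ∧ d B' = d (M A) ∧ B' ⊆ U) := by
      intro A
      ext U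
      simp only [mem_filter, mem_univ, true_and, and_assoc]
    simp_rw [e1, Finset.sum_filter (p := fun U : Finset (Fin n) => ∃ B' : Finset (Fin n), _)]
    rw [Finset.sum_comm]
    refine Finset.sum_congr rfl fun U _ => ?_
    rw [card_newHigh_eq, Finset.mul_sum]
    refine Finset.sum_congr rfl fun A _ => ?_
    split_ifs <;> simp
  rw [key]
  unfold Whigh
  rw [← Finset.sum_add_distrib]
  refine Finset.sum_le_sum fun U _ => ?_
  have hw : (0 : ℝ) ≤ (1 / 2 : ℝ) ^ (U.card - hi - 1) / (n.choose U.card : ℝ) := by positivity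
  have h := pow_step hK (survHigh_ext c d hkhi M U)
    (card_newHigh_le (R := R) c d hlo0 hkhi hhi hc M U)
  calc _ ≤ (1 / 2 : ℝ) ^ (U.card - hi - 1) / (n.choose U.card : ℝ) *
      ((K ^ survHigh c d (k + 1) hi U - 1) +
        K ^ survHigh c d (k + 1) hi U * K ^ m * ((newHigh c d M k hi U).card : ℝ)) :=
        mul_le_mul_of_nonneg_left h hw
    _ = _ := by ring

end StepHigh

end Pool.Agent.OrthoChains
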