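import Pool.Agent.OrthoChains.Defs

set_option autoImplicit false

open Finset

namespace Pool.Agent.OrthoChains

namespace StepHighSum

theorem win_mono {n : ℕ} {R : Finset (Fin n) → Prop} {lo hi : ℕ}
    {d : Finset (Fin n) → Finset (Fin n)} (hd : Win R lo hi d) :
    ∀ (t : ℕ) (A B : Finset (Fin n)), B.card = A.card + t → lo ≤ A.card → B.card ≤ hi →
      d A = d B → A ⊆ B := by
  intro t
  induction t with
  | zero =>
    intro A B hcard hA hB h
    have := hd.inj A B hA (by omega) (by omega) h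
    rw [this]
  | succ t ih =>
    intro A B hcard hA hB h
    by_cases h2 : 2 * A.card < n
    · obtain ⟨A1, hAA1, hA1c, hA1d⟩ := hd.up A hA (by omega) h2
      exact hAA1.trans (ih A1 B (by omega) (by omega) hB (by rw [hA1d, h]))
    · obtain ⟨B1, hB1B, hB1c, hB1d⟩ := hd.down B (by omega) hB (by omega)
      exact (ih A B1 (by omega) hA (by omega) (by rw [hB1d, h])).trans hB1B

/-- Number of pairs `(A, B)` weighted by the number of `i`. -/
theorem count_le {n m : ℕ} (R : Finset (Fin n) → Prop)
    (c : Fin m → Finset (Fin n) → Finset (Fin n)) (d : Finset (Fin n) → Finset (Fin n))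
    {lo0 k hi : ℕ} (hk2 : 2 * k < n) (hlo0 : lo0 ≤ k)
    (hkhi : k + 1 ≤ hi)
    (hc : ∀ i, Win R lo0 (n - lo0) (c i)) (hd : Win R (k + 1) hi d)
    (U : Finset (Fin n)) (hU2 : U.card ≤ n - lo0) :
    ∑ p ∈ ((Lv n k ×ˢ Lv n (k + 1)).filter (fun p => p.1 ⊆ p.2)).filter
        (fun p => ∃ B' : Finset (Fin n), B'.card = hi ∧ d B' = d p.2 ∧ B' ⊆ U),
      ((Finset.univ.filter (fun i : Fin m => c i p.1 = c i U)).card : ℝ) ≤
      m * ((n : ℝ) + 2 - 2 * lo0) := by
  classical
  set P := ((Lv n k ×ˢ Lv n (k + 1)).filter (fun p => p.1 ⊆ p.2)).filter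
        (fun p => ∃ B' : Finset (Fin n), B'.card = hi ∧ d B' = d p.2 ∧ B' ⊆ U) with hP
  have h1 : ∑ p ∈ P, ((Finset.univ.filter (fun i : Fin m => c i p.1 = c i U)).card : ℝ) =
      ∑ i : Fin m, ((P.filter (fun p => c i p.1 = c i U)).card : ℝ) := by
    simp only [Finset.card_filter, Nat.cast_sum]
    rw [Finset.sum_comm]
  rw [h1]
  have h2 : ∀ i : Fin m, ((P.filter (fun p => c i p.1 = c i U)).card : ℝ) ≤
      (n : ℝ) + 2 - 2 * lo0 := by
    intro i
    have hinj : (P.filter (fun p => c i p.1 = c i U)).card ≤ n - 2 * lo0 := by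
      rcases (P.filter (fun p => c i p.1 = c i U)).eq_empty_or_nonempty with he | ⟨p0, hp0⟩
      · rw [he]; simp
      · -- all pairs have the same first component A, and B = insert x A with x in U \ A
        have hp0' := hp0
        simp only [hP, Lv, Finset.mem_filter, Finset.mem_product, Finset.mem_univ, true_and]
          at hp0'
        obtain ⟨⟨⟨⟨hA0, hB0⟩, hAB0⟩, B0', hB0'c, hB0'd, hB0'U⟩, hc0⟩ := hp0'
        have hBB0 : p0.2 ⊆ B0' := win_mono hd (hi - (k + 1)) p0.2 B0' (by omega) (by omega)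
          (by omega) hB0'd.symm
        have hA0U : p0.1 ⊆ U := hAB0.trans (hBB0.trans hB0'U)
        have hle : (P.filter (fun p => c i p.1 = c i U)).card ≤ (U \ p0.1).card := by
          have hsub : P.filter (fun p => c i p.1 = c i U) ⊆
              (U \ p0.1).image (fun x => (p0.1, insert x p0.1)) := by
            intro p hp
            simp only [hP, Lv, Finset.mem_filter, Finset.mem_product, Finset.mem_univ, true_and]
              at hp
            obtain ⟨⟨⟨⟨hA, hB⟩, hAB⟩, B', hB'c, hB'd, hB'U⟩, hci⟩ := hp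
            have hA' : p.1 = p0.1 := (hc i).inj p.1 p0.1 (by omega) (by omega) (by omega)
              (by rw [hci, hc0])
            have hBB : p.2 ⊆ B' := win_mono hd (hi - (k + 1)) p.2 B' (by omega) (by omega)
              (by omega) hB'd.symm
            have hd1 : (p.2 \ p.1).card = 1 := by
              rw [Finset.card_sdiff_of_subset hAB]; omega
            obtain ⟨x, hx⟩ := Finset.card_eq_one.mp hd1
            have hxm : x ∈ p.2 \ p.1 := by rw [hx]; simp
            rw [Finset.mem_sdiff] at hxm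
            simp only [Finset.mem_image, Finset.mem_sdiff]
            refine ⟨x, ⟨hB'U (hBB hxm.1), by rw [← hA']; exact hxm.2⟩, ?_⟩
            apply Prod.ext
            · exact hA'.symm
            · simp only
              rw [← hA']
              rw [Finset.insert_eq, ← hx]
              exact Finset.sdiff_union_of_subset hAB
          exact (Finset.card_le_card hsub).trans Finset.card_image_le
        rw [Finset.card_sdiff_of_subset hA0U] at hle
        omega
    have hn : 2 * lo0 ≤ n := by omega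
    have : ((P.filter (fun p => c i p.1 = c i U)).card : ℝ) ≤ ((n - 2 * lo0 : ℕ) : ℝ) := by
      exact_mod_cast hinj
    rw [Nat.cast_sub hn] at this
    push_cast at this
    linarith
  calc ∑ i : Fin m, ((P.filter (fun p => c i p.1 = c i U)).card : ℝ)
      ≤ ∑ _i : Fin m, ((n : ℝ) + 2 - 2 * lo0) := Finset.sum_le_sum (fun i _ => h2 i)
    _ = m * ((n : ℝ) + 2 - 2 * lo0) := by
        rw [Finset.sum_const, Finset.card_univ, Fintype.card_fin, nsmul_eq_mul]

theorem geom_le (N : ℕ) : ∑ j ∈ Finset.range N, (1 / 2 : ℝ) ^ j ≤ 2 := by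
  have h := geom_sum_eq (show (1 / 2 : ℝ) ≠ 1 by norm_num) N
  rw [h]
  have : (0 : ℝ) < (1 / 2 : ℝ) ^ N := by positivity
  rw [div_le_iff_of_neg (by norm_num)]
  linarith

theorem base_sum_le (n lo0 hi : ℕ) :
    ∑ U ∈ Finset.univ.filter (fun U : Finset (Fin n) => hi < U.card ∧ U.card ≤ n - lo0),
      (1 / 2 : ℝ) ^ (U.card - hi - 1) / (n.choose U.card : ℝ) ≤ 2 := by
  classical
  have hmaps : ∀ U ∈ Finset.univ.filter
      (fun U : Finset (Fin n) => hi < U.card ∧ U.card ≤ n - lo0),
      U.card ∈ (Finset.range (n + 1)).filter (fun u => hi < u) := by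
    intro U hU
    simp only [Finset.mem_filter, Finset.mem_univ, true_and, Finset.mem_range] at hU ⊢
    omega
  rw [← Finset.sum_fiberwise_of_maps_to hmaps]
  have h1 : ∀ u ∈ (Finset.range (n + 1)).filter (fun u => hi < u),
      ∑ U ∈ (Finset.univ.filter
        (fun U : Finset (Fin n) => hi < U.card ∧ U.card ≤ n - lo0)).filter (fun U => U.card = u),
        (1 / 2 : ℝ) ^ (U.card - hi - 1) / (n.choose U.card : ℝ) ≤ (1 / 2 : ℝ) ^ (u - hi - 1) := by
    intro u hu
    simp only [Finset.mem_filter, Finset.mem_range] at hu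
    have hle : ((Finset.univ.filter
        (fun U : Finset (Fin n) => hi < U.card ∧ U.card ≤ n - lo0)).filter
          (fun U => U.card = u)).card ≤ n.choose u := by
      have hs : (Finset.univ.filter
        (fun U : Finset (Fin n) => hi < U.card ∧ U.card ≤ n - lo0)).filter
          (fun U => U.card = u) ⊆ Finset.powersetCard u Finset.univ := by
        intro U hU
        simp only [Finset.mem_filter, Finset.mem_univ, true_and] at hU
        rw [Finset.mem_powersetCard]
        exact ⟨Finset.subset_univ _, hU.2⟩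
      have := Finset.card_le_card hs
      rwa [Finset.card_powersetCard, Finset.card_univ, Fintype.card_fin] at this
    have hpos : (0 : ℝ) < n.choose u := by
      exact_mod_cast Nat.choose_pos (by omega)
    calc ∑ U ∈ (Finset.univ.filter
        (fun U : Finset (Fin n) => hi < U.card ∧ U.card ≤ n - lo0)).filter (fun U => U.card = u),
        (1 / 2 : ℝ) ^ (U.card - hi - 1) / (n.choose U.card : ℝ)
        = ∑ U ∈ (Finset.univ.filter
        (fun U : Finset (Fin n) => hi < U.card ∧ U.card ≤ n - lo0)).filter (fun U => U.card = u),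
        (1 / 2 : ℝ) ^ (u - hi - 1) / (n.choose u : ℝ) := by
          apply Finset.sum_congr rfl
          intro U hU
          rw [(Finset.mem_filter.mp hU).2]
      _ = (((Finset.univ.filter
        (fun U : Finset (Fin n) => hi < U.card ∧ U.card ≤ n - lo0)).filter
          (fun U => U.card = u)).card : ℝ) * ((1 / 2 : ℝ) ^ (u - hi - 1) / (n.choose u : ℝ)) := by
          rw [Finset.sum_const, nsmul_eq_mul]
      _ ≤ (n.choose u : ℝ) * ((1 / 2 : ℝ) ^ (u - hi - 1) / (n.choose u : ℝ)) := by
          apply mul_le_mul_of_nonneg_right _ (by positivity)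
          exact_mod_cast hle
      _ = (1 / 2 : ℝ) ^ (u - hi - 1) := by field_simp
  refine (Finset.sum_le_sum h1).trans ?_
  have h2 : ∑ u ∈ (Finset.range (n + 1)).filter (fun u => hi < u), (1 / 2 : ℝ) ^ (u - hi - 1) =
      ∑ j ∈ ((Finset.range (n + 1)).filter (fun u => hi < u)).image (fun u => u - hi - 1),
        (1 / 2 : ℝ) ^ j := by
    rw [Finset.sum_image]
    intro a ha b hb hab
    simp only [Finset.coe_filter, Finset.mem_range, Set.mem_ofPred_eq] at ha hb
    simp only at hab
    omega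
  rw [h2]
  refine le_trans (Finset.sum_le_sum_of_subset_of_nonneg (t := Finset.range (n + 1)) ?_ ?_)
    (geom_le (n + 1))
  · intro j hj
    simp only [Finset.mem_image, Finset.mem_filter, Finset.mem_range] at hj ⊢
    obtain ⟨u, ⟨hu1, hu2⟩, rfl⟩ := hj
    omega
  · intro i _ _
    positivity

end StepHighSum

section Step

variable {n m : ℕ} (R : Finset (Fin n) → Prop) (K : ℝ)
  (c : Fin m → Finset (Fin n) → Finset (Fin n)) (d : Finset (Fin n) → Finset (Fin n))

theorem costHigh_sum {lo0 k hi : ℕ} (hK : 2 ≤ K) (hk2 : 2 * k < n) (hlo0 : lo0 ≤ k)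
    (hkhi : k + 1 ≤ hi) (hhi : hi ≤ n - lo0)
    (hc : ∀ i, Win R lo0 (n - lo0) (c i)) (hd : Win R (k + 1) hi d) :
    ∑ p ∈ (Lv n k ×ˢ Lv n (k + 1)).filter (fun p => p.1 ⊆ p.2),
      costHigh K c d lo0 k hi p.1 p.2 ≤
      m * K ^ m * ((n : ℝ) + 2 - 2 * lo0) * (Whigh K c d lo0 (k + 1) hi + 2) := by
  classical
  have hK0 : 0 < K := by linarith
  set P := (Lv n k ×ˢ Lv n (k + 1)).filter (fun p => p.1 ⊆ p.2) with hP
  set UU := Finset.univ.filter (fun U : Finset (Fin n) => hi < U.card ∧ U.card ≤ n - lo0)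
    with hUU
  -- rewrite the cost as a sum over UU with an indicator
  have h1 : ∀ p ∈ P, costHigh K c d lo0 k hi p.1 p.2 =
      ∑ U ∈ UU, (if (∃ B' : Finset (Fin n), B'.card = hi ∧ d B' = d p.2 ∧ B' ⊆ U) then
        (1 / 2 : ℝ) ^ (U.card - hi - 1) / (n.choose U.card : ℝ) *
          (K ^ survHigh c d (k + 1) hi U * K ^ m) *
          ((Finset.univ.filter (fun i : Fin m => c i p.1 = c i U)).card : ℝ) else 0) := by
    intro p _
    rw [costHigh, ← Finset.sum_filter]
    apply Finset.sum_congr _ (fun _ _ => rfl)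
    ext U
    simp only [hUU, Finset.mem_filter, Finset.mem_univ, true_and, and_assoc]
  rw [Finset.sum_congr rfl h1, Finset.sum_comm]
  have h2 : ∀ U ∈ UU, ∑ p ∈ P,
      (if (∃ B' : Finset (Fin n), B'.card = hi ∧ d B' = d p.2 ∧ B' ⊆ U) then
        (1 / 2 : ℝ) ^ (U.card - hi - 1) / (n.choose U.card : ℝ) *
          (K ^ survHigh c d (k + 1) hi U * K ^ m) *
          ((Finset.univ.filter (fun i : Fin m => c i p.1 = c i U)).card : ℝ) else 0) ≤
      (1 / 2 : ℝ) ^ (U.card - hi - 1) / (n.choose U.card : ℝ) *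
          (K ^ survHigh c d (k + 1) hi U * K ^ m) * (m * ((n : ℝ) + 2 - 2 * lo0)) := by
    intro U hU
    simp only [hUU, Finset.mem_filter, Finset.mem_univ, true_and] at hU
    rw [← Finset.sum_filter, ← Finset.mul_sum]
    apply mul_le_mul_of_nonneg_left _ (by positivity)
    exact StepHighSum.count_le R c d hk2 hlo0 hkhi hc hd U hU.2
  refine (Finset.sum_le_sum h2).trans ?_
  have h3 : ∑ U ∈ UU, (1 / 2 : ℝ) ^ (U.card - hi - 1) / (n.choose U.card : ℝ) *
          (K ^ survHigh c d (k + 1) hi U * K ^ m) * (m * ((n : ℝ) + 2 - 2 * lo0)) =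
      m * K ^ m * ((n : ℝ) + 2 - 2 * lo0) *
        (Whigh K c d lo0 (k + 1) hi +
          ∑ U ∈ UU, (1 / 2 : ℝ) ^ (U.card - hi - 1) / (n.choose U.card : ℝ)) := by
    rw [Whigh, ← Finset.sum_add_distrib, Finset.mul_sum]
    apply Finset.sum_congr rfl
    intro U _
    ring
  rw [h3]
  have hpos : (0 : ℝ) ≤ (n : ℝ) + 2 - 2 * lo0 := by
    have : 2 * lo0 ≤ n := by omega
    have h' : (2 : ℝ) * lo0 ≤ n := by exact_mod_cast this
    linarith
  apply mul_le_mul_of_nonneg_left _ (by positivity)
  have := StepHighSum.base_sum_le n lo0 hi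
  linarith

end Step

end Pool.Agent.OrthoChains
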