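import Mathlib
import Pool.Agent.OrthoChains.Defs

/-!
# The lower potential in one step
-/

set_option autoImplicit false

open Finset

namespace Pool.Agent.OrthoChains

theorem stepLow_pow {K : ℝ} (hK : 1 ≤ K) (s : ℕ) : K ^ s - 1 ≤ s * (K ^ s * (K - 1)) := by
  induction s with
  | zero => simp
  | succ s ih =>
    have h1 : (0 : ℝ) ≤ K ^ s := by positivity
    have h2 : K ^ s ≤ K ^ (s + 1) := pow_le_pow_right₀ hK (Nat.le_succ s)
    have h3 : K ^ (s + 1) - 1 = (K ^ s - 1) + K ^ s * (K - 1) := by rw [pow_succ]; ring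
    have h4 : K ^ s * (K - 1) ≤ K ^ (s + 1) * (K - 1) :=
      mul_le_mul_of_nonneg_right h2 (by linarith)
    have h5 : (s : ℝ) * (K ^ s * (K - 1)) ≤ s * (K ^ (s + 1) * (K - 1)) :=
      mul_le_mul_of_nonneg_left h4 (by positivity)
    push_cast
    rw [h3]
    linarith

theorem stepLow_convex {K : ℝ} (hK : 1 ≤ K) {s p : ℕ} (hsp : s ≤ p) :
    (p : ℝ) * (K ^ s - 1) ≤ s * (K ^ p - 1) := by
  induction p, hsp using Nat.le_induction with
  | base => exact le_rfl
  | succ p hsp ih =>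
    have h1 := stepLow_pow hK s
    have h2 : K ^ s ≤ K ^ p := pow_le_pow_right₀ hK hsp
    have h3 : (s : ℝ) * (K ^ s * (K - 1)) ≤ s * (K ^ p * (K - 1)) :=
      mul_le_mul_of_nonneg_left (mul_le_mul_of_nonneg_right h2 (by linarith)) (by positivity)
    have h4 : (s : ℝ) * (K ^ (p + 1) - 1) = s * (K ^ p - 1) + s * (K ^ p * (K - 1)) := by
      rw [pow_succ]; ring
    push_cast
    rw [h4]
    linarith

section

variable {n m : ℕ} (R : Finset (Fin n) → Prop) (K : ℝ)
  (c : Fin m → Finset (Fin n) → Finset (Fin n)) (d : Finset (Fin n) → Finset (Fin n))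

theorem costLow_nonneg {lo0 k hi : ℕ} (hK : 2 ≤ K) (A B : Finset (Fin n)) :
    0 ≤ costLow K c d lo0 k hi A B := by
  unfold costLow
  refine Finset.sum_nonneg fun U _ => ?_
  have h1 : (1 : ℝ) ≤ K ^ (aliveLow c d (k + 1) hi U).card := one_le_pow₀ (by linarith)
  have h2 : (0 : ℝ) ≤ K ^ (aliveLow c d (k + 1) hi U).card - 1 := by linarith
  positivity

theorem stepLow_surv {k hi : ℕ} (M : Finset (Fin n) → Finset (Fin n))
    (hM : ∀ A ∈ Lv n k, M A ∈ Lv n (k + 1) ∧ A ⊆ M A) (U : Finset (Fin n)) :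
    ((aliveLow c (ext d M k) k hi U).filter (fun p => p.2.card ≠ k)) ⊆
      ((Lv n k).filter (fun A => U ⊆ A)).biUnion
        (fun A => (aliveLow c d (k + 1) hi U).filter (fun p => d p.2 = d (M A))) := by
  intro p hp
  rw [Finset.mem_filter] at hp
  obtain ⟨hp, hpk⟩ := hp
  unfold aliveLow at hp
  rw [Finset.mem_filter] at hp
  obtain ⟨_, h1, h2, h3, B, hB1, hB2, hB3⟩ := hp
  have hd : ext d M k p.2 = d p.2 := if_neg hpk
  have hdB : ext d M k B = d (M B) := if_pos hB1
  rw [hd, hdB] at hB2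
  have hB : B ∈ Lv n k := Finset.mem_filter.2 ⟨Finset.mem_univ _, hB1⟩
  have hMB := hM B hB
  rw [Finset.mem_biUnion]
  refine ⟨B, Finset.mem_filter.2 ⟨hB, hB3⟩, Finset.mem_filter.2 ⟨?_, hB2.symm⟩⟩
  unfold aliveLow
  rw [Finset.mem_filter]
  refine ⟨Finset.mem_univ _, by omega, h2, h3, M B, ?_, hB2, hB3.trans hMB.2⟩
  exact (Finset.mem_filter.1 hMB.1).2

theorem Wlow_step {lo0 k hi : ℕ} (hK : 2 ≤ K) (hlo0 : lo0 ≤ k) (hkhi : k + 1 ≤ hi)
    (hhi : hi ≤ n - lo0) (hd : Win R (k + 1) hi d)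
    (M : Finset (Fin n) → Finset (Fin n))
    (hM : ∀ A ∈ Lv n k, M A ∈ Lv n (k + 1) ∧ A ⊆ M A)
    (hMinj : Set.InjOn M (Lv n k)) :
    Wlow K c (ext d M k) lo0 k hi ≤ ∑ A ∈ Lv n k, costLow K c d lo0 k hi A (M A) := by
  have hK1 : (1 : ℝ) ≤ K := by linarith
  -- termwise bound
  have hterm : ∀ U : Finset (Fin n),
      (1 / 2 : ℝ) ^ (k - 1 - U.card) / (n.choose U.card : ℝ) *
        (K ^ survLow c (ext d M k) k hi U - 1) ≤
      ∑ A ∈ (Lv n k).filter (fun A => U ⊆ A),
        (1 / 2 : ℝ) ^ (k - 1 - U.card) / (n.choose U.card : ℝ) *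
        ((K ^ (aliveLow c d (k + 1) hi U).card - 1) / ((aliveLow c d (k + 1) hi U).card : ℝ)) *
        (((aliveLow c d (k + 1) hi U).filter (fun p => d p.2 = d (M A))).card : ℝ) := by
    intro U
    rw [← Finset.mul_sum, mul_assoc]
    apply mul_le_mul_of_nonneg_left _ (by positivity)
    have hsub := stepLow_surv c d (hi := hi) M hM U
    set s := survLow c (ext d M k) k hi U with hs
    set p := (aliveLow c d (k + 1) hi U).card with hp
    have hs1 : (s : ℝ) ≤ ∑ A ∈ (Lv n k).filter (fun A => U ⊆ A),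
        (((aliveLow c d (k + 1) hi U).filter (fun p => d p.2 = d (M A))).card : ℝ) := by
      have h1 := (Finset.card_le_card hsub).trans Finset.card_biUnion_le
      exact_mod_cast h1
    have hsp : s ≤ p := by
      refine Finset.card_le_card (hsub.trans ?_)
      intro q hq
      rw [Finset.mem_biUnion] at hq
      obtain ⟨A, _, hA⟩ := hq
      exact (Finset.mem_filter.1 hA).1
    have h1 : (0 : ℝ) ≤ K ^ p - 1 := by
      have : (1 : ℝ) ≤ K ^ p := one_le_pow₀ hK1
      linarith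
    refine le_trans ?_ (mul_le_mul_of_nonneg_left hs1 (by positivity))
    rcases Nat.eq_zero_or_pos p with h0 | h0
    · have : s = 0 := by omega
      rw [this]
      simp
    · have h2 : (0 : ℝ) < p := by exact_mod_cast h0
      rw [div_mul_eq_mul_div, le_div_iff₀ h2]
      have h3 := stepLow_convex hK1 hsp
      linarith
  unfold Wlow
  refine (Finset.sum_le_sum fun U _ => hterm U).trans (le_of_eq ?_)
  unfold costLow
  apply Finset.sum_comm'
  intro U A
  simp only [Finset.mem_filter, Finset.mem_univ, true_and]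
  tauto

end

end Pool.Agent.OrthoChains
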