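import Pool.Agent.OrthoChains.Defs

/-!
# Orthogonal chain decompositions: the total lower cost of a step
-/

set_option autoImplicit false

open Finset

namespace Pool.Agent.OrthoChains

section StepLowSum

variable {n m : ℕ} (R : Finset (Fin n) → Prop) (K : ℝ)
  (c : Fin m → Finset (Fin n) → Finset (Fin n)) (d : Finset (Fin n) → Finset (Fin n))

/-- the pairs `(A, B)` between `U` and the level `k+1` member of a given chain -/
theorem slPairs_le {k hi : ℕ} (hkhi : k + 1 ≤ hi) (hd : Win R (k + 1) hi d) (U : Finset (Fin n))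
    (C : Finset (Fin n)) :
    (((Lv n k ×ˢ Lv n (k + 1)).filter (fun p => p.1 ⊆ p.2)).filter
      (fun p => U ⊆ p.1 ∧ d C = d p.2)).card ≤ k + 1 - U.card := by
  set S := ((Lv n k ×ˢ Lv n (k + 1)).filter (fun p => p.1 ⊆ p.2)).filter
      (fun p => U ⊆ p.1 ∧ d C = d p.2) with hS
  rcases S.eq_empty_or_nonempty with h | ⟨⟨A0, B0⟩, h0⟩
  · rw [h]
    simp
  · have h1 : A0.card = k ∧ B0.card = k + 1 ∧ A0 ⊆ B0 ∧ U ⊆ A0 ∧ d C = d B0 := by
      simp only [hS, Lv, mem_filter, mem_product, mem_univ, true_and] at h0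
      tauto
    have hsub : S ⊆ (B0 \ U).image (fun x => (B0.erase x, B0)) := by
      rintro ⟨A, B⟩ hAB
      have h2 : A.card = k ∧ B.card = k + 1 ∧ A ⊆ B ∧ U ⊆ A ∧ d C = d B := by
        simp only [hS, Lv, mem_filter, mem_product, mem_univ, true_and] at hAB
        tauto
      obtain ⟨a1, a2, a3, a4, a5⟩ := h2
      obtain ⟨b1, b2, b3, b4, b5⟩ := h1
      have hB : B = B0 := hd.inj B B0 (by omega) (by omega) (by omega) (a5.symm.trans b5)
      subst hB
      have h3 : (B \ A).card = 1 := by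
        rw [card_sdiff_of_subset a3]
        omega
      obtain ⟨x, hx⟩ := card_eq_one.1 h3
      have hx' : x ∈ B ∧ x ∉ A := by
        rw [← mem_sdiff, hx]
        exact mem_singleton_self x
      refine mem_image.2 ⟨x, mem_sdiff.2 ⟨hx'.1, fun h => hx'.2 (a4 h)⟩, ?_⟩
      have : B.erase x = A := by
        rw [erase_eq, ← hx, Finset.sdiff_sdiff_eq_self a3]
      rw [this]
    have h4 : U ⊆ B0 := h1.2.2.2.1.trans h1.2.2.1
    calc S.card ≤ ((B0 \ U).image (fun x => (B0.erase x, B0))).card := card_le_card hsub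
      _ ≤ (B0 \ U).card := card_image_le
      _ = k + 1 - U.card := by rw [card_sdiff_of_subset h4, h1.2.1]

/-- alive pairs and surviving pairs -/
theorem alive_le {lo0 k hi : ℕ} (hlo0 : lo0 ≤ k) (hkhi : k + 1 ≤ hi) (hhi : hi ≤ n - lo0)
    (hc : ∀ i, Win R lo0 (n - lo0) (c i)) (U : Finset (Fin n)) :
    (aliveLow c d (k + 1) hi U).card ≤ survLow c d (k + 1) hi U + m := by
  rw [survLow, ← card_filter_add_card_filter_not (s := aliveLow c d (k + 1) hi U)
    (fun p => p.2.card ≠ k + 1)]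
  apply Nat.add_le_add_left
  have h : ((aliveLow c d (k + 1) hi U).filter (fun p => ¬ p.2.card ≠ k + 1)).card ≤
      (univ : Finset (Fin m)).card := by
    apply card_le_card_of_injOn (fun p => p.1) (fun _ _ => mem_univ _)
    rintro ⟨i, C⟩ hp ⟨i', C'⟩ hq (hii : i = i')
    subst hii
    simp only [coe_filter, Set.mem_ofPred_eq, aliveLow, mem_filter, mem_univ, true_and, not_not] at hp hq
    have : C = C' := (hc i).inj C C' (by omega) (by omega) (by omega) (hp.1.2.2.1.trans hq.1.2.2.1.symm)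
    rw [this]
  simpa using h

/-- the number of triples -/
theorem triples_le {k hi : ℕ} (hkhi : k + 1 ≤ hi) (hd : Win R (k + 1) hi d) (U : Finset (Fin n)) :
    ∑ p ∈ ((Lv n k ×ˢ Lv n (k + 1)).filter (fun p => p.1 ⊆ p.2)).filter (fun p => U ⊆ p.1),
      ((aliveLow c d (k + 1) hi U).filter (fun q => d q.2 = d p.2)).card ≤
      (aliveLow c d (k + 1) hi U).card * (k + 1 - U.card) := by
  have h := sum_card_bipartiteAbove_eq_sum_card_bipartiteBelow
    (s := ((Lv n k ×ˢ Lv n (k + 1)).filter (fun p => p.1 ⊆ p.2)).filter (fun p => U ⊆ p.1))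
    (t := aliveLow c d (k + 1) hi U) (fun p q => d q.2 = d p.2)
  unfold bipartiteAbove bipartiteBelow at h
  rw [h]
  have h2 : ∀ q ∈ aliveLow c d (k + 1) hi U,
      ((((Lv n k ×ˢ Lv n (k + 1)).filter (fun p => p.1 ⊆ p.2)).filter (fun p => U ⊆ p.1)).filter
        (fun p => d q.2 = d p.2)).card ≤ k + 1 - U.card := by
    intro q _
    rw [filter_filter]
    exact slPairs_le R d hkhi hd U q.2
  calc _ ≤ ∑ _q ∈ aliveLow c d (k + 1) hi U, (k + 1 - U.card) := sum_le_sum h2
    _ = _ := by rw [sum_const, smul_eq_mul]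

/-- the weights sum up to at most one -/
theorem weights_le (k : ℕ) (hk : k ≤ n) (lo0 : ℕ) :
    ∑ U ∈ univ.filter (fun U : Finset (Fin n) => lo0 ≤ U.card ∧ U.card < k),
      (1 / 2 : ℝ) ^ (k - U.card) / (n.choose U.card : ℝ) ≤ 1 := by
  have h1 : ∑ U ∈ univ.filter (fun U : Finset (Fin n) => lo0 ≤ U.card ∧ U.card < k),
      (1 / 2 : ℝ) ^ (k - U.card) / (n.choose U.card : ℝ) ≤
      ∑ U ∈ univ.filter (fun U : Finset (Fin n) => U.card < k),
        (1 / 2 : ℝ) ^ (k - U.card) / (n.choose U.card : ℝ) := by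
    apply sum_le_sum_of_subset_of_nonneg
    · intro U hU
      simp only [mem_filter, mem_univ, true_and] at hU ⊢
      exact hU.2
    · intros
      positivity
  have h2 : ∑ U ∈ univ.filter (fun U : Finset (Fin n) => U.card < k),
        (1 / 2 : ℝ) ^ (k - U.card) / (n.choose U.card : ℝ) =
      ∑ u ∈ range k, (1 / 2 : ℝ) ^ (k - u) := by
    rw [← sum_fiberwise_of_maps_to (g := fun U : Finset (Fin n) => U.card) (t := range k)
      (fun U hU => by simpa using hU)]
    apply sum_congr rfl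
    intro u hu
    have hu' : u < k := mem_range.1 hu
    have h3 : (univ.filter (fun U : Finset (Fin n) => U.card < k)).filter (fun U => U.card = u) =
        powersetCard u univ := by
      ext U
      simp only [mem_filter, mem_univ, true_and, mem_powersetCard, subset_univ]
      omega
    rw [h3]
    have h4 : ∀ U ∈ powersetCard u (univ : Finset (Fin n)),
        (1 / 2 : ℝ) ^ (k - U.card) / (n.choose U.card : ℝ) = (1 / 2 : ℝ) ^ (k - u) / (n.choose u : ℝ) := by
      intro U hU
      rw [(mem_powersetCard.1 hU).2]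
    rw [sum_congr rfl h4, sum_const, card_powersetCard, card_univ, Fintype.card_fin, nsmul_eq_mul]
    have h5 : (0 : ℝ) < (n.choose u : ℝ) := by
      exact_mod_cast Nat.choose_pos (by omega)
    field_simp
  have h6 : ∀ j : ℕ, ∑ u ∈ range j, (1 / 2 : ℝ) ^ (j - u) = 1 - (1 / 2) ^ j := by
    intro j
    induction j with
    | zero => simp
    | succ j ih =>
      rw [sum_range_succ]
      have h7 : ∑ u ∈ range j, (1 / 2 : ℝ) ^ (j + 1 - u) = 1 / 2 * ∑ u ∈ range j, (1 / 2 : ℝ) ^ (j - u) := by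
        rw [mul_sum]
        apply sum_congr rfl
        intro u hu
        have : j + 1 - u = (j - u) + 1 := by
          have := mem_range.1 hu
          omega
        rw [this, pow_succ]
        ring
      rw [h7, ih]
      have : j + 1 - j = 1 := by omega
      rw [this, pow_succ]
      ring
  rw [h2, h6] at h1
  have : (0 : ℝ) ≤ (1 / 2) ^ k := by positivity
  linarith

theorem costLow_sum {lo0 k hi : ℕ} (hK : 2 ≤ K) (hk2 : 2 * k < n) (hlo0 : lo0 ≤ k)
    (hkhi : k + 1 ≤ hi) (hhi : hi ≤ n - lo0)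
    (hc : ∀ i, Win R lo0 (n - lo0) (c i)) (hd : Win R (k + 1) hi d) :
    ∑ p ∈ (Lv n k ×ˢ Lv n (k + 1)).filter (fun p => p.1 ⊆ p.2),
      costLow K c d lo0 k hi p.1 p.2 ≤
      K ^ m * ((n : ℝ) + 2 - 2 * lo0) * (Wlow K c d lo0 (k + 1) hi + 1) := by
  classical
  set F := (Lv n k ×ˢ Lv n (k + 1)).filter (fun p => p.1 ⊆ p.2) with hF
  set V := univ.filter (fun U : Finset (Fin n) => lo0 ≤ U.card ∧ U.card < k) with hV
  set f : Finset (Fin n) → ℝ := fun U => (1 / 2 : ℝ) ^ (k - 1 - U.card) / (n.choose U.card : ℝ) *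
      ((K ^ (aliveLow c d (k + 1) hi U).card - 1) / ((aliveLow c d (k + 1) hi U).card : ℝ)) with hf
  set g : Finset (Fin n) → Finset (Fin n) → ℝ := fun U B =>
    (((aliveLow c d (k + 1) hi U).filter (fun p => d p.2 = d B)).card : ℝ) with hg
  have hK1 : (1 : ℝ) ≤ K := by linarith
  have e1 : ∀ p ∈ F, costLow K c d lo0 k hi p.1 p.2 = ∑ U ∈ V, if U ⊆ p.1 then f U * g U p.2 else 0 := by
    intro p _
    rw [costLow, ← sum_filter]
    have : V.filter (fun U => U ⊆ p.1) =
        univ.filter (fun U : Finset (Fin n) => lo0 ≤ U.card ∧ U.card < k ∧ U ⊆ p.1) := by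
      rw [hV, filter_filter]
      apply filter_congr
      intro U _
      tauto
    rw [this]
  have hf0 : ∀ U : Finset (Fin n), 0 ≤ (1 / 2 : ℝ) ^ (k - 1 - U.card) / (n.choose U.card : ℝ) := fun U => by positivity
  rw [sum_congr rfl e1, sum_comm]
  -- bound for every `U`
  have e2 : ∀ U ∈ V, ∑ p ∈ F, (if U ⊆ p.1 then f U * g U p.2 else 0) ≤
      K ^ m * ((n : ℝ) + 2 - 2 * lo0) * ((1 / 2 : ℝ) ^ (k - U.card) / (n.choose U.card : ℝ) *
        (K ^ survLow c d (k + 1) hi U - 1) + (1 / 2 : ℝ) ^ (k - U.card) / (n.choose U.card : ℝ)) := by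
    intro U hU
    have hU' : lo0 ≤ U.card ∧ U.card < k := by simpa [hV] using hU
    rw [← sum_filter, ← mul_sum]
    have h1 : ∑ p ∈ F.filter (fun p => U ⊆ p.1), g U p.2 ≤
        ((aliveLow c d (k + 1) hi U).card : ℝ) * ((k : ℝ) + 1 - U.card) := by
      have h := triples_le R c d hkhi hd U
      have h' : ((∑ p ∈ F.filter (fun p => U ⊆ p.1),
          ((aliveLow c d (k + 1) hi U).filter (fun q => d q.2 = d p.2)).card : ℕ) : ℝ) ≤
          (((aliveLow c d (k + 1) hi U).card * (k + 1 - U.card) : ℕ) : ℝ) := by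
        exact_mod_cast h
      rw [Nat.cast_sum, Nat.cast_mul, Nat.cast_sub (by omega)] at h'
      push_cast at h'
      exact h'
    set a := (aliveLow c d (k + 1) hi U).card with ha
    set s := survLow c d (k + 1) hi U with hs
    have has : a ≤ s + m := alive_le R c d hlo0 hkhi hhi hc U
    have hpow : K ^ a ≤ K ^ m * K ^ s := by
      rw [← pow_add, add_comm m s]
      exact pow_le_pow_right₀ hK1 has
    have hfa : 0 ≤ f U := by
      apply mul_nonneg (hf0 U)
      apply div_nonneg _ (Nat.cast_nonneg _)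
      have := one_le_pow₀ hK1 (n := a)
      linarith
    have hkU : (0 : ℝ) ≤ (k : ℝ) + 1 - U.card := by
      have : ((U.card : ℕ) : ℝ) ≤ k := by exact_mod_cast hU'.2.le
      linarith
    have hkU2 : 2 * ((k : ℝ) + 1 - U.card) ≤ (n : ℝ) + 2 - 2 * lo0 := by
      have g1 : ((2 * k : ℕ) : ℝ) ≤ n := by exact_mod_cast hk2.le
      have g2 : ((lo0 : ℕ) : ℝ) ≤ U.card := by exact_mod_cast hU'.1
      push_cast at g1
      linarith
    have h2 : f U * ∑ p ∈ F.filter (fun p => U ⊆ p.1), g U p.2 ≤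
        (1 / 2 : ℝ) ^ (k - 1 - U.card) / (n.choose U.card : ℝ) * ((K ^ a - 1) * ((k : ℝ) + 1 - U.card)) := by
      calc f U * ∑ p ∈ F.filter (fun p => U ⊆ p.1), g U p.2 ≤ f U * (a * ((k : ℝ) + 1 - U.card)) :=
            mul_le_mul_of_nonneg_left h1 hfa
        _ = (1 / 2 : ℝ) ^ (k - 1 - U.card) / (n.choose U.card : ℝ) *
              (((K ^ a - 1) / a * a) * ((k : ℝ) + 1 - U.card)) := by
            rw [hf]
            ring
        _ ≤ _ := by
            apply mul_le_mul_of_nonneg_left _ (hf0 U)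
            apply mul_le_mul_of_nonneg_right _ hkU
            rcases Nat.eq_zero_or_pos a with h0 | h0
            · rw [h0]
              simp
            · have : (a : ℝ) ≠ 0 := by positivity
              rw [div_mul_cancel₀ _ this]
    have h3 : (1 / 2 : ℝ) ^ (k - 1 - U.card) = 2 * (1 / 2 : ℝ) ^ (k - U.card) := by
      have : k - U.card = (k - 1 - U.card) + 1 := by omega
      rw [this, pow_succ]
      ring
    rw [h3] at h2
    refine h2.trans ?_
    have hw : 0 ≤ (1 / 2 : ℝ) ^ (k - U.card) / (n.choose U.card : ℝ) := by positivity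
    calc 2 * (1 / 2 : ℝ) ^ (k - U.card) / (n.choose U.card : ℝ) * ((K ^ a - 1) * ((k : ℝ) + 1 - U.card))
        = (1 / 2 : ℝ) ^ (k - U.card) / (n.choose U.card : ℝ) *
            ((K ^ a - 1) * (2 * ((k : ℝ) + 1 - U.card))) := by ring
      _ ≤ (1 / 2 : ℝ) ^ (k - U.card) / (n.choose U.card : ℝ) *
            ((K ^ m * K ^ s) * ((n : ℝ) + 2 - 2 * lo0)) := by
          apply mul_le_mul_of_nonneg_left _ hw
          apply mul_le_mul _ hkU2 (by linarith) (by positivity)
          linarith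
      _ = _ := by ring
  refine (sum_le_sum e2).trans ?_
  rw [← mul_sum, sum_add_distrib]
  have hfac : 0 ≤ K ^ m * ((n : ℝ) + 2 - 2 * lo0) := by
    apply mul_nonneg (by positivity)
    have g1 : ((2 * k : ℕ) : ℝ) ≤ n := by exact_mod_cast hk2.le
    have g2 : ((lo0 : ℕ) : ℝ) ≤ k := by exact_mod_cast hlo0
    push_cast at g1
    linarith
  apply mul_le_mul_of_nonneg_left _ hfac
  apply add_le_add _ (weights_le k (by omega) lo0)
  rw [Wlow]
  have e3 : ∀ U ∈ V, (1 / 2 : ℝ) ^ (k - U.card) / (n.choose U.card : ℝ) *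
        (K ^ survLow c d (k + 1) hi U - 1) = (1 / 2 : ℝ) ^ (k + 1 - 1 - U.card) / (n.choose U.card : ℝ) *
        (K ^ survLow c d (k + 1) hi U - 1) := by
    intro U _
    rw [Nat.add_sub_cancel]
  rw [sum_congr rfl e3]
  apply sum_le_sum_of_subset_of_nonneg
  · intro U hU
    simp only [hV, mem_filter, mem_univ, true_and] at hU ⊢
    omega
  · intro U _ _
    apply mul_nonneg (by positivity)
    have := one_le_pow₀ hK1 (n := survLow c d (k + 1) hi U)
    linarith

end StepLowSum

end Pool.Agent.OrthoChains
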