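import Pool.Agent.OrthoChains.Defs

set_option autoImplicit false

open Finset

namespace Pool.Agent.OrthoChains

theorem win_mono_chain {n : ℕ} {R : Finset (Fin n) → Prop} {lo hi : ℕ}
    {d : Finset (Fin n) → Finset (Fin n)} (hd : Win R lo hi d) (A B : Finset (Fin n))
    (hA : lo ≤ A.card) (hB : B.card ≤ hi) (hAB : A.card ≤ B.card) (h : d A = d B) : A ⊆ B := by
  obtain ⟨t, ht⟩ : ∃ t, B.card = A.card + t := ⟨B.card - A.card, by omega⟩
  induction t generalizing A B with
  | zero => exact (hd.inj A B hA (by omega) (by omega) h).subset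
  | succ t ih =>
    by_cases h2 : 2 * A.card < n
    · obtain ⟨A', hA', hc, hl⟩ := hd.up A hA (by omega) h2
      exact hA'.trans (ih A' B (by omega) hB (by omega) (hl.trans h) (by omega))
    · obtain ⟨B', hB', hc, hl⟩ := hd.down B (by omega) hB (by omega)
      exact (ih A B' hA (by omega) (by omega) (h.trans hl.symm) (by omega)).trans hB'

section Step

variable {n m : ℕ} (R : Finset (Fin n) → Prop)
  (c : Fin m → Finset (Fin n) → Finset (Fin n)) (d : Finset (Fin n) → Finset (Fin n))

theorem step_win {lo0 k hi : ℕ} (hk2 : 2 * k < n) (hlo0 : lo0 ≤ k) (hkhi : k + 1 ≤ hi)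
    (hhi : hi ≤ n - lo0)
    (hR : ∀ B, R B → 2 * B.card < n)
    (hd : Win R (k + 1) hi d) (hcd : ∀ i, Orth (k + 1) hi (c i) d)
    (M : Finset (Fin n) → Finset (Fin n))
    (hM : ∀ A ∈ Lv n k, M A ∈ Lv n (k + 1) ∧ A ⊆ M A ∧ ¬ Forb R c d k hi A (M A))
    (hMinj : Set.InjOn M (Lv n k)) :
    Win R k hi (ext d M k) ∧ ∀ i, Orth k hi (c i) (ext d M k) := by
  have hLv : ∀ (j : ℕ) (A : Finset (Fin n)), A ∈ Lv n j ↔ A.card = j := by
    intro j A; simp [Lv]
  have e0 : ∀ A : Finset (Fin n), A.card = k → ext d M k A = d (M A) := fun A hA => by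
    unfold ext; rw [if_pos hA]
  have e1 : ∀ A : Finset (Fin n), k + 1 ≤ A.card → ext d M k A = d A := fun A hA => by
    unfold ext; rw [if_neg (by omega)]
  have hMc : ∀ A : Finset (Fin n), A.card = k → (M A).card = k + 1 := fun A hA =>
    (hLv _ _).1 (hM A ((hLv _ _).2 hA)).1
  have hMsub : ∀ A : Finset (Fin n), A.card = k → A ⊆ M A := fun A hA =>
    (hM A ((hLv _ _).2 hA)).2.1
  have hMF : ∀ A : Finset (Fin n), A.card = k → ¬ Forb R c d k hi A (M A) := fun A hA =>
    (hM A ((hLv _ _).2 hA)).2.2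
  have hinj : ∀ A B : Finset (Fin n), k ≤ A.card → A.card ≤ hi → A.card = B.card →
      ext d M k A = ext d M k B → A = B := by
    intro A B h1 h2 h3 h4
    rcases h1.eq_or_lt with h | h
    · rw [e0 A h.symm, e0 B (by omega)] at h4
      have := hd.inj _ _ (by rw [hMc A h.symm]) (by rw [hMc A h.symm]; omega)
        (by rw [hMc A h.symm, hMc B (by omega)]) h4
      exact hMinj ((hLv _ _).2 h.symm) ((hLv _ _).2 (by omega)) this
    · rw [e1 A (by omega), e1 B (by omega)] at h4
      exact hd.inj A B (by omega) h2 h3 h4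
  refine ⟨⟨hinj, ?_, ?_, ?_, ?_⟩, ?_⟩
  · intro A h1 h2 h3
    rcases h1.eq_or_lt with h | h
    · refine ⟨M A, hMsub A h.symm, by rw [hMc A h.symm, h], ?_⟩
      rw [e0 A h.symm, e1 _ (by rw [hMc A h.symm])]
    · obtain ⟨B, hB1, hB2, hB3⟩ := hd.up A (by omega) h2 h3
      exact ⟨B, hB1, hB2, by rw [e1 A (by omega), e1 B (by omega), hB3]⟩
  · intro B h1 h2 h3
    rcases (Nat.succ_le_of_lt h1).eq_or_lt with h | h
    · -- level `k+1`, `n = 2k+1`: `M` is a bijection
      have hn : n = 2 * k + 1 := by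
        have : B.card = k + 1 := h.symm
        omega
      have hsurj : ∃ A ∈ Lv n k, M A = B := by
        have hcard : (Lv n (k + 1)).card ≤ (Lv n k).card := by
          have hc : ∀ j, (Lv n j).card = n.choose j := by
            intro j
            have : Lv n j = Finset.powersetCard j Finset.univ := by
              ext A; simp [Lv, Finset.mem_powersetCard]
            rw [this, Finset.card_powersetCard, Finset.card_univ, Fintype.card_fin]
          rw [hc, hc, hn]
          have := Nat.choose_symm_half k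
          rw [this]
        have := Finset.surj_on_of_inj_on_of_card_le (s := Lv n k) (t := Lv n (k + 1))
          (fun A _ => M A) (fun A hA => (hM A hA).1) (fun A A' hA hA' h => hMinj hA hA' h) hcard
          B ((hLv _ _).2 h.symm)
        obtain ⟨A, hA, hAB⟩ := this
        exact ⟨A, hA, hAB.symm⟩
      obtain ⟨A, hA, hAB⟩ := hsurj
      have hAc := (hLv _ _).1 hA
      refine ⟨A, hAB ▸ hMsub A hAc, by omega, ?_⟩
      rw [e0 A hAc, hAB, e1 B (by omega)]
    · obtain ⟨A, hA1, hA2, hA3⟩ := hd.down B h h2 h3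
      exact ⟨A, hA1, hA2, by rw [e1 A (by omega), e1 B (by omega), hA3]⟩
  · intro A B h1 h2 h3 h4 h5 h6
    rcases h1.eq_or_lt with h | h
    · rw [e0 A h.symm, e1 B (by omega)] at h6
      have : M A = B := hd.inj _ _ (by rw [hMc A h.symm]) (by rw [hMc A h.symm]; omega)
        (by rw [hMc A h.symm]; omega) h6
      exact hMF A h.symm (Or.inl (this ▸ h5))
    · rw [e1 A (by omega), e1 B (by omega)] at h6
      exact hd.resLow A B (by omega) h2 h3 h4 h5 h6
  · intro A B h1 h2 h3 h4 h5 h6
    rcases h1.eq_or_lt with h | h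
    · have := hR _ h5
      rw [Finset.card_compl, Fintype.card_fin] at this
      omega
    · rw [e1 A (by omega), e1 B (by omega)] at h6
      exact hd.resHigh A B (by omega) h2 h3 h4 h5 h6
  · intro i
    have key : ∀ A B : Finset (Fin n), A.card = k → k + 1 ≤ B.card → B.card ≤ hi →
        c i A = c i B → ext d M k A = ext d M k B → False := by
      intro A B hA hB1 hB2 hc h
      rw [e0 A hA, e1 B hB1] at h
      refine hMF A hA (Or.inr ⟨(i, B), ?_, h.symm⟩)
      unfold aliveLow
      rw [Finset.mem_filter]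
      exact ⟨Finset.mem_univ _, hB1, hB2, hc.symm, M A, hMc A hA, h, hMsub A hA⟩
    intro A B h1 h2 h3 h4 h5 h6
    rcases h1.eq_or_lt with h | h
    · rcases h3.eq_or_lt with h' | h'
      · exact hinj A B h1 h2 (by omega) h6
      · exact (key A B h.symm h' h4 h5 h6).elim
    · rcases h3.eq_or_lt with h' | h'
      · exact (key B A h'.symm h h2 h5.symm h6.symm).elim
      · rw [e1 A (by omega), e1 B (by omega)] at h6
        exact hcd i A B h h2 h' h4 h5 h6

end Step

end Pool.Agent.OrthoChains
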