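import Pool.Agent.OrthoChains.CostMatch
import Pool.Agent.OrthoChains.StepHall
import Pool.Agent.OrthoChains.StepWin
import Pool.Agent.OrthoChains.StepLow
import Pool.Agent.OrthoChains.StepLowSum
import Pool.Agent.OrthoChains.StepHigh
import Pool.Agent.OrthoChains.StepHighSum
import Pool.Agent.OrthoChains.Dual
import Pool.Agent.OrthoChains.Outer
import Pool.Agent.OrthoChains.Numerics

set_option autoImplicit false

open Finset

namespace Pool.Agent.OrthoChains

theorem Orth.symm {n : ℕ} {lo hi : ℕ} {c d : Finset (Fin n) → Finset (Fin n)}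
    (h : Orth lo hi c d) : Orth lo hi d c :=
  fun A B h1 h2 h3 h4 h5 h6 => h A B h1 h2 h3 h4 h6 h5

theorem mem_Lv {n k : ℕ} {A : Finset (Fin n)} : A ∈ Lv n k ↔ A.card = k := by
  simp [Lv]

theorem Wlow_nonneg {n m : ℕ} {K : ℝ} (hK : 2 ≤ K) (c : Fin m → Finset (Fin n) → Finset (Fin n))
    (d : Finset (Fin n) → Finset (Fin n)) (lo0 lo hi : ℕ) : 0 ≤ Wlow K c d lo0 lo hi := by
  unfold Wlow
  refine Finset.sum_nonneg fun U _ => mul_nonneg (by positivity) ?_
  have : (1 : ℝ) ≤ K ^ survLow c d lo hi U := one_le_pow₀ (by linarith)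
  linarith

theorem Whigh_nonneg {n m : ℕ} {K : ℝ} (hK : 2 ≤ K) (c : Fin m → Finset (Fin n) → Finset (Fin n))
    (d : Finset (Fin n) → Finset (Fin n)) (lo0 lo hi : ℕ) : 0 ≤ Whigh K c d lo0 lo hi := by
  unfold Whigh
  refine Finset.sum_nonneg fun U _ => mul_nonneg (by positivity) ?_
  have : (1 : ℝ) ≤ K ^ survHigh c d lo hi U := one_le_pow₀ (by linarith)
  linarith

theorem dual_dual {n : ℕ} (c : Finset (Fin n) → Finset (Fin n)) : dual (dual c) = c := by
  funext A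
  simp [dual]

theorem State.dual {n m : ℕ} {R : Finset (Fin n) → Prop} {K : ℝ}
    {c : Fin m → Finset (Fin n) → Finset (Fin n)} {lo0 lo hi : ℕ} {wl wh : ℝ}
    {d : Finset (Fin n) → Finset (Fin n)} (h : State R K c lo0 lo hi wl wh d)
    (hlh : lo ≤ hi) (hn : hi ≤ n) (h0 : lo0 ≤ lo) (h1 : hi ≤ n - lo0) :
    State R K (fun i => OrthoChains.dual (c i)) lo0 (n - hi) (n - lo) wh wl
      (OrthoChains.dual d) where
  win := h.win.dual hlh hn
  orth := fun i => (h.orth i).dual hlh hn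
  low := by rw [Wlow_dual K c d lo0 lo hi hlh hn h0 h1]; exact h.high
  high := by rw [Whigh_dual K c d lo0 lo hi hlh hn h0 h1]; exact h.low

/-- One downward step. -/
theorem step_down {n m : ℕ} {R : Finset (Fin n) → Prop}
    {c : Fin m → Finset (Fin n) → Finset (Fin n)} {d : Finset (Fin n) → Finset (Fin n)}
    {lo0 k hi φ : ℕ} (hk2 : 2 * k < n) (hlo0 : lo0 ≤ k)
    (hkhi : k + 1 ≤ hi) (hhi : hi ≤ n - lo0)
    (hk400 : 400 ≤ k) (hdens : 9 * n ≤ 20 * k) (hm : m * 2 ^ (5 * m + 10) ≤ k + 1)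
    (hR : ∀ B, R B → 2 * B.card < n)
    (hc : ∀ i, Win R lo0 (n - lo0) (c i))
    (hcc : ∀ i j, i ≠ j → Orth lo0 (n - lo0) (c i) (c j))
    (hRφ : ∀ A ∈ Lv n k, ∀ T : Finset (Finset (Fin n)),
      (∀ B ∈ T, B.card = k + 1 ∧ A ⊆ B ∧ R B) → T.card ≤ φ)
    (hcase : (2 * k + 2 ≤ n ∧ 8 * φ ≤ n - 2 * k - 1) ∨ (n = 2 * k + 1 ∧ φ = 0 ∧ hi = k + 1))
    {wl wh δ : ℝ} (hδ : del n m k lo0 ((2 : ℝ) ^ 128) ≤ δ) 
    (hwl : wl ≤ 1 / 2 ^ (5 * m + 10))
    (hS : State R ((2 : ℝ) ^ 128) c lo0 (k + 1) hi wl wh d) :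
    ∃ d', State R ((2 : ℝ) ^ 128) c lo0 k hi (δ * (wl + wh + 3)) (wh + δ * (wl + wh + 3)) d' := by
  classical
  set K : ℝ := (2 : ℝ) ^ 128 with hKdef
  have hK : (2 : ℝ) ≤ K := by rw [hKdef]; norm_num
  have hkn : k < n := by omega
  have hWl0 := Wlow_nonneg hK c d lo0 (k + 1) hi
  have hWh0 := Whigh_nonneg hK c d lo0 (k + 1) hi
  have hH := step_hall R c d (φ := φ) hk2 hlo0 hkhi hhi hk400 hdens hm hc hcc hS.win hRφ
    (hS.low.trans hwl) hcase
  obtain ⟨M, hM1, hM2, hM3⟩ := cost_matching (Lv n k) (Lv n (k + 1))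
    (fun A B => A ⊆ B ∧ ¬ Forb R c d k hi A B) (n - k) 2 (by omega)
    (fun X hX Y hY => hH X Y hX hY)
    (fun A B => costLow K c d lo0 k hi A B + costHigh K c d lo0 k hi A B)
    (fun A B => add_nonneg (costLow_nonneg K c d hK A B) (costHigh_nonneg K c d hK A B))
  have hM' : ∀ A ∈ Lv n k, M A ∈ Lv n (k + 1) ∧ A ⊆ M A ∧ ¬ Forb R c d k hi A (M A) :=
    fun A hA => ⟨(hM1 A hA).1, (hM1 A hA).2.1, (hM1 A hA).2.2⟩
  have hM'' : ∀ A ∈ Lv n k, M A ∈ Lv n (k + 1) ∧ A ⊆ M A :=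
    fun A hA => ⟨(hM1 A hA).1, (hM1 A hA).2.1⟩
  obtain ⟨hw, ho⟩ := step_win R c d hk2 hlo0 hkhi hhi hR hS.win hS.orth M hM' hM2
  have h1 := Wlow_step R K c d hK hlo0 hkhi hhi hS.win M hM'' hM2
  have h2 := Whigh_step R K c d hK hlo0 hkhi hhi hc M hM''
  have h3 := costLow_sum R K c d hK hk2 hlo0 hkhi hhi hc hS.win
  have h4 := costHigh_sum R K c d hK hk2 hlo0 hkhi hhi hc hS.win
  set Λ : ℝ := (n : ℝ) + 2 - 2 * lo0 with hΛ
  have hΛ0 : 0 ≤ Λ := by
    have : (lo0 : ℝ) ≤ k := by exact_mod_cast hlo0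
    have : (2 * k : ℝ) < n := by exact_mod_cast hk2
    rw [hΛ]; linarith
  have hcost : ∑ A ∈ Lv n k, (costLow K c d lo0 k hi A (M A) + costHigh K c d lo0 k hi A (M A)) ≤
      δ * (wl + wh + 3) := by
    refine hM3.trans ?_
    have hsub : ∑ p ∈ (Lv n k ×ˢ Lv n (k + 1)).filter
        (fun p => p.1 ⊆ p.2 ∧ ¬ Forb R c d k hi p.1 p.2),
        (costLow K c d lo0 k hi p.1 p.2 + costHigh K c d lo0 k hi p.1 p.2) ≤
        ∑ p ∈ (Lv n k ×ˢ Lv n (k + 1)).filter (fun p => p.1 ⊆ p.2),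
        (costLow K c d lo0 k hi p.1 p.2 + costHigh K c d lo0 k hi p.1 p.2) := by
      refine Finset.sum_le_sum_of_subset_of_nonneg ?_ fun p _ _ =>
        add_nonneg (costLow_nonneg K c d hK _ _) (costHigh_nonneg K c d hK _ _)
      intro p hp
      rw [Finset.mem_filter] at hp ⊢
      exact ⟨hp.1, hp.2.1⟩
    replace hsub := hsub.trans (le_of_eq Finset.sum_add_distrib)
    have hnk : (0 : ℝ) < (n : ℝ) - k := by
      have : (k : ℝ) < n := by exact_mod_cast hkn
      linarith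
    have hcast : ((n - k : ℕ) : ℝ) = (n : ℝ) - k := by
      rw [Nat.cast_sub hkn.le]
    rw [hcast]
    have hKm : (0 : ℝ) < K ^ m := by positivity
    have hstep : K ^ m * Λ * (Wlow K c d lo0 (k + 1) hi + 1) +
        m * K ^ m * Λ * (Whigh K c d lo0 (k + 1) hi + 2) ≤
        (m + 1) * K ^ m * Λ * (wl + wh + 3) := by
      have e1 : Wlow K c d lo0 (k + 1) hi + 1 ≤ wl + wh + 3 := by
        have := hS.low; have := hS.high; linarith
      have e2 : Whigh K c d lo0 (k + 1) hi + 2 ≤ wl + wh + 3 := by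
        have := hS.low; have := hS.high; linarith
      have hp : 0 ≤ K ^ m * Λ := by positivity
      have hp' : 0 ≤ m * K ^ m * Λ := by positivity
      calc _ ≤ K ^ m * Λ * (wl + wh + 3) + m * K ^ m * Λ * (wl + wh + 3) := by gcongr
        _ = _ := by ring
    calc ((2 : ℕ) : ℝ) / ((n : ℝ) - k) * _ ≤ ((2 : ℕ) : ℝ) / ((n : ℝ) - k) *
          ((m + 1) * K ^ m * Λ * (wl + wh + 3)) := by
            refine mul_le_mul_of_nonneg_left (hsub.trans ((add_le_add h3 h4).trans hstep)) ?_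
            positivity
      _ = del n m k lo0 K * (wl + wh + 3) := by
            unfold del; rw [← hΛ]; push_cast; ring
      _ ≤ δ * (wl + wh + 3) := by
            refine mul_le_mul_of_nonneg_right hδ ?_
            have := hS.low; have := hS.high; linarith
  have hcl : ∑ A ∈ Lv n k, costLow K c d lo0 k hi A (M A) ≤ δ * (wl + wh + 3) := by
    refine le_trans ?_ hcost
    refine Finset.sum_le_sum fun A _ => ?_
    have := costHigh_nonneg K c d (lo0 := lo0) (k := k) (hi := hi) hK A (M A)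
    linarith
  have hch : ∑ A ∈ Lv n k, costHigh K c d lo0 k hi A (M A) ≤ δ * (wl + wh + 3) := by
    refine le_trans ?_ hcost
    refine Finset.sum_le_sum fun A _ => ?_
    have := costLow_nonneg K c d (lo0 := lo0) (k := k) (hi := hi) hK A (M A)
    linarith
  exact ⟨ext d M k, hw, ho, h1.trans hcl, h2.trans (add_le_add hS.high hch)⟩

/-- One upward step. -/
theorem step_up {n m : ℕ} {R : Finset (Fin n) → Prop}
    {c : Fin m → Finset (Fin n) → Finset (Fin n)} {d : Finset (Fin n) → Finset (Fin n)}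
    {lo0 k lo φ : ℕ} (hk2 : 2 * k < n) (hlo0 : lo0 ≤ k) (hlo : lo0 ≤ lo)
    (hkhi : k + 1 + lo ≤ n)
    (hk400 : 400 ≤ k) (hdens : 9 * n ≤ 20 * k) (hm : m * 2 ^ (5 * m + 10) ≤ k + 1)
    (hR : ∀ B, R B → 2 * B.card < n)
    (hc : ∀ i, Win R lo0 (n - lo0) (c i))
    (hcc : ∀ i j, i ≠ j → Orth lo0 (n - lo0) (c i) (c j))
    (hRφ : ∀ A ∈ Lv n k, ∀ T : Finset (Finset (Fin n)),
      (∀ B ∈ T, B.card = k + 1 ∧ A ⊆ B ∧ R B) → T.card ≤ φ)
    (hcase : (2 * k + 2 ≤ n ∧ 8 * φ ≤ n - 2 * k - 1) ∨ (n = 2 * k + 1 ∧ φ = 0 ∧ n - lo = k + 1))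
    {wl wh δ : ℝ} (hδ : del n m k lo0 ((2 : ℝ) ^ 128) ≤ δ)
    (hwh : wh ≤ 1 / 2 ^ (5 * m + 10))
    (hS : State R ((2 : ℝ) ^ 128) c lo0 lo (n - (k + 1)) wl wh d) :
    ∃ d', State R ((2 : ℝ) ^ 128) c lo0 lo (n - k) (wl + δ * (wh + wl + 3))
      (δ * (wh + wl + 3)) d' := by
  have hS' := hS.dual (by omega) (by omega) hlo (by omega)
  have e1 : n - (n - (k + 1)) = k + 1 := by omega
  rw [e1] at hS'
  have hc' : ∀ i, Win R lo0 (n - lo0) (dual (c i)) := by
    intro i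
    have := (hc i).dual (by omega) (by omega)
    have e2 : n - (n - lo0) = lo0 := by omega
    rwa [e2] at this
  have hcc' : ∀ i j, i ≠ j → Orth lo0 (n - lo0) (dual (c i)) (dual (c j)) := by
    intro i j hij
    have := (hcc i j hij).dual (by omega) (by omega)
    have e2 : n - (n - lo0) = lo0 := by omega
    rwa [e2] at this
  obtain ⟨d', hd'⟩ := step_down (φ := φ) hk2 hlo0 (by omega) (by omega) hk400 hdens hm hR hc' hcc'
    hRφ hcase hδ hwh hS'
  have hS'' := hd'.dual (by omega) (by omega) hlo0 (by omega)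
  have e3 : n - (n - lo) = lo := by omega
  rw [e3] at hS''
  simp only [dual_dual] at hS''
  exact ⟨_, hS''⟩

theorem base_state {n m : ℕ} (R : Finset (Fin n) → Prop) (K : ℝ)
    (c : Fin m → Finset (Fin n) → Finset (Fin n)) (lo0 l : ℕ) :
    State R K c lo0 l l 0 0 (fun A => A) where
  win :=
    { inj := fun A B _ _ _ h => h
      up := fun A h1 h2 => absurd h1 (by omega)
      down := fun A h1 h2 => absurd h1 (by omega)
      resLow := fun A B h1 h2 _ h4 => by omega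
      resHigh := fun A B h1 h2 _ h4 => by omega }
  orth := fun i A B _ _ _ _ _ h => h
  low := by
    unfold Wlow
    refine le_of_eq (Finset.sum_eq_zero fun U _ => ?_)
    have : survLow c (fun A => A) l l U = 0 := by
      unfold survLow
      rw [Finset.card_eq_zero, Finset.filter_eq_empty_iff]
      intro p hp
      unfold aliveLow at hp
      rw [Finset.mem_filter] at hp
      have := hp.2.1; have := hp.2.2.1
      omega
    rw [this]; simp
  high := by
    unfold Whigh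
    refine le_of_eq (Finset.sum_eq_zero fun U _ => ?_)
    have : survHigh c (fun A => A) l l U = 0 := by
      unfold survHigh
      rw [Finset.card_eq_zero, Finset.filter_eq_empty_iff]
      intro p hp
      unfold aliveHigh at hp
      rw [Finset.mem_filter] at hp
      have := hp.2.1; have := hp.2.2.1
      omega
    rw [this]; simp

/-- The numbers of a `Good` tuple. -/
noncomputable def δ0 (n m lo0 : ℕ) : ℝ :=
  4 / (n : ℝ) * (m + 1) * ((2 : ℝ) ^ 128) ^ m * ((n : ℝ) + 2 - 2 * (lo0 : ℝ))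

theorem del_le_δ0 {n m k lo0 : ℕ} (hk : 2 * k ≤ n) (hn : 0 < n) (hlo0 : lo0 ≤ k) :
    del n m k lo0 ((2 : ℝ) ^ 128) ≤ δ0 n m lo0 := by
  unfold del δ0
  have h1 : (2 * k : ℝ) ≤ n := by exact_mod_cast hk
  have h2 : (0 : ℝ) < n := by exact_mod_cast hn
  have h3 : (lo0 : ℝ) ≤ k := by exact_mod_cast hlo0
  have h4 : 2 / ((n : ℝ) - k) ≤ 4 / (n : ℝ) := by
    rw [div_le_div_iff₀ (by linarith) h2]
    linarith
  have h5 : 0 ≤ ((n : ℝ) + 2 - 2 * lo0) := by linarith
  gcongr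

theorem δ0_nonneg {n m lo0 : ℕ} (hlo0 : 2 * lo0 ≤ n) : 0 ≤ δ0 n m lo0 := by
  unfold δ0
  have h1 : (2 * lo0 : ℝ) ≤ n := by exact_mod_cast hlo0
  have h5 : 0 ≤ ((n : ℝ) + 2 - 2 * lo0) := by linarith
  positivity

theorem exists_new {n m s q : ℕ} (hG : Good n m s q)
    (c : Fin m → Finset (Fin n) → Finset (Fin n))
    (hc : ∀ i, Win (Res n (n / 2 - s) q) (n / 2 - 2 * s) (n - (n / 2 - 2 * s)) (c i))
    (hcc : ∀ i j, i ≠ j → Orth (n / 2 - 2 * s) (n - (n / 2 - 2 * s)) (c i) (c j)) :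
    ∃ d : Finset (Fin n) → Finset (Fin n),
      Win (Res n (n / 2 - s) q) (n / 2 - 2 * s) (n - (n / 2 - 2 * s)) d ∧
      ∀ i, Orth (n / 2 - 2 * s) (n - (n / 2 - 2 * s)) (c i) d := by
  obtain ⟨hs, hs1, hbig, hdens, hm, hq, hqs, hφ, hδ, -⟩ := hG
  set lo0 := n / 2 - 2 * s with hlo0
  set R := Res n (n / 2 - s) q with hRdef
  have hn : 0 < n := by omega
  have hR : ∀ B, R B → 2 * B.card < n := by
    intro B hB
    have := hB.1
    omega
  set δ := δ0 n m lo0 with hδdef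
  have hδ' : 8 * δ ≤ 1 / 2 ^ (5 * m + 10) := hδ
  have hδ0 : 0 ≤ δ := δ0_nonneg (by omega)
  have hδ12 : 12 * δ ≤ 1 := by
    have : (1 : ℝ) / 2 ^ (5 * m + 10) ≤ 1 / 2 ^ 10 := by
      apply one_div_le_one_div_of_le (by positivity)
      apply pow_le_pow_right₀ (by norm_num) (by omega)
    have h2 : (1 : ℝ) / 2 ^ 10 ≤ 1 / 12 * 8 := by norm_num
    linarith
  have hstep : ∀ w1 w2 : ℝ, w1 + w2 ≤ 12 * δ → δ * (w1 + w2 + 3) ≤ 4 * δ := by
    intro w1 w2 h
    nlinarith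
  -- the reserved degree
  have hRφ : ∀ k, k + 1 = n / 2 - s → ∀ A ∈ Lv n k, ∀ T : Finset (Finset (Fin n)),
      (∀ B ∈ T, B.card = k + 1 ∧ A ⊆ B ∧ R B) → T.card ≤ n / q + 1 := by
    intro k hk A hA T hT
    refine res_degree (k := n / 2 - s) hq A T fun B hB => ?_
    obtain ⟨h1, h2, h3⟩ := hT B hB
    rw [mem_Lv] at hA
    exact ⟨by omega, h2, h3⟩
  have hRφ0 : ∀ k, k + 1 ≠ n / 2 - s → ∀ A ∈ Lv n k, ∀ T : Finset (Finset (Fin n)),
      (∀ B ∈ T, B.card = k + 1 ∧ A ⊆ B ∧ R B) → T.card ≤ 0 := by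
    intro k hk A hA T hT
    rw [Nat.le_zero, Finset.card_eq_zero, Finset.eq_empty_iff_forall_notMem]
    intro B hB
    obtain ⟨h1, h2, h3⟩ := hT B hB
    exact hk (h1.symm.trans h3.1)
  have hmk : ∀ k, lo0 ≤ k → m * 2 ^ (5 * m + 10) ≤ k + 1 := fun k hk => by omega
  -- existence of φ at each level
  have hφk : ∀ k, lo0 ≤ k → 2 * k + 2 ≤ n → ∃ φ, 8 * φ ≤ n - 2 * k - 1 ∧
      ∀ A ∈ Lv n k, ∀ T : Finset (Finset (Fin n)),
      (∀ B ∈ T, B.card = k + 1 ∧ A ⊆ B ∧ R B) → T.card ≤ φ := by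
    intro k hk hk2
    by_cases h : k + 1 = n / 2 - s
    · exact ⟨n / q + 1, by omega, hRφ k h⟩
    · exact ⟨0, by omega, hRφ0 k h⟩
  -- base
  have hbase : ∃ d, State R ((2 : ℝ) ^ 128) c lo0 (n / 2) (n - n / 2) (8 * δ) (4 * δ) d := by
    rcases Nat.even_or_odd' n with ⟨h, hh | hh⟩
    · have e : n - n / 2 = n / 2 := by omega
      rw [e]
      have := base_state R ((2 : ℝ) ^ 128) c lo0 (n / 2)
      exact ⟨_, this.win, this.orth, this.low.trans (by linarith), this.high.trans (by linarith)⟩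
    · have hb := base_state R ((2 : ℝ) ^ 128) c lo0 (n / 2 + 1)
      have hk : 2 * (n / 2) < n := by omega
      obtain ⟨d', hd'⟩ := step_down (k := n / 2) (φ := 0) hk (by omega) le_rfl (by omega)
        (by omega) (by omega) (hmk _ (by omega)) hR hc hcc (hRφ0 _ (by omega))
        (Or.inr ⟨by omega, rfl, rfl⟩) (del_le_δ0 hk.le hn (by omega)) (by positivity) hb
      have e : n - n / 2 = n / 2 + 1 := by omega
      rw [e]
      have := hstep 0 0 (by linarith)
      exact ⟨d', hd'.win, hd'.orth, hd'.low.trans (by linarith), hd'.high.trans (by linarith)⟩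
  have hind : ∀ j, j ≤ 2 * s → ∃ d, State R ((2 : ℝ) ^ 128) c lo0 (n / 2 - j) (n - n / 2 + j)
      (8 * δ) (4 * δ) d := by
    intro j
    induction j with
    | zero => intro _; simpa using hbase
    | succ j ih =>
      intro hj
      obtain ⟨d, hd⟩ := ih (by omega)
      set k := n / 2 - (j + 1) with hk
      have hk1 : n / 2 - j = k + 1 := by omega
      rw [hk1] at hd
      obtain ⟨φ, hφ1, hφ2⟩ := hφk k (by omega) (by omega)
      obtain ⟨d1, hd1⟩ := step_down (k := k) (φ := φ) (by omega) (by omega) (by omega) (by omega)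
        (by omega) (by omega) (hmk _ (by omega)) hR hc hcc hφ2
        (Or.inl ⟨by omega, hφ1⟩) (del_le_δ0 (by omega) hn (by omega)) hδ' hd
      have hw1 := hstep (8 * δ) (4 * δ) (by linarith)
      have hS1 : State R ((2 : ℝ) ^ 128) c lo0 k (n - (k + 1)) (4 * δ) (8 * δ) d1 := by
        have e : n - n / 2 + j = n - (k + 1) := by omega
        rw [e] at hd1
        exact ⟨hd1.win, hd1.orth, hd1.low.trans hw1, hd1.high.trans (by linarith)⟩
      obtain ⟨d2, hd2⟩ := step_up (k := k) (lo := k) (φ := φ) (by omega) (by omega) (by omega)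
        (by omega) (by omega) (by omega) (hmk _ (by omega)) hR hc hcc hφ2
        (Or.inl ⟨by omega, hφ1⟩) (del_le_δ0 (by omega) hn (by omega)) hδ' hS1
      have e : n - n / 2 + (j + 1) = n - k := by omega
      rw [e]
      exact ⟨d2, hd2.win, hd2.orth, hd2.low.trans (by linarith), hd2.high.trans hw1⟩
  obtain ⟨d, hd⟩ := hind (2 * s) le_rfl
  have e1 : n / 2 - 2 * s = lo0 := rfl
  have e2 : n - n / 2 + 2 * s = n - lo0 := by omega
  rw [e1, e2] at hd
  exact ⟨d, hd.win, hd.orth⟩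

theorem Good.mono {n m m' s q : ℕ} (hG : Good n m s q) (h : m' ≤ m) : Good n m' s q := by
  obtain ⟨hs, hs1, hbig, hdens, hm, hq, hqs, hφ, hδ, ho⟩ := hG
  have hp : 2 ^ (5 * m' + 10) ≤ 2 ^ (5 * m + 10) := Nat.pow_le_pow_right (by norm_num) (by omega)
  refine ⟨hs, hs1, hbig, hdens, (Nat.mul_le_mul h hp).trans hm, hq, hqs, hφ, ?_, ?_⟩
  · have h1 : (2 * (n / 2 - 2 * s : ℕ) : ℝ) ≤ n := by
      have : 2 * (n / 2 - 2 * s) ≤ n := by omega
      exact_mod_cast this
    have h5 : 0 ≤ ((n : ℝ) + 2 - 2 * ((n / 2 - 2 * s : ℕ) : ℝ)) := by linarith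
    have h6 : (m' : ℝ) ≤ m := by exact_mod_cast h
    have h7 : (1 : ℝ) / 2 ^ (5 * m + 10) ≤ 1 / 2 ^ (5 * m' + 10) := by
      apply one_div_le_one_div_of_le (by positivity)
      apply pow_le_pow_right₀ (by norm_num) (by omega)
    refine le_trans ?_ (hδ.trans h7)
    gcongr
    norm_num
  · intro a ha
    have := ho a ha
    have h8 : m' * (n + 2) ≤ m * (n + 2) := Nat.mul_le_mul_right _ h
    omega

theorem exists_windows {n m s q : ℕ} (hG : Good n m s q) : ∀ m', m' ≤ m →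
    ∃ c : Fin m' → Finset (Fin n) → Finset (Fin n),
      (∀ i, Win (Res n (n / 2 - s) q) (n / 2 - 2 * s) (n - (n / 2 - 2 * s)) (c i)) ∧
      (∀ i j, i ≠ j → Orth (n / 2 - 2 * s) (n - (n / 2 - 2 * s)) (c i) (c j)) := by
  intro m'
  induction m' with
  | zero => intro _; exact ⟨fun i => i.elim0, fun i => i.elim0, fun i => i.elim0⟩
  | succ k ih =>
    intro hk
    obtain ⟨c, hc, hcc⟩ := ih (by omega)
    obtain ⟨d, hd, hcd⟩ := exists_new (hG.mono (by omega)) c hc hcc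
    refine ⟨Fin.snoc c d, ?_, ?_⟩
    · intro i
      refine Fin.lastCases ?_ (fun i => ?_) i
      · simpa using hd
      · simpa using hc i
    · intro i j
      refine Fin.lastCases ?_ (fun i => ?_) i
      · refine Fin.lastCases ?_ (fun j => ?_) j
        · intro h; exact absurd rfl h
        · intro _; simpa using (hcd j).symm
      · refine Fin.lastCases ?_ (fun j => ?_) j
        · intro _; simpa using hcd i
        · intro h
          have : i ≠ j := fun h' => h (by rw [h'])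
          simpa using hcc i j this

theorem exists_full (m n : ℕ) (hn : 2 ^ (700 * (m + 1)) ≤ n) :
    ∃ e : Fin m → Finset (Fin n) → Finset (Fin n), Full e := by
  obtain ⟨s, q, hG⟩ := good_of_large m n hn
  obtain ⟨c, hc, hcc⟩ := exists_windows hG m le_rfl
  exact extend_outer hG c hc hcc

end Pool.Agent.OrthoChains
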