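import Mathlib

/-!
# Choice of the level `j0` in the isoperimetric inequality of the Johnson graph (package OC6)
-/

namespace Pool.Agent.OrthoChains

/-- One step of the comparison `C(k,j) * 5 ≤ C(k,j+1) * 3` below `3k/8`. -/
theorem choose_step_35 {k j : ℕ} (h : 8 * (j + 1) ≤ 3 * k) :
    k.choose j * 5 ≤ k.choose (j + 1) * 3 := by
  have h1 := Nat.choose_succ_right_eq k j
  have h2 : 5 * (j + 1) ≤ 3 * (k - j) := by omega
  have h3 : 0 < k - j := by omega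
  have h4 : (k.choose j * 5) * (k - j) ≤ (k.choose (j + 1) * 3) * (k - j) := by
    calc (k.choose j * 5) * (k - j) = (k.choose j * (k - j)) * 5 := by ring
      _ = (k.choose (j + 1) * (j + 1)) * 5 := by rw [h1]
      _ = k.choose (j + 1) * (5 * (j + 1)) := by ring
      _ ≤ k.choose (j + 1) * (3 * (k - j)) := Nat.mul_le_mul_left _ h2
      _ = (k.choose (j + 1) * 3) * (k - j) := by ring
  exact Nat.le_of_mul_le_mul_right h4 h3

theorem choose_pow_35 {k j : ℕ} : ∀ i : ℕ, 8 * (j + i) ≤ 3 * k →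
    k.choose j * 5 ^ i ≤ k.choose (j + i) * 3 ^ i
  | 0, _ => by simp
  | i + 1, h => by
    have ih := choose_pow_35 (k := k) (j := j) i (by omega)
    have hs := choose_step_35 (k := k) (j := j + i) (by omega)
    calc k.choose j * 5 ^ (i + 1) = (k.choose j * 5 ^ i) * 5 := by ring
      _ ≤ (k.choose (j + i) * 3 ^ i) * 5 := Nat.mul_le_mul_right _ ih
      _ = (k.choose (j + i) * 5) * 3 ^ i := by ring
      _ ≤ (k.choose (j + i + 1) * 3) * 3 ^ i := Nat.mul_le_mul_right _ hs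
      _ = k.choose (j + (i + 1)) * 3 ^ (i + 1) := by
        rw [← add_assoc]; ring

theorem num_j0 {k m : ℕ} (hk : 400 ≤ k) (hm : k ≤ 8 * m + 16) :
    2 * ((3 : ℝ) / 5) ^ m ≤ (2 : ℝ) ^ (-(2 * (k : ℝ) / 25)) := by
  have hy : (0 : ℝ) ≤ (2 : ℝ) ^ (-(2 * (k : ℝ) / 25)) := Real.rpow_nonneg (by norm_num) _
  have h25 : ((2 : ℝ) ^ (-(2 * (k : ℝ) / 25))) ^ 25 = ((2 : ℝ) ^ (2 * k))⁻¹ := by
    rw [← Real.rpow_natCast, ← Real.rpow_mul (by norm_num)]
    have : -(2 * (k : ℝ) / 25) * ((25 : ℕ) : ℝ) = -((2 * k : ℕ) : ℝ) := by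
      push_cast; ring
    rw [this, Real.rpow_neg (by norm_num), Real.rpow_natCast]
  have hx : (2 * ((3 : ℝ) / 5) ^ m) ^ 25 ≤ ((2 : ℝ) ^ (2 * k))⁻¹ := by
    have e1 : (2 * ((3 : ℝ) / 5) ^ m) ^ 25 = 2 ^ 25 * (((3 : ℝ) / 5) ^ 25) ^ m := by
      rw [mul_pow, ← pow_mul, ← pow_mul, mul_comm m 25]
    have e2 : ((3 : ℝ) / 5) ^ 25 ≤ ((2 : ℝ) ^ 18)⁻¹ := by norm_num
    have e3 : (((3 : ℝ) / 5) ^ 25) ^ m ≤ (((2 : ℝ) ^ 18)⁻¹) ^ m :=
      pow_le_pow_left₀ (by positivity) e2 m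
    have e4 : (2 : ℝ) ^ 25 * (((2 : ℝ) ^ 18)⁻¹) ^ m ≤ ((2 : ℝ) ^ (2 * k))⁻¹ := by
      rw [inv_pow, ← pow_mul, ← div_eq_mul_inv, div_le_iff₀ (by positivity), inv_mul_eq_div,
        le_div_iff₀ (by positivity), ← pow_add]
      exact pow_le_pow_right₀ (by norm_num) (by omega)
    calc (2 * ((3 : ℝ) / 5) ^ m) ^ 25 = 2 ^ 25 * (((3 : ℝ) / 5) ^ 25) ^ m := e1
      _ ≤ 2 ^ 25 * (((2 : ℝ) ^ 18)⁻¹) ^ m := by
        exact mul_le_mul_of_nonneg_left e3 (by positivity)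
      _ ≤ _ := e4
  rw [← h25] at hx
  exact le_of_pow_le_pow_left₀ (by norm_num) hy hx

theorem sqrt_exp_j0 {μ : ℝ} (hμ : 0 < μ) :
    (2 : ℝ) ^ (-(Real.logb 2 (1 / μ) / 2 - 3)) = 8 * Real.sqrt μ := by
  have h1 : Real.logb 2 (1 / μ) = - Real.logb 2 μ := by
    rw [one_div, Real.logb_inv]
  rw [h1]
  have h2 : -(-Real.logb 2 μ / 2 - 3) = Real.logb 2 μ * (1 / 2) + 3 := by ring
  rw [h2, Real.rpow_add (by norm_num), Real.rpow_mul (by norm_num),
    Real.rpow_logb (by norm_num) (by norm_num) hμ, ← Real.sqrt_eq_rpow]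
  norm_num
  ring

theorem exists_j0 {k : ℕ} (hk : 400 ≤ k) (μ : ℝ) (hμ : 0 < μ) (hμ1 : μ ≤ 1 / 64) :
    ∃ j0 : ℕ, j0 ≤ k / 2 ∧
      μ / ((k.choose j0 : ℝ) / (k.choose (k / 2) : ℝ)) +
        ((k.choose j0 : ℝ) / (k.choose (k / 2) : ℝ)) ≤
      (2 : ℝ) ^ (- min (Real.logb 2 (1 / μ) / 2 - 3) (2 * (k : ℝ) / 25)) := by
  set s := Real.sqrt μ with hs
  have hs0 : 0 < s := Real.sqrt_pos.mpr hμ
  have hss : s * s = μ := Real.mul_self_sqrt hμ.le
  have hs8 : s ≤ 1 / 8 := by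
    have : s ≤ Real.sqrt (1 / 64) := Real.sqrt_le_sqrt hμ1
    have h64 : Real.sqrt (1 / 64) = 1 / 8 := by
      rw [show (1 / 64 : ℝ) = (1 / 8) ^ 2 by norm_num]
      exact Real.sqrt_sq (by norm_num)
    linarith
  have hM : (0 : ℝ) < (k.choose (k / 2) : ℝ) := by
    exact_mod_cast Nat.choose_pos (by omega)
  -- the two lower bounds for the right hand side
  have hA : (2 : ℝ) ^ (-(2 * (k : ℝ) / 25)) ≤
      (2 : ℝ) ^ (- min (Real.logb 2 (1 / μ) / 2 - 3) (2 * (k : ℝ) / 25)) :=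
    Real.rpow_le_rpow_of_exponent_le (by norm_num) (neg_le_neg (min_le_right _ _))
  have hB : 8 * s ≤
      (2 : ℝ) ^ (- min (Real.logb 2 (1 / μ) / 2 - 3) (2 * (k : ℝ) / 25)) := by
    rw [hs, ← sqrt_exp_j0 hμ]
    exact Real.rpow_le_rpow_of_exponent_le (by norm_num) (neg_le_neg (min_le_left _ _))
  set j1 := (k + 3) / 4 with hj1
  by_cases hc : s ≤ (k.choose j1 : ℝ) / (k.choose (k / 2) : ℝ)
  · -- case A
    refine ⟨j1, by omega, ?_⟩
    set a := (k.choose j1 : ℝ) / (k.choose (k / 2) : ℝ) with ha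
    have ha0 : 0 < a := lt_of_lt_of_le hs0 hc
    have h1 : μ / a ≤ a := by
      rw [div_le_iff₀ ha0, ← hss]
      exact mul_self_le_mul_self hs0.le hc
    set m := 3 * k / 8 - j1 with hm
    have h2 : k.choose j1 * 5 ^ m ≤ k.choose (j1 + m) * 3 ^ m :=
      choose_pow_35 m (by omega)
    have h3 : k.choose (j1 + m) ≤ k.choose (k / 2) := Nat.choose_le_middle _ _
    have h4 : k.choose j1 * 5 ^ m ≤ k.choose (k / 2) * 3 ^ m :=
      h2.trans (Nat.mul_le_mul_right _ h3)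
    have h5 : a ≤ ((3 : ℝ) / 5) ^ m := by
      rw [ha, div_pow, div_le_div_iff₀ hM (by positivity)]
      have : ((k.choose j1 * 5 ^ m : ℕ) : ℝ) ≤ ((k.choose (k / 2) * 3 ^ m : ℕ) : ℝ) := by
        exact_mod_cast h4
      push_cast at this
      linarith
    have h6 := num_j0 (k := k) (m := m) hk (by omega)
    calc μ / a + a ≤ 2 * ((3 : ℝ) / 5) ^ m := by linarith
      _ ≤ _ := h6.trans hA
  · -- case B
    push Not at hc
    have hex : ∃ j, j1 ≤ j ∧ s ≤ (k.choose j : ℝ) / (k.choose (k / 2) : ℝ) :=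
      ⟨k / 2, by omega, by rw [div_self hM.ne']; linarith⟩
    classical
    set j0 := Nat.find hex with hj0
    obtain ⟨hj01, hj0s⟩ := Nat.find_spec hex
    have hle : j0 ≤ k / 2 := Nat.find_min' hex ⟨by omega, by rw [div_self hM.ne']; linarith⟩
    have hne : j0 ≠ j1 := by
      intro h
      rw [← hj0, h] at hj0s
      linarith
    have hgt : j1 + 1 ≤ j0 := by omega
    have hmin : (k.choose (j0 - 1) : ℝ) / (k.choose (k / 2) : ℝ) < s := by
      by_contra hcon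
      push Not at hcon
      exact Nat.find_min hex (m := j0 - 1) (by omega) ⟨by omega, hcon⟩
    have hstep : k.choose j0 ≤ 3 * k.choose (j0 - 1) := by
      have h1 := Nat.choose_succ_right_eq k (j0 - 1)
      have h2 : j0 - 1 + 1 = j0 := by omega
      rw [h2] at h1
      have h3 : k.choose j0 * j0 ≤ (3 * k.choose (j0 - 1)) * j0 := by
        rw [h1]
        calc k.choose (j0 - 1) * (k - (j0 - 1)) ≤ k.choose (j0 - 1) * (3 * j0) :=
              Nat.mul_le_mul_left _ (by omega)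
          _ = (3 * k.choose (j0 - 1)) * j0 := by ring
      exact Nat.le_of_mul_le_mul_right h3 (by omega)
    refine ⟨j0, hle, ?_⟩
    set a := (k.choose j0 : ℝ) / (k.choose (k / 2) : ℝ) with ha
    have ha0 : 0 < a := lt_of_lt_of_le hs0 hj0s
    have h1 : μ / a ≤ s := by
      rw [div_le_iff₀ ha0, ← hss]
      exact mul_le_mul_of_nonneg_left hj0s hs0.le
    have h2 : a ≤ 3 * s := by
      have h3 : a ≤ 3 * ((k.choose (j0 - 1) : ℝ) / (k.choose (k / 2) : ℝ)) := by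
        rw [ha, ← mul_div_assoc]
        apply div_le_div_of_nonneg_right _ hM.le
        exact_mod_cast hstep
      linarith
    calc μ / a + a ≤ 8 * s := by linarith
      _ ≤ _ := hB

end Pool.Agent.OrthoChains
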