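import Pool.Agent.OrthoChains.Defs

/-!
# Sums of reciprocal binomial coefficients over a family of `k`-sets
-/

set_option autoImplicit false

open Finset

namespace Pool.Agent.OrthoChains

theorem choose_mono_half {k a b : ℕ} (hab : a ≤ b) (hb : b ≤ k / 2) : k.choose a ≤ k.choose b := by
  induction b, hab using Nat.le_induction with
  | base => exact le_rfl
  | succ b hab ih => exact (ih (by omega)).trans (Nat.choose_le_succ_of_lt_half_left (by omega))

/-- log-concavity of the binomial coefficients -/
theorem choose_logconc {k j0 : ℕ} (hj0 : j0 ≤ k / 2) (i : ℕ) (hi : i ≤ j0) :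
    k.choose (j0 - i) * k.choose (k / 2) ≤ k.choose (k / 2 - i) * k.choose j0 := by
  induction i with
  | zero => rw [Nat.sub_zero, Nat.sub_zero, mul_comm]
  | succ i ih =>
    have ih' := ih (by omega)
    set m := k / 2 with hm
    have e1 : k.choose (j0 - i) * (j0 - i) = k.choose (j0 - (i + 1)) * (k - j0 + i + 1) := by
      have h := Nat.choose_succ_right_eq k (j0 - (i + 1))
      have h2 : j0 - (i + 1) + 1 = j0 - i := by omega
      have h3 : k - (j0 - (i + 1)) = k - j0 + i + 1 := by omega
      rwa [h2, h3] at h
    have e2 : k.choose (m - i) * (m - i) = k.choose (m - (i + 1)) * (k - m + i + 1) := by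
      have h := Nat.choose_succ_right_eq k (m - (i + 1))
      have h2 : m - (i + 1) + 1 = m - i := by omega
      have h3 : k - (m - (i + 1)) = k - m + i + 1 := by omega
      rwa [h2, h3] at h
    have hp : 0 < (k - j0 + i + 1) * (k - m + i + 1) := by positivity
    refine Nat.le_of_mul_le_mul_right ?_ hp
    have e3 : (j0 - i) * (k - m + i + 1) ≤ (m - i) * (k - j0 + i + 1) := by
      apply Nat.mul_le_mul
      · omega
      · omega
    calc k.choose (j0 - (i + 1)) * k.choose m * ((k - j0 + i + 1) * (k - m + i + 1))
        = (k.choose (j0 - (i + 1)) * (k - j0 + i + 1)) * (k.choose m * (k - m + i + 1)) := by ring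
      _ = (k.choose (j0 - i) * k.choose m) * ((j0 - i) * (k - m + i + 1)) := by rw [← e1]; ring
      _ ≤ (k.choose (m - i) * k.choose j0) * ((m - i) * (k - j0 + i + 1)) :=
          Nat.mul_le_mul ih' e3
      _ = (k.choose (m - i) * (m - i)) * (k.choose j0 * (k - j0 + i + 1)) := by ring
      _ = k.choose (m - (i + 1)) * k.choose j0 * ((k - j0 + i + 1) * (k - m + i + 1)) := by
          rw [e2]; ring

/-- the lower half of the binomial coefficients -/
theorem two_mul_sum_choose_le (k : ℕ) : 2 * ∑ j ∈ range (k / 2), k.choose j ≤ 2 ^ k := by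
  have h1 : ∑ j ∈ range (k / 2), k.choose j =
      ∑ j ∈ (range (k + 1)).filter (fun j => k - k / 2 < j), k.choose j := by
    refine Finset.sum_bij (fun j _ => k - j) ?_ ?_ ?_ ?_
    · intro j hj
      rw [mem_range] at hj
      rw [mem_filter, mem_range]
      omega
    · intro a ha b hb h
      rw [mem_range] at ha hb
      omega
    · intro b hb
      rw [mem_filter, mem_range] at hb
      refine ⟨k - b, ?_, ?_⟩
      · rw [mem_range]; omega
      · omega
    · intro j hj
      rw [mem_range] at hj
      exact (Nat.choose_symm (by omega)).symm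
  have h2 : Disjoint (range (k / 2)) ((range (k + 1)).filter (fun j => k - k / 2 < j)) := by
    rw [disjoint_left]
    intro j hj hj'
    rw [mem_range] at hj
    rw [mem_filter] at hj'
    omega
  calc 2 * ∑ j ∈ range (k / 2), k.choose j = ∑ j ∈ range (k / 2), k.choose j +
        ∑ j ∈ (range (k + 1)).filter (fun j => k - k / 2 < j), k.choose j := by
        rw [← h1]; ring
    _ = ∑ j ∈ range (k / 2) ∪ ((range (k + 1)).filter (fun j => k - k / 2 < j)), k.choose j :=
        (sum_union h2).symm
    _ ≤ ∑ j ∈ range (k + 1), k.choose j := by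
        refine sum_le_sum_of_subset ?_
        intro j hj
        rw [mem_union, mem_range, mem_filter] at hj
        rw [mem_range]
        rcases hj with h | h
        · omega
        · exact mem_range.1 h.1
    _ = 2 ^ k := Nat.sum_range_choose k

theorem two_mul_sum_lt {k j0 : ℕ} (hj0 : j0 ≤ k / 2) :
    2 * (∑ j ∈ range j0, (k.choose j : ℝ)) ≤ 2 ^ k * ((k.choose j0 : ℝ) / (k.choose (k / 2) : ℝ)) := by
  have hc : (0 : ℝ) < k.choose (k / 2) := by
    have := Nat.choose_pos (Nat.div_le_self k 2)
    exact_mod_cast this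
  rw [← mul_div_assoc, le_div_iff₀ hc]
  have h1 : (∑ j ∈ range j0, k.choose j) * k.choose (k / 2) ≤
      (∑ j ∈ range (k / 2), k.choose j) * k.choose j0 := by
    rw [← Finset.sum_range_reflect, Finset.sum_mul, Finset.sum_mul,
      ← Finset.sum_range_reflect (fun j => k.choose j * k.choose j0)]
    have h2 : ∑ j ∈ range j0, k.choose (j0 - 1 - j) * k.choose (k / 2) ≤
        ∑ j ∈ range j0, k.choose (k / 2 - 1 - j) * k.choose j0 := by
      refine sum_le_sum fun j hj => ?_
      rw [mem_range] at hj
      have := choose_logconc hj0 (j + 1) (by omega)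
      have e1 : j0 - 1 - j = j0 - (j + 1) := by omega
      have e2 : k / 2 - 1 - j = k / 2 - (j + 1) := by omega
      rw [e1, e2]
      exact this
    refine h2.trans (sum_le_sum_of_subset ?_)
    exact range_subset_range.2 hj0
  have h3 := two_mul_sum_choose_le k
  have h4 : 2 * (∑ j ∈ range j0, k.choose j) * k.choose (k / 2) ≤ 2 ^ k * k.choose j0 := by
    calc 2 * (∑ j ∈ range j0, k.choose j) * k.choose (k / 2)
        = 2 * ((∑ j ∈ range j0, k.choose j) * k.choose (k / 2)) := by ring
      _ ≤ 2 * ((∑ j ∈ range (k / 2), k.choose j) * k.choose j0) := Nat.mul_le_mul_left _ h1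
      _ = (2 * ∑ j ∈ range (k / 2), k.choose j) * k.choose j0 := by ring
      _ ≤ 2 ^ k * k.choose j0 := Nat.mul_le_mul_right _ h3
  exact_mod_cast h4

/-- number of `k`-sets at distance `j` -/
theorem card_dist_le {n k j : ℕ} (A : Finset (Fin n)) (hA : A.card = k) (hj : j ≤ k) :
    ((Lv n k).filter fun A' => (A \ A').card = j).card ≤ k.choose j * (n - k).choose j := by
  have h : ((Lv n k).filter fun A' => (A \ A').card = j).card ≤
      (powersetCard (k - j) A ×ˢ powersetCard j Aᶜ).card := by
    refine card_le_card_of_injOn (fun A' => (A ∩ A', A' \ A)) ?_ ?_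
    · intro A' hA'
      simp only [coe_filter, Set.mem_ofPred_eq, Lv, mem_filter, mem_univ, true_and] at hA'
      obtain ⟨h1, h2⟩ := hA'
      have h3 := card_inter_add_card_sdiff A A'
      have h4 := card_inter_add_card_sdiff A' A
      rw [inter_comm] at h4
      rw [mem_coe, mem_product, mem_powersetCard, mem_powersetCard]
      refine ⟨⟨inter_subset_left, ?_⟩, ?_, ?_⟩
      · simp only
        omega
      · intro x hx
        rw [mem_sdiff] at hx
        rw [mem_compl]
        exact hx.2
      · simp only
        omega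
    · intro A1 _ A2 _ h
      simp only [Prod.mk.injEq] at h
      have e1 : A1 = (A ∩ A1) ∪ (A1 \ A) := by
        ext x; simp only [mem_union, mem_inter, mem_sdiff]; tauto
      have e2 : A2 = (A ∩ A2) ∪ (A2 \ A) := by
        ext x; simp only [mem_union, mem_inter, mem_sdiff]; tauto
      rw [e1, e2, h.1, h.2]
  refine h.trans ?_
  rw [card_product, card_powersetCard, card_powersetCard, hA, card_compl, Fintype.card_fin, hA,
    Nat.choose_symm hj]

theorem sum_recip_choose_le {n k : ℕ} (hk : 2 * k ≤ n) (X : Finset (Finset (Fin n)))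
    (hX : X ⊆ Lv n k) (A : Finset (Fin n)) (hA : A.card = k) (j0 : ℕ) (hj0 : j0 ≤ k / 2) :
    ∑ A' ∈ X, (1 : ℝ) / ((n - k).choose (A \ A').card : ℝ) ≤
      (X.card : ℝ) / (k.choose j0 : ℝ) + 2 ^ k * ((k.choose j0 : ℝ) / (k.choose (k / 2) : ℝ)) := by
  have hdk : ∀ A' : Finset (Fin n), (A \ A').card ≤ k := fun A' => by
    rw [← hA]; exact card_le_card sdiff_subset
  rw [← Finset.sum_filter_add_sum_filter_not X (fun A' => j0 ≤ (A \ A').card ∧ (A \ A').card ≤ k - j0)]
  have hcj : (0 : ℝ) < k.choose j0 := by
    have := Nat.choose_pos (show j0 ≤ k by omega)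
    exact_mod_cast this
  refine add_le_add ?_ ?_
  · have h1 : ∀ A' ∈ X.filter (fun A' => j0 ≤ (A \ A').card ∧ (A \ A').card ≤ k - j0),
        (1 : ℝ) / ((n - k).choose (A \ A').card : ℝ) ≤ 1 / (k.choose j0 : ℝ) := by
      intro A' hA'
      rw [mem_filter] at hA'
      obtain ⟨-, h2, h3⟩ := hA'
      set j := (A \ A').card with hj
      have h4 : k.choose j0 ≤ (n - k).choose j := by
        have h5 : k.choose j0 ≤ k.choose j := by
          by_cases h6 : j ≤ k / 2
          · exact choose_mono_half h2 h6
          · have h7 : k.choose j = k.choose (k - j) := (Nat.choose_symm (by omega)).symm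
            rw [h7]
            exact choose_mono_half (by omega) (by omega)
        exact h5.trans (Nat.choose_le_choose j (by omega))
      exact one_div_le_one_div_of_le hcj (by exact_mod_cast h4)
    refine (Finset.sum_le_sum h1).trans ?_
    rw [Finset.sum_const, nsmul_eq_mul, mul_one_div]
    exact div_le_div_of_nonneg_right (by exact_mod_cast card_le_card (filter_subset _ _)) hcj.le
  · refine le_trans ?_ (two_mul_sum_lt hj0)
    have h1 : ∑ A' ∈ X.filter (fun A' => ¬ (j0 ≤ (A \ A').card ∧ (A \ A').card ≤ k - j0)),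
        (1 : ℝ) / ((n - k).choose (A \ A').card : ℝ) ≤
        ∑ j ∈ (range (k + 1)).filter (fun j => ¬ (j0 ≤ j ∧ j ≤ k - j0)),
          ∑ A' ∈ (Lv n k).filter (fun A' => (A \ A').card = j),
            (1 : ℝ) / ((n - k).choose (A \ A').card : ℝ) := by
      have h2 : ∑ A' ∈ X.filter (fun A' => ¬ (j0 ≤ (A \ A').card ∧ (A \ A').card ≤ k - j0)),
        (1 : ℝ) / ((n - k).choose (A \ A').card : ℝ) ≤
        ∑ A' ∈ (Lv n k).filter (fun A' => ¬ (j0 ≤ (A \ A').card ∧ (A \ A').card ≤ k - j0)),
        (1 : ℝ) / ((n - k).choose (A \ A').card : ℝ) :=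
        Finset.sum_le_sum_of_subset_of_nonneg (Finset.filter_subset_filter _ hX)
          (fun _ _ _ => by positivity)
      refine h2.trans (le_of_eq ?_)
      rw [← Finset.sum_fiberwise_of_maps_to (g := fun A' => (A \ A').card)
        (t := (range (k + 1)).filter (fun j => ¬ (j0 ≤ j ∧ j ≤ k - j0)))]
      · refine Finset.sum_congr rfl fun j hj => ?_
        rw [mem_filter] at hj
        refine Finset.sum_congr ?_ fun _ _ => rfl
        ext A'
        simp only [mem_filter]
        constructor
        · rintro ⟨⟨h3, -⟩, h4⟩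
          exact ⟨h3, h4⟩
        · rintro ⟨h3, h4⟩
          refine ⟨⟨h3, ?_⟩, h4⟩
          rw [h4]
          exact hj.2
      · intro A' hA'
        rw [mem_filter] at hA' ⊢
        rw [mem_range]
        exact ⟨by have := hdk A'; omega, hA'.2⟩
    refine h1.trans ?_
    have h3 : ∀ j ∈ (range (k + 1)).filter (fun j => ¬ (j0 ≤ j ∧ j ≤ k - j0)),
        (∑ A' ∈ (Lv n k).filter (fun A' => (A \ A').card = j),
            (1 : ℝ) / ((n - k).choose (A \ A').card : ℝ)) ≤ k.choose j := by
      intro j hj
      rw [mem_filter, mem_range] at hj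
      have h4 : ∀ A' ∈ (Lv n k).filter (fun A' => (A \ A').card = j),
          (1 : ℝ) / ((n - k).choose (A \ A').card : ℝ) = 1 / ((n - k).choose j : ℝ) := by
        intro A' hA'
        rw [(mem_filter.1 hA').2]
      rw [Finset.sum_congr rfl h4, Finset.sum_const, nsmul_eq_mul, mul_one_div]
      have h5 : (0 : ℝ) < (n - k).choose j := by
        have := Nat.choose_pos (show j ≤ n - k by omega)
        exact_mod_cast this
      rw [div_le_iff₀ h5]
      have h6 := card_dist_le (n := n) (j := j) A hA (by omega)
      exact_mod_cast h6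
    refine (Finset.sum_le_sum h3).trans ?_
    have h4 : (range (k + 1)).filter (fun j => ¬ (j0 ≤ j ∧ j ≤ k - j0)) =
        range j0 ∪ (range j0).image (fun j => k - j) := by
      ext j
      rw [mem_filter, mem_range, mem_union, mem_range, mem_image]
      constructor
      · rintro ⟨h5, h6⟩
        by_cases h7 : j < j0
        · exact Or.inl h7
        · right
          refine ⟨k - j, ?_, by omega⟩
          rw [mem_range]
          omega
      · rintro (h5 | ⟨i, hi, rfl⟩)
        · omega
        · rw [mem_range] at hi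
          omega
    rw [h4]
    have h5 : Disjoint (range j0) ((range j0).image (fun j => k - j)) := by
      rw [disjoint_left]
      intro j hj hj'
      rw [mem_range] at hj
      rw [mem_image] at hj'
      obtain ⟨i, hi, hij⟩ := hj'
      rw [mem_range] at hi
      omega
    rw [sum_union h5, sum_image (by
      intro a ha b hb hab
      simp only [coe_range, Set.mem_Iio] at ha hb
      simp only at hab
      omega)]
    have h6 : ∑ j ∈ range j0, (k.choose (k - j) : ℝ) = ∑ j ∈ range j0, (k.choose j : ℝ) := by
      refine sum_congr rfl fun j hj => ?_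
      rw [mem_range] at hj
      rw [Nat.choose_symm (by omega)]
    rw [h6]
    linarith

theorem choose_le_mid {n k : ℕ} (hk : 2 * k ≤ n) :
    n.choose k ≤ 2 ^ (n - 2 * k) * (2 ^ k * k.choose (k / 2)) := by
  obtain ⟨t, rfl⟩ := Nat.exists_eq_add_of_le hk
  induction t with
  | zero =>
    rw [Nat.add_zero, Nat.sub_self, pow_zero, one_mul, ← Nat.sum_range_choose_sq]
    calc ∑ i ∈ range (k + 1), k.choose i ^ 2 ≤ ∑ i ∈ range (k + 1), k.choose i * k.choose (k / 2) := by
          refine sum_le_sum fun i _ => ?_
          rw [sq]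
          exact Nat.mul_le_mul_left _ (Nat.choose_le_middle i k)
      _ = 2 ^ k * k.choose (k / 2) := by rw [← sum_mul, Nat.sum_range_choose]
  | succ t ih =>
    have ih' := ih (by omega)
    have e1 : 2 * k + (t + 1) - 2 * k = (2 * k + t - 2 * k) + 1 := by omega
    rw [e1, pow_succ]
    have h1 : (2 * k + (t + 1)).choose k ≤ 2 * (2 * k + t).choose k := by
      cases k with
      | zero => simp
      | succ k =>
        have e2 : 2 * (k + 1) + (t + 1) = (2 * (k + 1) + t) + 1 := by omega
        rw [e2, Nat.choose_succ_succ, Nat.succ_eq_add_one]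
        have h2 : (2 * (k + 1) + t).choose k ≤ (2 * (k + 1) + t).choose (k + 1) :=
          Nat.choose_le_succ_of_lt_half_left (by omega)
        omega
    calc (2 * k + (t + 1)).choose k ≤ 2 * (2 * k + t).choose k := h1
      _ ≤ 2 * (2 ^ (2 * k + t - 2 * k) * (2 ^ k * k.choose (k / 2))) := Nat.mul_le_mul_left _ ih'
      _ = _ := by ring

end Pool.Agent.OrthoChains
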