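import Mathlib

set_option autoImplicit false

/-!
# OC1: a cost matching lemma
-/

open Finset

namespace Pool.Agent.OrthoChains

/-- Integral form of the fractional matching: edge multiplicities `f a b ≤ c` with all row sums at
least `Q` and all column sums at most `Q`. -/
theorem frac_matching {α : Type*} [DecidableEq α] (S T : Finset α) (H : α → α → Prop)
    [DecidableRel H] (Q c : ℕ)
    (hall : ∀ X ⊆ S, ∀ Y ⊆ T, Q * X.card ≤ Q * Y.card +
      c * ((X ×ˢ (T \ Y)).filter (fun p => H p.1 p.2)).card) :
    ∃ f : α → α → ℕ, (∀ a b, f a b ≤ c) ∧ (∀ a b, f a b ≠ 0 → a ∈ S ∧ b ∈ T ∧ H a b) ∧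
      (∀ a ∈ S, Q ≤ ∑ b ∈ T, f a b) ∧ ∀ b ∈ T, ∑ a ∈ S, f a b ≤ Q := by
  classical
  set deg : α → ℕ := fun a => (T.filter (fun b => H a b)).card with hdeg
  -- the items
  set I : Finset ((α × α) × ℕ) := ((S ×ˢ T).filter (fun p => H p.1 p.2)) ×ˢ range c with hI
  -- the slots of an item
  set sl : ((α × α) × ℕ) → Finset (Bool × α × ℕ) := fun e =>
    (({true} : Finset Bool) ×ˢ ({e.1.1} : Finset α) ×ˢ range (c * deg e.1.1 - Q)) ∪
      (({false} : Finset Bool) ×ˢ ({e.1.2} : Finset α) ×ˢ range Q) with hsl
  have hdeg1 : ∀ a ∈ S, Q ≤ c * deg a := by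
    intro a ha
    have h := hall {a} (singleton_subset_iff.2 ha) ∅ (empty_subset _)
    rw [card_singleton, card_empty, mul_one, mul_zero, zero_add, sdiff_empty] at h
    refine h.trans (Nat.mul_le_mul_left c (le_of_eq ?_))
    rw [hdeg]
    refine card_bij (fun p _ => p.2) ?_ ?_ ?_
    · intro p hp
      simp only [mem_filter, mem_product, mem_singleton] at hp ⊢
      exact ⟨hp.1.2, hp.1.1 ▸ hp.2⟩
    · intro p hp q hq h
      simp only [mem_filter, mem_product, mem_singleton] at hp hq
      exact Prod.ext (hp.1.1.trans hq.1.1.symm) h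
    · intro b hb
      simp only [mem_filter] at hb
      exact ⟨(a, b), by simp [hb.1, hb.2], rfl⟩
  -- Hall's condition
  have hHall : ∀ Z : Finset I, Z.card ≤ (Z.biUnion fun e => sl e.1).card := by
    intro Z
    set X := Z.image (fun e => e.1.1.1) with hX
    set Y := Z.image (fun e => e.1.1.2) with hY
    have hXS : X ⊆ S := by
      intro a ha
      obtain ⟨e, _, rfl⟩ := mem_image.1 ha
      exact (mem_product.1 (mem_filter.1 (mem_product.1 e.2).1).1).1
    have hYT : Y ⊆ T := by
      intro b hb
      obtain ⟨e, _, rfl⟩ := mem_image.1 hb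
      exact (mem_product.1 (mem_filter.1 (mem_product.1 e.2).1).1).2
    have h1 : Z.card ≤ c * ((X ×ˢ Y).filter (fun p => H p.1 p.2)).card := by
      calc Z.card = (Z.image (fun e => e.1)).card :=
            (card_image_of_injective _ Subtype.val_injective).symm
        _ ≤ (((X ×ˢ Y).filter (fun p => H p.1 p.2)) ×ˢ range c).card := by
            apply card_le_card
            intro e he
            obtain ⟨e', he', rfl⟩ := mem_image.1 he
            have hm := mem_product.1 e'.2
            have hm1 := mem_filter.1 hm.1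
            exact mem_product.2 ⟨mem_filter.2 ⟨mem_product.2
              ⟨mem_image_of_mem (fun e : I => e.1.1.1) he',
                mem_image_of_mem (fun e : I => e.1.1.2) he'⟩, hm1.2⟩, hm.2⟩
        _ = c * ((X ×ˢ Y).filter (fun p => H p.1 p.2)).card := by
            rw [card_product, card_range, mul_comm]
    have h2 : (X ×ˢ Y).filter (fun p => H p.1 p.2) =
        ((X ×ˢ T).filter (fun p => H p.1 p.2)) \ ((X ×ˢ (T \ Y)).filter (fun p => H p.1 p.2)) := by
      ext p
      simp only [mem_filter, mem_product, mem_sdiff]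
      constructor
      · rintro ⟨⟨h1, h2⟩, h3⟩
        exact ⟨⟨⟨h1, hYT h2⟩, h3⟩, fun h => h.1.2.2 h2⟩
      · rintro ⟨⟨⟨h1, h2⟩, h3⟩, h4⟩
        refine ⟨⟨h1, ?_⟩, h3⟩
        by_contra h5
        exact h4 ⟨⟨h1, h2, h5⟩, h3⟩
    have h3 : ((X ×ˢ (T \ Y)).filter (fun p => H p.1 p.2)) ⊆
        ((X ×ˢ T).filter (fun p => H p.1 p.2)) := by
      intro p
      simp only [mem_filter, mem_product, mem_sdiff]
      rintro ⟨⟨h1, h2⟩, h3⟩
      exact ⟨⟨h1, h2.1⟩, h3⟩
    have h4 : ((X ×ˢ T).filter (fun p => H p.1 p.2)).card = ∑ a ∈ X, deg a := by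
      rw [card_filter, sum_product]
      refine sum_congr rfl fun a _ => ?_
      rw [hdeg]
      simp only
      rw [card_filter]
    have h5 := hall X hXS Y hYT
    have h6 : Q * X.card + ∑ a ∈ X, (c * deg a - Q) = c * ∑ a ∈ X, deg a := by
      rw [mul_sum, mul_comm, ← smul_eq_mul, ← sum_const, ← sum_add_distrib]
      refine sum_congr rfl fun a ha => ?_
      have := hdeg1 a (hXS ha)
      omega
    have h7 : (∑ a ∈ X, (c * deg a - Q)) + Q * Y.card ≤ (Z.biUnion fun e => sl e.1).card := by
      have hsub : (X.biUnion fun a => (({true} : Finset Bool) ×ˢ ({a} : Finset α) ×ˢ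
            range (c * deg a - Q))) ∪ (({false} : Finset Bool) ×ˢ Y ×ˢ range Q) ⊆
          Z.biUnion fun e => sl e.1 := by
        intro s hs
        rw [mem_biUnion]
        rcases mem_union.1 hs with hs | hs
        · obtain ⟨a, ha, hs⟩ := mem_biUnion.1 hs
          obtain ⟨e, he, rfl⟩ := mem_image.1 ha
          exact ⟨e, he, mem_union_left _ hs⟩
        · simp only [mem_product, mem_singleton, mem_range] at hs
          obtain ⟨e, he, hb⟩ := mem_image.1 hs.2.1
          refine ⟨e, he, mem_union_right _ ?_⟩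
          simp only [mem_product, mem_singleton, mem_range]
          exact ⟨hs.1, hb.symm, hs.2.2⟩
      refine le_trans (le_of_eq ?_) (card_le_card hsub)
      rw [card_union_of_disjoint, card_biUnion]
      · congr 1
        · refine sum_congr rfl fun a _ => ?_
          simp
        · simp [mul_comm]
      · intro a _ a' _ hne
        rw [Function.onFun, disjoint_left]
        intro s hs hs'
        simp only [mem_product, mem_singleton, mem_range] at hs hs'
        exact hne (hs.2.1.symm.trans hs'.2.1)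
      · rw [disjoint_left]
        intro s hs hs'
        obtain ⟨a, _, hs⟩ := mem_biUnion.1 hs
        simp only [mem_product, mem_singleton, mem_range] at hs hs'
        have := hs.1.symm.trans hs'.1
        simp at this
    rw [h2, card_sdiff_of_subset h3, h4] at h1
    have h8 := card_le_card h3
    rw [h4] at h8
    rw [Nat.mul_sub] at h1
    have h9 := Nat.mul_le_mul_left c h8
    omega
  obtain ⟨g, hginj, hg⟩ := (Finset.all_card_le_biUnion_card_iff_exists_injective
    (fun e : I => sl e.1)).1 hHall
  -- accepted items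
  set acc : Finset I := univ.filter (fun e => (g e).1 = false) with hacc
  set f : α → α → ℕ := fun a b => (acc.filter (fun e => e.1.1 = (a, b))).card with hf
  have hmemI : ∀ e : I, e.1.1.1 ∈ S ∧ e.1.1.2 ∈ T ∧ H e.1.1.1 e.1.1.2 ∧ e.1.2 < c := by
    intro e
    have h1 := mem_product.1 e.2
    have h2 := mem_filter.1 h1.1
    have h3 := mem_product.1 h2.1
    exact ⟨h3.1, h3.2, h2.2, mem_range.1 h1.2⟩
  have hgT : ∀ e : I, (g e).1 = true → (g e).2.1 = e.1.1.1 ∧ (g e).2.2 < c * deg e.1.1.1 - Q := by
    intro e he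
    rcases mem_union.1 (hg e) with h | h
    · simp only [mem_product, mem_singleton, mem_range] at h
      exact ⟨h.2.1, h.2.2⟩
    · simp only [mem_product, mem_singleton, mem_range] at h
      rw [he] at h
      simp at h
  have hgF : ∀ e : I, (g e).1 = false → (g e).2.1 = e.1.1.2 ∧ (g e).2.2 < Q := by
    intro e he
    rcases mem_union.1 (hg e) with h | h
    · simp only [mem_product, mem_singleton, mem_range] at h
      rw [he] at h
      simp at h
    · simp only [mem_product, mem_singleton, mem_range] at h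
      exact ⟨h.2.1, h.2.2⟩
  refine ⟨f, ?_, ?_, ?_, ?_⟩
  · intro a b
    have h := card_le_card_of_injOn (s := acc.filter (fun e => e.1.1 = (a, b))) (t := range c)
      (fun e => e.1.2) (fun e _ => by simpa using (hmemI e).2.2.2) (by
        intro e he e' he' h
        have h1 := (mem_filter.1 (mem_coe.1 he)).2
        have h2 := (mem_filter.1 (mem_coe.1 he')).2
        exact Subtype.ext (Prod.ext (h1.trans h2.symm) h))
    simpa using h
  · intro a b hab
    obtain ⟨e, he⟩ := card_ne_zero.1 hab
    have h := (mem_filter.1 he).2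
    have h' := hmemI e
    rw [h] at h'
    exact ⟨h'.1, h'.2.1, h'.2.2.1⟩
  · intro a ha
    -- all items at `a`
    set Ia : Finset I := univ.filter (fun e => e.1.1.1 = a) with hIa
    have hcardIa : Ia.card = c * deg a := by
      have : Ia.image (fun e => e.1) = ((({a} : Finset α) ×ˢ (T.filter (fun b => H a b)))) ×ˢ
          range c := by
        ext e
        simp only [hIa, mem_image, mem_filter, mem_univ, true_and, mem_product, mem_singleton,
          mem_range]
        constructor
        · rintro ⟨e', he', rfl⟩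
          have := hmemI e'
          exact ⟨⟨he', this.2.1, he' ▸ this.2.2.1⟩, this.2.2.2⟩
        · rintro ⟨⟨h1, h2, h3⟩, h4⟩
          refine ⟨⟨e, ?_⟩, h1, rfl⟩
          rw [hI]
          simp only [mem_product, mem_filter, mem_range]
          exact ⟨⟨⟨h1 ▸ ha, h2⟩, h1 ▸ h3⟩, h4⟩
      rw [← card_image_of_injective Ia Subtype.val_injective]
      change (Ia.image (fun e => e.1)).card = _
      rw [this]
      simp [hdeg, mul_comm]
    have hrej : (Ia.filter (fun e => (g e).1 = true)).card ≤ c * deg a - Q := by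
      have h := card_le_card_of_injOn (s := Ia.filter (fun e => (g e).1 = true))
        (t := range (c * deg a - Q)) (fun e => (g e).2.2) (by
          intro e he
          have h1 := mem_filter.1 (mem_coe.1 he)
          have h2 := (hgT e h1.2).2
          rw [(mem_filter.1 h1.1).2] at h2
          simpa using h2) (by
          intro e he e' he' h
          have h1 := mem_filter.1 (mem_coe.1 he)
          have h2 := mem_filter.1 (mem_coe.1 he')
          apply hginj
          refine Prod.ext (h1.2.trans h2.2.symm) (Prod.ext ?_ h)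
          rw [(hgT e h1.2).1, (hgT e' h2.2).1, (mem_filter.1 h1.1).2, (mem_filter.1 h2.1).2])
      simpa using h
    have hsplit : Ia.card = (Ia.filter (fun e => (g e).1 = true)).card +
        (Ia.filter (fun e => ¬ (g e).1 = true)).card :=
      (card_filter_add_card_filter_not (s := Ia) (fun e => (g e).1 = true)).symm
    have hacc2 : (Ia.filter (fun e => ¬ (g e).1 = true)).card = ∑ b ∈ T, f a b := by
      have : Ia.filter (fun e => ¬ (g e).1 = true) =
          T.biUnion (fun b => acc.filter (fun e => e.1.1 = (a, b))) := by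
        ext e
        simp only [hIa, hacc, mem_filter, mem_univ, true_and, mem_biUnion, Bool.not_eq_true]
        constructor
        · rintro ⟨h1, h2⟩
          exact ⟨e.1.1.2, (hmemI e).2.1, h2, Prod.ext h1 rfl⟩
        · rintro ⟨b, _, h2, h3⟩
          exact ⟨by rw [h3], h2⟩
      rw [this, card_biUnion]
      intro b _ b' _ hne
      rw [Function.onFun, disjoint_left]
      intro e he he'
      have h1 := (mem_filter.1 he).2
      have h2 := (mem_filter.1 he').2
      exact hne (Prod.ext_iff.1 (h1.symm.trans h2)).2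
    have := hdeg1 a ha
    omega
  · intro b _
    have hsum : ∑ a ∈ S, f a b = (acc.filter (fun e => e.1.1.2 = b)).card := by
      have : acc.filter (fun e => e.1.1.2 = b) =
          S.biUnion (fun a => acc.filter (fun e => e.1.1 = (a, b))) := by
        ext e
        simp only [mem_filter, mem_biUnion]
        constructor
        · rintro ⟨h1, h2⟩
          exact ⟨e.1.1.1, (hmemI e).1, h1, Prod.ext rfl h2⟩
        · rintro ⟨a, _, h2, h3⟩
          exact ⟨h2, by rw [h3]⟩
      rw [this, card_biUnion]
      intro a _ a' _ hne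
      rw [Function.onFun, disjoint_left]
      intro e he he'
      have h1 := (mem_filter.1 he).2
      have h2 := (mem_filter.1 he').2
      exact hne (Prod.ext_iff.1 (h1.symm.trans h2)).1
    rw [hsum]
    have h := card_le_card_of_injOn (s := acc.filter (fun e => e.1.1.2 = b))
      (t := range Q) (fun e => (g e).2.2) (by
        intro e he
        have h1 := mem_filter.1 (mem_coe.1 he)
        have h2 := (hgF e (mem_filter.1 h1.1).2).2
        simpa using h2) (by
        intro e he e' he' h
        have h1 := mem_filter.1 (mem_coe.1 he)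
        have h2 := mem_filter.1 (mem_coe.1 he')
        have h3 := (mem_filter.1 h1.1).2
        have h4 := (mem_filter.1 h2.1).2
        apply hginj
        refine Prod.ext (h3.trans h4.symm) (Prod.ext ?_ h)
        rw [(hgF e h3).1, (hgF e' h4).1, h1.2, h2.2])
    simpa using h

/-- OC1: the cost matching lemma. -/
theorem cost_matching {α : Type*} [DecidableEq α] (S T : Finset α) (H : α → α → Prop)
    [DecidableRel H] (Q c : ℕ) (hQ : 0 < Q)
    (hall : ∀ X ⊆ S, ∀ Y ⊆ T, Q * X.card ≤ Q * Y.card +
      c * ((X ×ˢ (T \ Y)).filter (fun p => H p.1 p.2)).card)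
    (cost : α → α → ℝ) (hc : ∀ a b, 0 ≤ cost a b) :
    ∃ M : α → α, (∀ a ∈ S, M a ∈ T ∧ H a (M a)) ∧ Set.InjOn M S ∧
      ∑ a ∈ S, cost a (M a) ≤
        (c / Q : ℝ) * ∑ p ∈ (S ×ˢ T).filter (fun p => H p.1 p.2), cost p.1 p.2 := by
  classical
  obtain ⟨f, hfc, hfH, hrow, hcol⟩ := frac_matching S T H Q c hall
  have hQR : (0 : ℝ) < Q := by exact_mod_cast hQ
  -- the fractional matching
  set r : α → ℝ := fun a => ((∑ b ∈ T, f a b : ℕ) : ℝ) with hr
  have hrQ : ∀ a ∈ S, (Q : ℝ) ≤ r a := fun a ha => by
    simp only [hr]; exact_mod_cast hrow a ha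
  set x : α → α → ℝ := fun a b => (f a b : ℝ) / r a with hx
  have hr0 : ∀ a ∈ S, 0 < r a := fun a ha => hQR.trans_le (hrQ a ha)
  have hx0 : ∀ a ∈ S, ∀ b, 0 ≤ x a b := fun a ha b =>
    div_nonneg (Nat.cast_nonneg _) (hr0 a ha).le
  have hxrow : ∀ a ∈ S, ∑ b ∈ T, x a b = 1 := by
    intro a ha
    simp only [hx]
    rw [← sum_div, div_eq_one_iff_eq (hr0 a ha).ne', hr]
    push_cast
    rfl
  have hxcol : ∀ b ∈ T, ∑ a ∈ S, x a b ≤ 1 := by
    intro b hb
    calc ∑ a ∈ S, x a b ≤ ∑ a ∈ S, (f a b : ℝ) / Q := by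
          refine sum_le_sum fun a ha => ?_
          exact div_le_div_of_nonneg_left (Nat.cast_nonneg _) hQR (hrQ a ha)
      _ = ((∑ a ∈ S, f a b : ℕ) : ℝ) / Q := by rw [← sum_div]; push_cast; rfl
      _ ≤ 1 := by
          rw [div_le_one hQR]
          exact_mod_cast hcol b hb
  have hxc : ∀ a ∈ S, ∀ b, x a b ≤ (c : ℝ) / Q := by
    intro a ha b
    calc x a b ≤ (f a b : ℝ) / Q :=
          div_le_div_of_nonneg_left (Nat.cast_nonneg _) hQR (hrQ a ha)
      _ ≤ (c : ℝ) / Q := by
          gcongr
          exact_mod_cast hfc a b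
  have hxH : ∀ a b, x a b ≠ 0 → a ∈ S ∧ b ∈ T ∧ H a b := by
    intro a b h
    apply hfH
    intro h0
    apply h
    simp [hx, h0]
  -- the doubly stochastic matrix
  set Mt : Matrix (S ⊕ T) (S ⊕ T) ℝ := fun i j =>
    match i, j with
    | .inl _, .inl _ => 0
    | .inl a, .inr b => x a b
    | .inr b, .inl a => x a b
    | .inr b, .inr b' => if b = b' then 1 - ∑ a ∈ S, x a b else 0 with hMt
  have hMds : Mt ∈ doublyStochastic ℝ (S ⊕ T) := by
    rw [mem_doublyStochastic_iff_sum]
    refine ⟨?_, ?_, ?_⟩
    · rintro (a | b) (a' | b')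
      · exact le_rfl
      · exact hx0 a a.2 b'
      · exact hx0 a' a'.2 b
      · simp only [hMt]
        split_ifs
        · linarith [hxcol b b.2]
        · exact le_rfl
    · rintro (a | b)
      · rw [Fintype.sum_sum_type]
        simp only [hMt, sum_const_zero, zero_add]
        rw [← hxrow a a.2]
        exact sum_coe_sort T (fun b => x a b)
      · rw [Fintype.sum_sum_type]
        simp only [hMt, sum_ite_eq, mem_univ, if_true]
        rw [sum_coe_sort S (fun a => x a b)]
        ring
    · rintro (a | b)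
      · rw [Fintype.sum_sum_type]
        simp only [hMt, sum_const_zero, zero_add]
        rw [← hxrow a a.2]
        exact sum_coe_sort T (fun b => x a b)
      · rw [Fintype.sum_sum_type]
        simp only [hMt]
        rw [sum_coe_sort S (fun a => x a b), sum_eq_single b]
        · rw [if_pos rfl]; ring
        · intro b' _ hne
          rw [if_neg hne]
        · intro h; exact absurd (mem_univ _) h
  obtain ⟨w, hw0, hw1, hwM⟩ := exists_eq_sum_perm_of_mem_doublyStochastic hMds
  have hent : ∀ i j, Mt i j = ∑ σ : Equiv.Perm (S ⊕ T), w σ * (if σ i = j then 1 else 0) := by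
    intro i j
    rw [← hwM, Matrix.sum_apply]
    refine sum_congr rfl fun σ _ => ?_
    rw [Matrix.smul_apply, smul_eq_mul, Equiv.Perm.permMatrix, PEquiv.toMatrix_apply]
    simp [Equiv.toPEquiv_apply, eq_comm]
  -- the cost of a permutation
  set κ : S → (S ⊕ T) → ℝ := fun a j =>
    match j with
    | .inl _ => 0
    | .inr b => cost a b with hκ
  set Cs : Equiv.Perm (S ⊕ T) → ℝ := fun σ => ∑ a : S, κ a (σ (.inl a)) with hCs
  have havg : ∑ σ, w σ * Cs σ = ∑ a : S, ∑ b : T, cost a b * x a b := by
    have h1 : ∀ a : S, ∑ σ, w σ * κ a (σ (.inl a)) = ∑ j, κ a j * Mt (.inl a) j := by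
      intro a
      simp only [hent, mul_sum]
      rw [sum_comm]
      refine sum_congr rfl fun σ _ => ?_
      rw [sum_eq_single (σ (.inl a))]
      · rw [if_pos rfl]; ring
      · intro j _ hne
        rw [if_neg (fun h => hne h.symm)]; ring
      · intro h; exact absurd (mem_univ _) h
    calc ∑ σ, w σ * Cs σ = ∑ σ, ∑ a : S, w σ * κ a (σ (.inl a)) := by
          simp only [hCs, mul_sum]
      _ = ∑ a : S, ∑ σ, w σ * κ a (σ (.inl a)) := sum_comm
      _ = ∑ a : S, ∑ b : T, cost a b * x a b := by
          refine sum_congr rfl fun a _ => ?_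
          rw [h1, Fintype.sum_sum_type]
          simp only [hκ, hMt, zero_mul, sum_const_zero, zero_add]
  obtain ⟨σ, hσw, hσC⟩ : ∃ σ, 0 < w σ ∧ Cs σ ≤ ∑ a : S, ∑ b : T, cost a b * x a b := by
    by_contra hcon
    push Not at hcon
    have hle : ∀ σ ∈ (univ : Finset (Equiv.Perm (S ⊕ T))),
        w σ * (∑ a : S, ∑ b : T, cost a b * x a b) ≤ w σ * Cs σ := by
      intro σ _
      rcases (hw0 σ).eq_or_lt with h | h
      · rw [← h]; simp
      · exact mul_le_mul_of_nonneg_left (hcon σ h).le h.le
    obtain ⟨σ0, hσ0⟩ : ∃ σ, 0 < w σ := by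
      by_contra h
      push Not at h
      have : ∑ σ, w σ ≤ 0 := sum_nonpos fun σ _ => h σ
      linarith
    have hlt : ∑ σ, w σ * (∑ a : S, ∑ b : T, cost a b * x a b) < ∑ σ, w σ * Cs σ :=
      sum_lt_sum hle ⟨σ0, mem_univ _, mul_lt_mul_of_pos_left (hcon σ0 hσ0) hσ0⟩
    rw [← sum_mul, hw1, one_mul, havg] at hlt
    exact lt_irrefl _ hlt
  have hpos : ∀ i, 0 < Mt i (σ i) := by
    intro i
    rw [hent]
    refine lt_of_lt_of_le hσw ?_
    have h := single_le_sum (s := (univ : Finset (Equiv.Perm (S ⊕ T))))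
      (f := fun τ => w τ * (if τ i = σ i then (1 : ℝ) else 0)) (by
        intro τ _
        refine mul_nonneg (hw0 τ) ?_
        split_ifs <;> norm_num) (mem_univ σ)
    simpa using h
  have hσ : ∀ a : S, ∃ b : T, σ (.inl a) = .inr b ∧ H a b := by
    intro a
    have h := hpos (.inl a)
    rcases hj : σ (.inl a) with a' | b
    · rw [hj] at h
      simp [hMt] at h
    · rw [hj] at h
      refine ⟨b, rfl, ?_⟩
      have h' : x a b ≠ 0 := ne_of_gt h
      exact (hxH a b h').2.2
  choose m hm hmH using hσ
  refine ⟨fun a => if h : a ∈ S then m ⟨a, h⟩ else a, ?_, ?_, ?_⟩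
  · intro a ha
    simp only [dif_pos ha]
    exact ⟨(m ⟨a, ha⟩).2, hmH ⟨a, ha⟩⟩
  · intro a ha a' ha' h
    have ha1 : a ∈ S := ha
    have ha2 : a' ∈ S := ha'
    simp only [dif_pos ha1, dif_pos ha2] at h
    have h1 : m ⟨a, ha1⟩ = m ⟨a', ha2⟩ := Subtype.ext h
    have h2 : σ (.inl ⟨a, ha1⟩) = σ (.inl ⟨a', ha2⟩) := by rw [hm, hm, h1]
    have h3 := σ.injective h2
    exact congrArg Subtype.val (Sum.inl.inj h3)
  · have e1 : ∑ a ∈ S, cost a (if h : a ∈ S then (m ⟨a, h⟩ : α) else a) = Cs σ := by
      rw [← sum_coe_sort S, hCs]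
      refine sum_congr rfl fun a _ => ?_
      rw [hm a]
      simp only [hκ, dif_pos a.2]
    rw [e1]
    refine hσC.trans ?_
    rw [mul_sum]
    calc ∑ a : S, ∑ b : T, cost a b * x a b
        = ∑ a ∈ S, ∑ b ∈ T, cost a b * x a b := by
          rw [← sum_coe_sort S]
          refine sum_congr rfl fun a _ => ?_
          rw [← sum_coe_sort T]
      _ = ∑ p ∈ S ×ˢ T, cost p.1 p.2 * x p.1 p.2 :=
          (sum_product S T (fun p : α × α => cost p.1 p.2 * x p.1 p.2)).symm
      _ = ∑ p ∈ (S ×ˢ T).filter (fun p => H p.1 p.2), cost p.1 p.2 * x p.1 p.2 := by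
          symm
          apply sum_filter_of_ne
          intro p _ hp
          have : x p.1 p.2 ≠ 0 := right_ne_zero_of_mul hp
          exact (hxH _ _ this).2.2
      _ ≤ ∑ p ∈ (S ×ˢ T).filter (fun p => H p.1 p.2), (c / Q : ℝ) * cost p.1 p.2 := by
          refine sum_le_sum fun p hp => ?_
          have hpS := (mem_product.1 (mem_filter.1 hp).1).1
          rw [mul_comm]
          exact mul_le_mul_of_nonneg_right (hxc _ hpS _) (hc _ _)

end Pool.Agent.OrthoChains
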