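import Pool.Agent.OrthoChains.Defs

set_option autoImplicit false

/-!
# The edge-isoperimetric inequality of the cube
-/

open Finset

namespace Pool.Agent.OrthoChains

namespace CubeIso

theorem le_logb_one_add {t : ℝ} (h0 : 0 ≤ t) (h1 : t ≤ 1) : t ≤ Real.logb 2 (1 + t) := by
  rw [Real.le_logb_iff_rpow_le (by norm_num) (by linarith)]
  have h := rpow_one_add_le_one_add_mul_self (s := (1 : ℝ)) (by norm_num) h0 h1
  have h2 : (1 : ℝ) + 1 = 2 := by norm_num
  rw [h2] at h
  linarith

theorem two_log {x y : ℝ} (hx : 0 ≤ x) (hxy : x ≤ y) :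
    x * Real.logb 2 x + y * Real.logb 2 y + 2 * x ≤ (x + y) * Real.logb 2 (x + y) := by
  rcases hx.eq_or_lt with h | h
  · rw [← h]; simp
  · have hy : 0 < y := lt_of_lt_of_le h hxy
    have h1 : 1 + Real.logb 2 x ≤ Real.logb 2 (x + y) := by
      have h2 : Real.logb 2 (2 * x) ≤ Real.logb 2 (x + y) :=
        Real.logb_le_logb_of_le (by norm_num) (by linarith) (by linarith)
      rwa [Real.logb_mul (by norm_num) h.ne', Real.logb_self_eq_one (by norm_num)] at h2
    have h3 : Real.logb 2 y + x / y ≤ Real.logb 2 (x + y) := by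
      have h4 : x + y = y * (1 + x / y) := by field_simp; ring
      have hxy0 : 0 ≤ x / y := by positivity
      rw [h4, Real.logb_mul hy.ne' (by linarith)]
      have := le_logb_one_add hxy0 ((div_le_one hy).2 hxy)
      linarith
    have h5 := mul_le_mul_of_nonneg_left h1 h.le
    have h6 := mul_le_mul_of_nonneg_left h3 hy.le
    have h7 : y * (x / y) = x := by field_simp
    nlinarith

theorem two_log' {x y : ℝ} (hx : 0 ≤ x) (hy : 0 ≤ y) :
    x * Real.logb 2 x + y * Real.logb 2 y + 2 * min x y ≤ (x + y) * Real.logb 2 (x + y) := by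
  rcases le_total x y with h | h
  · rw [min_eq_left h]; exact two_log hx h
  · rw [min_eq_right h]
    have := two_log hy h
    rw [add_comm y x] at this
    linarith

variable {ι : Type*} [DecidableEq ι]

/-- the degree of `A` in `X`, in the directions `s` -/
def dg (s : Finset ι) (X : Finset (Finset ι)) (A : Finset ι) : ℕ :=
  (s.filter fun i => symmDiff A {i} ∈ X).card

/-- the members of `X` without `a` -/
def X0 (a : ι) (X : Finset (Finset ι)) : Finset (Finset ι) := X.filter fun A => a ∉ A

/-- the members of `X` with `a`, without this element -/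
def X1 (a : ι) (X : Finset (Finset ι)) : Finset (Finset ι) :=
  (X.filter fun A => a ∈ A).image fun A => A.erase a

theorem mem_X0 {a : ι} {X : Finset (Finset ι)} {B : Finset ι} : B ∈ X0 a X ↔ B ∈ X ∧ a ∉ B := by
  unfold X0
  rw [mem_filter]

theorem mem_X1 {a : ι} {X : Finset (Finset ι)} {B : Finset ι} :
    B ∈ X1 a X ↔ a ∉ B ∧ insert a B ∈ X := by
  unfold X1
  rw [mem_image]
  constructor
  · rintro ⟨A, hA, rfl⟩
    obtain ⟨hA1, hA2⟩ := mem_filter.1 hA
    exact ⟨notMem_erase a A, by rwa [insert_erase hA2]⟩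
  · rintro ⟨h1, h2⟩
    exact ⟨insert a B, mem_filter.2 ⟨h2, mem_insert_self a B⟩, erase_insert h1⟩

theorem symm_insert {a i : ι} {B : Finset ι} (ha : a ∉ B) (hi : i ≠ a) :
    symmDiff (insert a B) {i} = insert a (symmDiff B {i}) := by
  ext x
  simp only [mem_symmDiff, mem_insert, mem_singleton]
  by_cases hx : x = a
  · subst hx
    simp [Ne.symm hi]
  · simp [hx]

theorem not_mem_symm {a i : ι} {B : Finset ι} (ha : a ∉ B) (hi : i ≠ a) :
    a ∉ symmDiff B {i} := by
  rw [mem_symmDiff, mem_singleton]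
  rintro (⟨h, _⟩ | ⟨h, _⟩)
  · exact ha h
  · exact hi h.symm

theorem dg_X0 {a : ι} {s : Finset ι} (has : a ∉ s) {X : Finset (Finset ι)} {A : Finset ι}
    (hA : A ∈ X0 a X) :
    dg (insert a s) X A = dg s (X0 a X) A + if A ∈ X1 a X then 1 else 0 := by
  have haA : a ∉ A := (mem_filter.1 hA).2
  unfold dg
  rw [filter_insert]
  have hsd : symmDiff A {a} = insert a A := by
    ext x
    simp only [mem_symmDiff, mem_singleton, mem_insert]
    by_cases hx : x = a
    · subst hx; simp [haA]
    · simp [hx]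
  have h1 : s.filter (fun i => symmDiff A {i} ∈ X) =
      s.filter (fun i => symmDiff A {i} ∈ X0 a X) := by
    refine filter_congr fun i hi => ?_
    have hia : i ≠ a := fun h => has (h ▸ hi)
    unfold X0
    rw [mem_filter]
    exact ⟨fun h => ⟨h, not_mem_symm haA hia⟩, fun h => h.1⟩
  rw [hsd]
  by_cases hc : insert a A ∈ X
  · rw [if_pos hc, if_pos (mem_X1.2 ⟨haA, hc⟩), card_insert_of_notMem, h1]
    intro h
    exact has (mem_filter.1 h).1
  · rw [if_neg hc, if_neg (fun h => hc (mem_X1.1 h).2), h1, add_zero]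

theorem dg_X1 {a : ι} {s : Finset ι} (has : a ∉ s) {X : Finset (Finset ι)} {B : Finset ι}
    (hB : B ∈ X1 a X) :
    dg (insert a s) X (insert a B) = dg s (X1 a X) B + if B ∈ X0 a X then 1 else 0 := by
  have haB : a ∉ B := (mem_X1.1 hB).1
  unfold dg
  rw [filter_insert]
  have hsd : symmDiff (insert a B) {a} = B := by
    ext x
    simp only [mem_symmDiff, mem_singleton, mem_insert]
    by_cases hx : x = a
    · subst hx; simp [haB]
    · simp [hx]
  have h1 : s.filter (fun i => symmDiff (insert a B) {i} ∈ X) =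
      s.filter (fun i => symmDiff B {i} ∈ X1 a X) := by
    refine filter_congr fun i hi => ?_
    have hia : i ≠ a := fun h => has (h ▸ hi)
    rw [mem_X1, symm_insert haB hia]
    exact ⟨fun h => ⟨not_mem_symm haB hia, h⟩, fun h => h.2⟩
  rw [hsd]
  by_cases hc : B ∈ X
  · rw [if_pos hc, if_pos (mem_X0.2 ⟨hc, haB⟩), card_insert_of_notMem, h1]
    intro h
    exact has (mem_filter.1 h).1
  · rw [if_neg hc, if_neg (fun h => hc (mem_X0.1 h).1), h1, add_zero]

theorem sum_split (a : ι) (X : Finset (Finset ι)) (f : Finset ι → ℕ) :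
    ∑ A ∈ X, f A = ∑ A ∈ X0 a X, f A + ∑ B ∈ X1 a X, f (insert a B) := by
  rw [← sum_filter_add_sum_filter_not X (fun A => a ∉ A) f]
  congr 1
  unfold X1
  rw [sum_image]
  · simp only [not_not]
    refine sum_congr rfl fun A hA => ?_
    rw [insert_erase (mem_filter.1 hA).2]
  · intro A hA B hB h
    have hA' : a ∈ A := (mem_filter.1 (mem_coe.1 hA)).2
    have hB' : a ∈ B := (mem_filter.1 (mem_coe.1 hB)).2
    have h' : A.erase a = B.erase a := h
    rw [← insert_erase hA', ← insert_erase hB', h']

theorem card_split (a : ι) (X : Finset (Finset ι)) : X.card = (X0 a X).card + (X1 a X).card := by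
  have := sum_split a X (fun _ => 1)
  simpa using this

theorem main (s : Finset ι) : ∀ X : Finset (Finset ι), (∀ A ∈ X, A ⊆ s) →
    ((∑ A ∈ X, dg s X A : ℕ) : ℝ) ≤ X.card * Real.logb 2 X.card := by
  induction s using Finset.induction_on with
  | empty =>
    intro X hX
    have h0 : ∑ A ∈ X, dg ∅ X A = 0 := by
      refine sum_eq_zero fun A _ => ?_
      simp [dg]
    rw [h0]
    have h1 : X ⊆ {∅} := fun A hA => mem_singleton.2 (subset_empty.1 (hX A hA))
    have h2 : X.card ≤ 1 := by simpa using card_le_card h1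
    interval_cases h3 : X.card <;> simp
  | insert a s has ih =>
    intro X hX
    have h0 : ∀ A ∈ X0 a X, A ⊆ s := by
      intro A hA
      obtain ⟨hA1, hA2⟩ := mem_filter.1 hA
      exact (subset_insert_iff_of_notMem hA2).1 (hX A hA1)
    have h1 : ∀ B ∈ X1 a X, B ⊆ s := by
      intro B hB
      obtain ⟨hB1, hB2⟩ := mem_X1.1 hB
      exact (subset_insert_iff_of_notMem hB1).1 ((subset_insert a B).trans (hX _ hB2))
    have ih0 := ih _ h0
    have ih1 := ih _ h1
    have hs : ∑ A ∈ X, dg (insert a s) X A = (∑ A ∈ X0 a X, dg s (X0 a X) A) +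
        (∑ B ∈ X1 a X, dg s (X1 a X) B) + 2 * (X0 a X ∩ X1 a X).card := by
      rw [sum_split a X, sum_congr rfl fun A hA => dg_X0 has hA,
        sum_congr rfl fun B hB => dg_X1 has hB, sum_add_distrib, sum_add_distrib,
        ← card_filter, ← card_filter, filter_mem_eq_inter, filter_mem_eq_inter,
        inter_comm (X1 a X) (X0 a X)]
      ring
    have hmin : ((X0 a X ∩ X1 a X).card : ℝ) ≤ min ((X0 a X).card : ℝ) ((X1 a X).card : ℝ) :=
      le_min (by exact_mod_cast card_le_card inter_subset_left)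
        (by exact_mod_cast card_le_card inter_subset_right)
    have h2 := two_log' (x := ((X0 a X).card : ℝ)) (y := ((X1 a X).card : ℝ)) (by positivity)
      (by positivity)
    have hc : (X.card : ℝ) = ((X0 a X).card : ℝ) + ((X1 a X).card : ℝ) := by
      exact_mod_cast card_split a X
    rw [hs, hc, Nat.cast_add, Nat.cast_add, Nat.cast_mul, Nat.cast_two]
    linarith

end CubeIso

open CubeIso in
theorem cube_edge_iso {ι : Type*} [Fintype ι] [DecidableEq ι] (X : Finset (Finset ι)) :
    (∑ A ∈ X, ((Finset.univ.filter (fun i => symmDiff A {i} ∈ X)).card : ℝ)) ≤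
      X.card * Real.logb 2 X.card := by
  have h := main (Finset.univ : Finset ι) X (fun A _ => subset_univ A)
  rw [Nat.cast_sum] at h
  exact h

end Pool.Agent.OrthoChains
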