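import Pool.Agent.OrthoChains.Assemble
import Pool.Prelude.Def_F_ea89b0dc

set_option autoImplicit false

open Finset Ne731736f

namespace Pool.Agent.OrthoChains

theorem of_full {n m : ℕ} (e : Fin m → Finset (Fin n) → Finset (Fin n)) (h : Full e) :
    ∃ F : Fin m → Finset (Finset (Finset (Fin n))),
      (∀ i, IsChainDecomposition (F i)) ∧ (∀ i j, i ≠ j → Orthogonal (F i) (F j)) := by
  classical
  refine ⟨fun i => Finset.univ.image (fun A => Finset.univ.filter (fun B => e i B = e i A)),
    fun i => ⟨?_, ?_, ?_, ?_⟩, fun i j hij C hC D hD => ?_⟩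
  · intro C hC
    rw [Finset.mem_image] at hC
    obtain ⟨A, -, rfl⟩ := hC
    intro X hX Y hY _
    rw [Finset.mem_coe, Finset.mem_filter] at hX hY
    exact h.chain i X Y (hX.2.trans hY.2.symm)
  · intro C hC D hD hCD
    rw [Finset.mem_coe, Finset.mem_image] at hC hD
    obtain ⟨A, -, rfl⟩ := hC
    obtain ⟨B, -, rfl⟩ := hD
    simp only [Function.onFun, id]
    rw [Finset.disjoint_left]
    intro X hX hY
    rw [Finset.mem_filter] at hX hY
    apply hCD
    ext Z
    simp only [Finset.mem_filter, Finset.mem_univ, true_and]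
    rw [← hX.2, ← hY.2]
  · rw [Finset.eq_univ_iff_forall]
    intro A
    rw [Finset.mem_biUnion]
    exact ⟨_, Finset.mem_image.2 ⟨A, Finset.mem_univ _, rfl⟩, by simp⟩
  · have h1 : Finset.univ.image (fun A => Finset.univ.filter (fun B => e i B = e i A)) =
        (Finset.univ.filter (fun A : Finset (Fin n) => A.card = n / 2)).image
          (fun A => Finset.univ.filter (fun B => e i B = e i A)) := by
      ext C
      simp only [Finset.mem_image, Finset.mem_univ, true_and, Finset.mem_filter]
      constructor
      · rintro ⟨A, rfl⟩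
        obtain ⟨M, hM, hMA⟩ := h.mid i A
        exact ⟨M, hM, by rw [hMA]⟩
      · rintro ⟨A, -, rfl⟩
        exact ⟨A, rfl⟩
    change (Finset.univ.image (fun A => Finset.univ.filter (fun B => e i B = e i A))).card = _
    rw [h1, Finset.card_image_of_injOn]
    · have h2 : (Finset.univ.filter (fun A : Finset (Fin n) => A.card = n / 2)) =
          Finset.powersetCard (n / 2) Finset.univ := by
        ext A; simp [Finset.mem_powersetCard]
      rw [h2, Finset.card_powersetCard, Finset.card_univ, Fintype.card_fin]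
    · intro A hA B hB hAB
      rw [Finset.mem_coe, Finset.mem_filter] at hA hB
      have hAB' : Finset.univ.filter (fun C => e i C = e i A) =
        Finset.univ.filter (fun C => e i C = e i B) := hAB
      have : A ∈ Finset.univ.filter (fun C => e i C = e i B) := by
        rw [← hAB']; simp
      rw [Finset.mem_filter] at this
      exact h.inj i A B hA.2 hB.2 this.2
  · rw [Finset.mem_image] at hC hD
    obtain ⟨A, -, rfl⟩ := hC
    obtain ⟨B, -, rfl⟩ := hD
    unfold ShareAtMostOne
    rw [Finset.card_le_one]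
    intro X hX Y hY
    rw [Finset.mem_inter, Finset.mem_filter, Finset.mem_filter] at hX hY
    exact h.orth i j hij X Y (hX.1.2.trans hY.1.2.symm) (hX.2.2.trans hY.2.2.symm)

theorem main (n m : ℕ) (hm : (m : ℝ) ≤ Real.logb 2 n / 1400) :
    ∃ F : Fin m → Finset (Finset (Finset (Fin n))),
      (∀ i, IsChainDecomposition (F i)) ∧ (∀ i j, i ≠ j → Orthogonal (F i) (F j)) := by
  rcases Nat.eq_zero_or_pos m with rfl | hm0
  · exact ⟨fun i => i.elim0, fun i => i.elim0, fun i => i.elim0⟩
  have h1 : ((1400 * m : ℕ) : ℝ) ≤ Real.logb 2 n := by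
    rw [le_div_iff₀ (by norm_num)] at hm
    push_cast
    linarith
  have hn0 : (0 : ℝ) < n := by
    rcases Nat.eq_zero_or_pos n with rfl | h
    · rw [Nat.cast_zero, Real.logb_zero] at h1
      have : 1400 * m ≤ 0 := by exact_mod_cast h1
      omega
    · exact_mod_cast h
  have h2 : (2 : ℝ) ^ (1400 * m) ≤ n := by
    rw [Real.le_logb_iff_rpow_le (by norm_num) hn0, Real.rpow_natCast] at h1
    exact h1
  have h3 : 2 ^ (1400 * m) ≤ n := by exact_mod_cast h2
  have h4 : 2 ^ (700 * (m + 1)) ≤ n :=
    le_trans (Nat.pow_le_pow_right (by norm_num) (by omega)) h3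
  obtain ⟨e, he⟩ := exists_full m n h4
  exact of_full e he

end Pool.Agent.OrthoChains
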