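import Mathlib

set_option autoImplicit false

open Finset

namespace Pool.Agent.OrthoChains

private def mem2 {n : ℕ} (A A' : Finset (Fin n)) (x : Fin n) : Bool × Bool :=
  (decide (x ∈ A), decide (x ∈ A'))

private theorem map_eq_iff {n : ℕ} (C A : Finset (Fin n)) (π : Equiv.Perm (Fin n)) :
    C.map π.toEmbedding = A ↔ ∀ x, (π x ∈ A ↔ x ∈ C) := by
  constructor
  · intro h x
    rw [← h]
    simp
  · intro h
    ext y
    constructor
    · intro hy
      rw [Finset.mem_map] at hy
      obtain ⟨x, hx, rfl⟩ := hy
      exact (h x).2 hx
    · intro hy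
      rw [Finset.mem_map]
      refine ⟨π.symm y, ?_, by simp⟩
      rw [← h]
      simpa using hy

private theorem cond_iff {n : ℕ} (C C' A A' : Finset (Fin n)) (π : Equiv.Perm (Fin n)) :
    (C.map π.toEmbedding = A ∧ C'.map π.toEmbedding = A') ↔ mem2 A A' ∘ π = mem2 C C' := by
  rw [map_eq_iff, map_eq_iff]
  constructor
  · rintro ⟨h, h'⟩
    funext x
    simp only [mem2, Function.comp_apply, Prod.mk.injEq]
    exact ⟨decide_eq_decide.2 (h x), decide_eq_decide.2 (h' x)⟩
  · intro h
    constructor
    · intro x
      have := congrFun h x
      simp only [mem2, Function.comp_apply, Prod.mk.injEq] at this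
      exact decide_eq_decide.1 this.1
    · intro x
      have := congrFun h x
      simp only [mem2, Function.comp_apply, Prod.mk.injEq] at this
      exact decide_eq_decide.1 this.2

private theorem fib_card {n k j : ℕ} (A A' : Finset (Fin n))
    (hA : A.card = k) (hA' : A'.card = k) (hj : (A \ A').card = j) (b : Bool × Bool) :
    Fintype.card {x : Fin n // mem2 A A' x = b} =
      match b with
      | (true, true) => k - j
      | (true, false) => j
      | (false, true) => j
      | (false, false) => n - k - j := by
  have h1 : (A \ A').card + (A ∩ A').card = A.card := Finset.card_sdiff_add_card_inter A A'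
  have h2 : (A' \ A).card + (A' ∩ A).card = A'.card := Finset.card_sdiff_add_card_inter A' A
  have h3 : (A' ∩ A).card = (A ∩ A').card := by rw [Finset.inter_comm]
  have h4 : (A ∪ A').card + (A ∩ A').card = A.card + A'.card := Finset.card_union_add_card_inter A A'
  have h5 : ((A ∪ A')ᶜ).card = n - (A ∪ A').card := by
    rw [Finset.card_compl, Fintype.card_fin]
  have h6 : (A ∪ A').card ≤ n := by
    simpa using Finset.card_le_univ (A ∪ A')
  rw [Fintype.card_subtype]
  obtain ⟨b1, b2⟩ := b
  cases b1 <;> cases b2
  · have : (Finset.univ.filter (fun x : Fin n => mem2 A A' x = (false, false))) = (A ∪ A')ᶜ := by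
      ext x
      simp [mem2]
    rw [this]
    simp only
    omega
  · have : (Finset.univ.filter (fun x : Fin n => mem2 A A' x = (false, true))) = A' \ A := by
      ext x
      simp [mem2, and_comm]
    rw [this]
    simp only
    omega
  · have : (Finset.univ.filter (fun x : Fin n => mem2 A A' x = (true, false))) = A \ A' := by
      ext x
      simp [mem2]
    rw [this]
    simp only
    omega
  · have : (Finset.univ.filter (fun x : Fin n => mem2 A A' x = (true, true))) = A ∩ A' := by
      ext x
      simp [mem2]
    rw [this]
    simp only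
    omega

theorem perm_pair_count {n k j : ℕ} (C C' A A' : Finset (Fin n))
    (hC : C.card = k) (hC' : C'.card = k) (hA : A.card = k) (hA' : A'.card = k)
    (hj : (C \ C').card = j) (hj' : (A \ A').card = j) :
    (Finset.univ.filter (fun π : Equiv.Perm (Fin n) =>
      C.map π.toEmbedding = A ∧ C'.map π.toEmbedding = A')).card =
      (k - j).factorial * j.factorial * j.factorial * (n - k - j).factorial := by
  -- a permutation matching the fibres
  have hfe : ∀ b : Bool × Bool,
      Nonempty ({x : Fin n // mem2 C C' x = b} ≃ {x : Fin n // mem2 A A' x = b}) := by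
    intro b
    rw [← Fintype.card_eq, fib_card C C' hC hC' hj b, fib_card A A' hA hA' hj' b]
  let π0 : Equiv.Perm (Fin n) := Equiv.ofFiberEquiv (fun b => (hfe b).some)
  have hπ0 : mem2 A A' ∘ π0 = mem2 C C' := by
    funext x
    exact Equiv.ofFiberEquiv_map _ x
  have hcard : (Finset.univ.filter (fun π : Equiv.Perm (Fin n) =>
      C.map π.toEmbedding = A ∧ C'.map π.toEmbedding = A')).card =
      Fintype.card {g : Equiv.Perm (Fin n) // mem2 A A' ∘ g = mem2 A A'} := by
    rw [← Fintype.card_subtype]
    refine (Fintype.card_congr (Equiv.subtypeEquiv (Equiv.mulRight π0) ?_)).symm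
    intro g
    rw [cond_iff]
    constructor
    · intro hg
      funext x
      have h1 := congrFun hg (π0 x)
      have h2 := congrFun hπ0 x
      simp only [Function.comp_apply, Equiv.coe_mulRight, Equiv.Perm.coe_mul] at *
      rw [h1, h2]
    · intro hg
      funext x
      have h1 := congrFun hg (π0.symm x)
      have h2 := congrFun hπ0 (π0.symm x)
      simp only [Function.comp_apply, Equiv.coe_mulRight, Equiv.Perm.coe_mul,
        Equiv.apply_symm_apply] at *
      rw [h1, h2]
  rw [hcard, DomMulAct.stabilizer_card]
  rw [Fintype.prod_prod_type]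
  simp only [Fintype.prod_bool]
  rw [fib_card A A' hA hA' hj', fib_card A A' hA hA' hj', fib_card A A' hA hA' hj',
    fib_card A A' hA hA' hj']
  ring

end Pool.Agent.OrthoChains
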