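import Pool.Agent.OrthoChains.Defs
import Pool.Agent.OrthoChains.CubeIso
import Pool.Agent.OrthoChains.PermCount

/-!
# Edge isoperimetry in the Johnson graph, logarithmic form
-/

set_option autoImplicit false

open Finset

namespace Pool.Agent.OrthoChains

/-- Jensen for `x log x`. -/
theorem sum_mul_logb_le {ι : Type*} (s : Finset ι) (x : ι → ℝ) (hx : ∀ i ∈ s, 0 ≤ x i)
    (hD : 0 < ∑ i ∈ s, x i) :
    ∑ i ∈ s, x i * Real.logb 2 (x i) ≤
      (∑ i ∈ s, x i) * Real.logb 2 ((∑ i ∈ s, x i ^ 2) / ∑ i ∈ s, x i) := by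
  set D := ∑ i ∈ s, x i with hDdef
  set Q := ∑ i ∈ s, x i ^ 2 with hQdef
  have hQ : 0 < Q := by
    obtain ⟨i, hi, hi2⟩ : ∃ i ∈ s, 0 < x i := by
      by_contra hcon
      push Not at hcon
      have : D ≤ 0 := Finset.sum_nonpos hcon
      linarith
    exact Finset.sum_pos' (fun i _ => sq_nonneg _) ⟨i, hi, by positivity⟩
  set S := Q / D with hS
  have hS0 : 0 < S := div_pos hQ hD
  have hl2 : 0 < Real.log 2 := Real.log_pos (by norm_num)
  have h1 : ∀ i ∈ s, x i * Real.log (x i) ≤ x i * Real.log S + (x i ^ 2 / S - x i) := by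
    intro i hi
    rcases eq_or_lt_of_le (hx i hi) with h | h
    · rw [← h]; simp
    · have h2 := Real.log_le_sub_one_of_pos (div_pos h hS0)
      rw [Real.log_div h.ne' hS0.ne'] at h2
      have h3 := mul_le_mul_of_nonneg_left h2 h.le
      have h4 : x i * (x i / S - 1) = x i ^ 2 / S - x i := by ring
      rw [h4] at h3
      linarith
  have h2 := Finset.sum_le_sum h1
  rw [Finset.sum_add_distrib, Finset.sum_sub_distrib, ← Finset.sum_mul, ← Finset.sum_div] at h2
  have h3 : Q / S = D := by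
    rw [hS]; field_simp
  rw [← hDdef, ← hQdef, h3, sub_self, add_zero] at h2
  have h4 : ∑ i ∈ s, x i * Real.logb 2 (x i) = (∑ i ∈ s, x i * Real.log (x i)) / Real.log 2 := by
    rw [Finset.sum_div]
    exact Finset.sum_congr rfl fun i _ => by rw [Real.logb]; ring
  rw [h4, Real.logb, ← mul_div_assoc]
  exact div_le_div_of_nonneg_right h2 hl2.le

section cube

variable {n k : ℕ}

/-- first half -/
def fE (hk : 2 * k ≤ n) : Fin k ↪ Fin n := ⟨fun a => ⟨a.1, by omega⟩, fun a b h => Fin.ext (by simpa using h)⟩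

/-- second half -/
def gE (hk : 2 * k ≤ n) : Fin k ↪ Fin n := ⟨fun a => ⟨k + a.1, by omega⟩, fun a b h => Fin.ext (by simpa using h)⟩

/-- the `k`-set of a vertex of the `k`-cube -/
def AJ (hk : 2 * k ≤ n) (J : Finset (Fin k)) : Finset (Fin n) := Jᶜ.map (fE hk) ∪ J.map (gE hk)

theorem fE_ne_gE (hk : 2 * k ≤ n) (a b : Fin k) : fE hk a ≠ gE hk b := by
  intro h
  have h2 := congrArg Fin.val h
  simp only [fE, gE, Function.Embedding.coeFn_mk] at h2
  omega

theorem mem_AJ_f (hk : 2 * k ≤ n) (J : Finset (Fin k)) (a : Fin k) : fE hk a ∈ AJ hk J ↔ a ∉ J := by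
  unfold AJ
  rw [mem_union, mem_map', mem_compl]
  constructor
  · rintro (h | h)
    · exact h
    · obtain ⟨b, _, hb⟩ := mem_map.1 h
      exact absurd hb.symm (fE_ne_gE hk a b)
  · exact Or.inl

theorem mem_AJ_g (hk : 2 * k ≤ n) (J : Finset (Fin k)) (a : Fin k) : gE hk a ∈ AJ hk J ↔ a ∈ J := by
  unfold AJ
  rw [mem_union, mem_map' (gE hk)]
  constructor
  · rintro (h | h)
    · obtain ⟨b, _, hb⟩ := mem_map.1 h
      exact absurd hb (fE_ne_gE hk b a)
    · exact h
  · exact Or.inr

theorem AJ_card (hk : 2 * k ≤ n) (J : Finset (Fin k)) : (AJ hk J).card = k := by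
  unfold AJ
  rw [card_union_of_disjoint, card_map, card_map, card_compl, Fintype.card_fin]
  · have := card_le_univ J
    rw [Fintype.card_fin] at this
    omega
  · rw [disjoint_left]
    intro x hx hx'
    obtain ⟨a, _, rfl⟩ := mem_map.1 hx
    obtain ⟨b, _, hb⟩ := mem_map.1 hx'
    exact fE_ne_gE hk a b hb.symm

theorem AJ_sdiff (hk : 2 * k ≤ n) (J J' : Finset (Fin k)) : (AJ hk J \ AJ hk J').card = (symmDiff J J').card := by
  have h : AJ hk J \ AJ hk J' = (J' \ J).map (fE hk) ∪ (J \ J').map (gE hk) := by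
    ext x
    rw [mem_sdiff, mem_union]
    constructor
    · rintro ⟨h1, h2⟩
      have h1' := h1
      unfold AJ at h1
      rw [mem_union] at h1
      rcases h1 with h1 | h1
      · obtain ⟨a, _, rfl⟩ := mem_map.1 h1
        rw [mem_AJ_f] at h1' h2
        left
        rw [mem_map', mem_sdiff]
        exact ⟨not_not.1 h2, h1'⟩
      · obtain ⟨a, _, rfl⟩ := mem_map.1 h1
        rw [mem_AJ_g] at h1' h2
        right
        rw [mem_map', mem_sdiff]
        exact ⟨h1', h2⟩
    · rintro (h | h)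
      · obtain ⟨a, ha, rfl⟩ := mem_map.1 h
        rw [mem_sdiff] at ha
        rw [mem_AJ_f, mem_AJ_f]
        exact ⟨ha.2, not_not.2 ha.1⟩
      · obtain ⟨a, ha, rfl⟩ := mem_map.1 h
        rw [mem_sdiff] at ha
        rw [mem_AJ_g, mem_AJ_g]
        exact ha
  rw [h, card_union_of_disjoint, card_map, card_map, symmDiff_def, sup_eq_union, card_union_of_disjoint,
    add_comm]
  · rw [disjoint_left]
    intro x hx hx'
    rw [mem_sdiff] at hx hx'
    exact hx'.2 hx.1
  · rw [disjoint_left]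
    intro x hx hx'
    obtain ⟨a, _, rfl⟩ := mem_map.1 hx
    obtain ⟨b, _, hb⟩ := mem_map.1 hx'
    exact fE_ne_gE hk a b hb.symm

/-- number of permutations -/
noncomputable def PC (hk : 2 * k ≤ n) (J J' : Finset (Fin k)) (A A' : Finset (Fin n)) : ℝ :=
  ((Finset.univ.filter (fun π : Equiv.Perm (Fin n) =>
      (AJ hk J).map π.toEmbedding = A ∧ (AJ hk J').map π.toEmbedding = A')).card : ℝ)

theorem PC_eq (hk : 2 * k ≤ n) (J J' : Finset (Fin k)) (A A' : Finset (Fin n)) (hA : A.card = k) (hA' : A'.card = k) :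
    PC hk J J' A A' = if (symmDiff J J').card = (A \ A').card then
      (((k - (A \ A').card).factorial * (A \ A').card.factorial * (A \ A').card.factorial *
        (n - k - (A \ A').card).factorial : ℕ) : ℝ) else 0 := by
  unfold PC
  split_ifs with h
  · have h2 := perm_pair_count (n := n) (k := k) (j := (A \ A').card) (AJ hk J) (AJ hk J') A A'
      (AJ_card hk J) (AJ_card hk J') hA hA' (by rw [AJ_sdiff, h]) rfl
    rw [h2]
  · rw [Nat.cast_eq_zero, card_eq_zero, filter_eq_empty_iff]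
    rintro π _ ⟨h1, h2⟩
    apply h
    rw [← AJ_sdiff hk, ← h1, ← h2, ← Finset.map_sdiff, card_map]

/-- sets at distance `j` from `J` -/
theorem card_symmDiff_eq (J : Finset (Fin k)) (j : ℕ) :
    (univ.filter fun J' : Finset (Fin k) => (symmDiff J J').card = j).card = k.choose j := by
  have h : (univ.filter fun J' : Finset (Fin k) => (symmDiff J J').card = j).card =
      (powersetCard j (univ : Finset (Fin k))).card := by
    refine card_bij (fun J' _ => symmDiff J J') ?_ ?_ ?_
    · intro J' hJ'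
      rw [mem_powersetCard]
      exact ⟨subset_univ _, (mem_filter.1 hJ').2⟩
    · intro J1 _ J2 _ h
      exact (symmDiff_right_injective J) h
    · intro T hT
      rw [mem_powersetCard] at hT
      refine ⟨symmDiff J T, ?_, ?_⟩
      · rw [mem_filter, symmDiff_symmDiff_cancel_left]
        exact ⟨mem_univ _, hT.2⟩
      · exact symmDiff_symmDiff_cancel_left _ _
  rw [h, card_powersetCard, card_univ, Fintype.card_fin]

variable (X : Finset (Finset (Fin n)))

/-- the part of `X` in the cube of `π` -/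
def Xp (hk : 2 * k ≤ n) (π : Equiv.Perm (Fin n)) : Finset (Finset (Fin k)) :=
  univ.filter fun J => (AJ hk J).map π.toEmbedding ∈ X

theorem ind_sum (hk : 2 * k ≤ n) (π : Equiv.Perm (Fin n)) (J J' : Finset (Fin k)) :
    (if (AJ hk J).map π.toEmbedding ∈ X ∧ (AJ hk J').map π.toEmbedding ∈ X then (1 : ℝ) else 0) =
      ∑ A ∈ X, ∑ A' ∈ X, if (AJ hk J).map π.toEmbedding = A ∧ (AJ hk J').map π.toEmbedding = A'
        then (1 : ℝ) else 0 := by
  have h1 : ∀ A ∈ X, (∑ A' ∈ X, if (AJ hk J).map π.toEmbedding = A ∧ (AJ hk J').map π.toEmbedding = A'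
        then (1 : ℝ) else 0) = if (AJ hk J).map π.toEmbedding = A then
          (if (AJ hk J').map π.toEmbedding ∈ X then (1 : ℝ) else 0) else 0 := by
    intro A _
    by_cases h : (AJ hk J).map π.toEmbedding = A
    · simp only [h, true_and, if_true]
      rw [Finset.sum_ite_eq]
    · simp [h]
  rw [Finset.sum_congr rfl h1, Finset.sum_ite_eq]
  by_cases h2 : (AJ hk J).map π.toEmbedding ∈ X <;> by_cases h3 : (AJ hk J').map π.toEmbedding ∈ X <;>
    simp [h2, h3]

theorem sum_pi_ind (hk : 2 * k ≤ n) (J J' : Finset (Fin k)) :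
    (∑ π : Equiv.Perm (Fin n), if (AJ hk J).map π.toEmbedding ∈ X ∧ (AJ hk J').map π.toEmbedding ∈ X
      then (1 : ℝ) else 0) = ∑ A ∈ X, ∑ A' ∈ X, PC hk J J' A A' := by
  rw [Finset.sum_congr rfl fun π _ => ind_sum X hk π J J', Finset.sum_comm]
  refine Finset.sum_congr rfl fun A _ => ?_
  rw [Finset.sum_comm]
  refine Finset.sum_congr rfl fun A' _ => ?_
  unfold PC
  rw [Finset.sum_boole]

/-- second moment -/
theorem sum_sq (hk : 2 * k ≤ n) (hX : X ⊆ Lv n k) :
    (∑ π : Equiv.Perm (Fin n), ((Xp X hk π).card : ℝ) ^ 2) =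
      2 ^ k * (k.factorial * (n - k).factorial : ℕ) *
        ∑ A ∈ X, ∑ A' ∈ X, (1 : ℝ) / ((n - k).choose (A \ A').card : ℝ) := by
  have hc : ∀ A ∈ X, A.card = k := fun A hA => (mem_filter.1 (hX hA)).2
  have h1 : ∀ π : Equiv.Perm (Fin n), ((Xp X hk π).card : ℝ) ^ 2 = ∑ J : Finset (Fin k),
      ∑ J' : Finset (Fin k), if (AJ hk J).map π.toEmbedding ∈ X ∧ (AJ hk J').map π.toEmbedding ∈ X
      then (1 : ℝ) else 0 := by
    intro π
    unfold Xp
    rw [← Finset.sum_boole, sq, Finset.sum_mul_sum]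
    refine Finset.sum_congr rfl fun J _ => Finset.sum_congr rfl fun J' _ => ?_
    by_cases h2 : (AJ hk J).map π.toEmbedding ∈ X <;> by_cases h3 : (AJ hk J').map π.toEmbedding ∈ X <;>
      simp [h2, h3]
  rw [Finset.sum_congr rfl fun π _ => h1 π, Finset.sum_comm]
  have h2 : ∀ J : Finset (Fin k), (∑ π : Equiv.Perm (Fin n), ∑ J' : Finset (Fin k),
      if (AJ hk J).map π.toEmbedding ∈ X ∧ (AJ hk J').map π.toEmbedding ∈ X then (1 : ℝ) else 0) =
      (k.factorial * (n - k).factorial : ℕ) *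
        ∑ A ∈ X, ∑ A' ∈ X, (1 : ℝ) / ((n - k).choose (A \ A').card : ℝ) := by
    intro J
    rw [Finset.sum_comm, Finset.sum_congr rfl fun J' _ => sum_pi_ind X hk J J', Finset.sum_comm,
      Finset.mul_sum]
    refine Finset.sum_congr rfl fun A hA => ?_
    rw [Finset.sum_comm, Finset.mul_sum]
    refine Finset.sum_congr rfl fun A' hA' => ?_
    rw [Finset.sum_congr rfl fun J' _ => PC_eq hk J J' A A' (hc A hA) (hc A' hA')]
    rw [← Finset.sum_filter, Finset.sum_const, card_symmDiff_eq, nsmul_eq_mul]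
    set j := (A \ A').card with hj
    have hjk : j ≤ k := by
      rw [hj, ← hc A hA]
      exact card_le_card sdiff_subset
    have hjn : j ≤ n - k := by omega
    have e1 : k.choose j * (k - j).factorial * j.factorial = k.factorial := by
      have := Nat.choose_mul_factorial_mul_factorial hjk
      rw [← this]; ring
    have e2 : (n - k).choose j * j.factorial * (n - k - j).factorial = (n - k).factorial :=
      Nat.choose_mul_factorial_mul_factorial hjn
    have e3 : ((n - k).choose j : ℝ) ≠ 0 := by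
      have := Nat.choose_pos hjn
      positivity
    rw [mul_one_div, eq_div_iff e3]
    have e4 : k.choose j * ((k - j).factorial * j.factorial * j.factorial * (n - k - j).factorial) *
        (n - k).choose j = k.factorial * (n - k).factorial := by
      rw [← e1, ← e2]; ring
    exact_mod_cast e4
  rw [Finset.sum_congr rfl fun J _ => h2 J, Finset.sum_const, Finset.card_univ, Fintype.card_finset,
    Fintype.card_fin, nsmul_eq_mul]
  push_cast
  ring

/-- first moment -/
theorem sum_one (hk : 2 * k ≤ n) (hX : X ⊆ Lv n k) :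
    (∑ π : Equiv.Perm (Fin n), ((Xp X hk π).card : ℝ)) =
      2 ^ k * (k.factorial * (n - k).factorial : ℕ) * X.card := by
  have hc : ∀ A ∈ X, A.card = k := fun A hA => (mem_filter.1 (hX hA)).2
  have h1 : ∀ π : Equiv.Perm (Fin n), ((Xp X hk π).card : ℝ) = ∑ J : Finset (Fin k),
      ∑ A ∈ X, if (AJ hk J).map π.toEmbedding = A ∧ (AJ hk J).map π.toEmbedding = A then (1 : ℝ) else 0 := by
    intro π
    unfold Xp
    rw [← Finset.sum_boole]
    refine Finset.sum_congr rfl fun J _ => ?_
    simp only [and_self]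
    rw [Finset.sum_ite_eq]
  rw [Finset.sum_congr rfl fun π _ => h1 π, Finset.sum_comm]
  have h2 : ∀ J : Finset (Fin k), (∑ π : Equiv.Perm (Fin n), ∑ A ∈ X,
      if (AJ hk J).map π.toEmbedding = A ∧ (AJ hk J).map π.toEmbedding = A then (1 : ℝ) else 0) =
      (k.factorial * (n - k).factorial : ℕ) * X.card := by
    intro J
    rw [Finset.sum_comm]
    have h3 : ∀ A ∈ X, (∑ π : Equiv.Perm (Fin n),
      if (AJ hk J).map π.toEmbedding = A ∧ (AJ hk J).map π.toEmbedding = A then (1 : ℝ) else 0) =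
        (k.factorial * (n - k).factorial : ℕ) := by
      intro A hA
      have h4 := PC_eq hk J J A A (hc A hA) (hc A hA)
      unfold PC at h4
      rw [Finset.sum_boole, h4]
      simp
    rw [Finset.sum_congr rfl h3, Finset.sum_const, nsmul_eq_mul, mul_comm]
  rw [Finset.sum_congr rfl fun J _ => h2 J, Finset.sum_const, Finset.card_univ, Fintype.card_finset,
    Fintype.card_fin, nsmul_eq_mul]
  push_cast
  ring

/-- sum of the degrees in the cubes -/
theorem sum_deg (hk : 2 * k ≤ n) (hk1 : 1 ≤ k) (hX : X ⊆ Lv n k) :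
    (∑ π : Equiv.Perm (Fin n), ∑ J ∈ Xp X hk π,
      ((univ.filter (fun i => symmDiff J {i} ∈ Xp X hk π)).card : ℝ)) =
      2 ^ k * (k.factorial * (n - k - 1).factorial : ℕ) *
        ∑ A ∈ X, ((X.filter (fun A' => (A \ A').card = 1)).card : ℝ) := by
  have hc : ∀ A ∈ X, A.card = k := fun A hA => (mem_filter.1 (hX hA)).2
  have h1 : ∀ π : Equiv.Perm (Fin n), (∑ J ∈ Xp X hk π,
      ((univ.filter (fun i => symmDiff J {i} ∈ Xp X hk π)).card : ℝ)) = ∑ J : Finset (Fin k),
      ∑ i : Fin k, if (AJ hk J).map π.toEmbedding ∈ X ∧ (AJ hk (symmDiff J {i})).map π.toEmbedding ∈ X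
      then (1 : ℝ) else 0 := by
    intro π
    unfold Xp
    rw [Finset.sum_filter]
    refine Finset.sum_congr rfl fun J _ => ?_
    simp only [mem_filter, mem_univ, true_and]
    by_cases h2 : (AJ hk J).map π.toEmbedding ∈ X
    · simp only [h2, if_true, true_and]
      rw [Finset.sum_boole]
    · simp [h2]
  rw [Finset.sum_congr rfl fun π _ => h1 π, Finset.sum_comm]
  have h2 : ∀ J : Finset (Fin k), (∑ π : Equiv.Perm (Fin n), ∑ i : Fin k,
      if (AJ hk J).map π.toEmbedding ∈ X ∧ (AJ hk (symmDiff J {i})).map π.toEmbedding ∈ X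
        then (1 : ℝ) else 0) =
      (k.factorial * (n - k - 1).factorial : ℕ) *
        ∑ A ∈ X, ((X.filter (fun A' => (A \ A').card = 1)).card : ℝ) := by
    intro J
    rw [Finset.sum_comm, Finset.sum_congr rfl fun i _ => sum_pi_ind X hk J (symmDiff J {i})]
    have h3 : ∀ i ∈ (univ : Finset (Fin k)), (∑ A ∈ X, ∑ A' ∈ X, PC hk J (symmDiff J {i}) A A') =
        ((k - 1).factorial * (n - k - 1).factorial : ℕ) *
          ∑ A ∈ X, ((X.filter (fun A' => (A \ A').card = 1)).card : ℝ) := by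
      intro i _
      rw [Finset.mul_sum]
      refine Finset.sum_congr rfl fun A hA => ?_
      have h4 : ∀ A' ∈ X, PC hk J (symmDiff J {i}) A A' = if (A \ A').card = 1 then
          (((k - 1).factorial * (n - k - 1).factorial : ℕ) : ℝ) else 0 := by
        intro A' hA'
        rw [PC_eq hk J (symmDiff J {i}) A A' (hc A hA) (hc A' hA'), symmDiff_symmDiff_cancel_left,
          card_singleton]
        by_cases h5 : (A \ A').card = 1
        · rw [if_pos h5.symm, if_pos h5, h5]
          simp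
        · rw [if_neg (fun h => h5 h.symm), if_neg h5]
      rw [Finset.sum_congr rfl h4, ← Finset.sum_filter, Finset.sum_const, nsmul_eq_mul, mul_comm]
    rw [Finset.sum_congr rfl h3, Finset.sum_const, Finset.card_univ, Fintype.card_fin, nsmul_eq_mul]
    have h4 : (k : ℝ) * ((k - 1).factorial * (n - k - 1).factorial : ℕ) =
        (k.factorial * (n - k - 1).factorial : ℕ) := by
      have : k * ((k - 1).factorial * (n - k - 1).factorial) = k.factorial * (n - k - 1).factorial := by
        rw [← mul_assoc, Nat.mul_factorial_pred (by omega)]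
      exact_mod_cast this
    rw [← mul_assoc, h4]
  rw [Finset.sum_congr rfl fun J _ => h2 J, Finset.sum_const, Finset.card_univ, Fintype.card_finset,
    Fintype.card_fin, nsmul_eq_mul]
  push_cast
  ring

end cube

theorem johnson_log {n k : ℕ} (hk : 2 * k ≤ n) (hk1 : 1 ≤ k) (X : Finset (Finset (Fin n)))
    (hX : X ⊆ Lv n k) (hne : X.Nonempty) :
    (∑ A ∈ X, ((X.filter (fun A' => (A \ A').card = 1)).card : ℝ)) ≤
      ((n : ℝ) - k) * X.card * Real.logb 2
        ((1 / (X.card : ℝ)) * ∑ A ∈ X, ∑ A' ∈ X, (1 : ℝ) / ((n - k).choose (A \ A').card : ℝ)) := by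
  have hXc : (0 : ℝ) < X.card := by exact_mod_cast hne.card_pos
  set E1 := ∑ A ∈ X, ((X.filter (fun A' => (A \ A').card = 1)).card : ℝ) with hE1
  set E2 := ∑ A ∈ X, ∑ A' ∈ X, (1 : ℝ) / ((n - k).choose (A \ A').card : ℝ) with hE2
  have h1 : (∑ π : Equiv.Perm (Fin n), ∑ J ∈ Xp X hk π,
      ((univ.filter (fun i => symmDiff J {i} ∈ Xp X hk π)).card : ℝ)) ≤
      ∑ π : Equiv.Perm (Fin n), ((Xp X hk π).card : ℝ) * Real.logb 2 ((Xp X hk π).card : ℝ) :=
    Finset.sum_le_sum fun π _ => cube_edge_iso (Xp X hk π)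
  have hf : (0 : ℝ) < (k.factorial * (n - k).factorial : ℕ) := by positivity
  have hD : 0 < ∑ π : Equiv.Perm (Fin n), ((Xp X hk π).card : ℝ) := by
    rw [sum_one X hk hX]; positivity
  have h2 := sum_mul_logb_le (univ : Finset (Equiv.Perm (Fin n))) (fun π => ((Xp X hk π).card : ℝ))
    (fun _ _ => Nat.cast_nonneg _) hD
  have h3 := h1.trans h2
  rw [sum_deg X hk hk1 hX, sum_one X hk hX, sum_sq X hk hX] at h3
  have h4 : 2 ^ k * ((k.factorial * (n - k).factorial : ℕ) : ℝ) * E2 /
      (2 ^ k * ((k.factorial * (n - k).factorial : ℕ) : ℝ) * X.card) = 1 / (X.card : ℝ) * E2 := by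
    field_simp
  rw [h4] at h3
  have h5 : (n - k).factorial = (n - k) * (n - k - 1).factorial := (Nat.mul_factorial_pred (by omega)).symm
  have h6 : (((n - k : ℕ)) : ℝ) = (n : ℝ) - k := by
    rw [Nat.cast_sub (by omega)]
  have h7 : (2 : ℝ) ^ k * ((k.factorial * (n - k).factorial : ℕ) : ℝ) * X.card *
      Real.logb 2 (1 / (X.card : ℝ) * E2) = (2 ^ k * ((k.factorial * (n - k - 1).factorial : ℕ) : ℝ)) *
        (((n : ℝ) - k) * X.card * Real.logb 2 (1 / (X.card : ℝ) * E2)) := by
    rw [h5, ← h6]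
    push_cast
    ring
  rw [h7] at h3
  exact le_of_mul_le_mul_left h3 (by positivity)

end Pool.Agent.OrthoChains
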