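import Mathlib
import Pool.Agent.OrthoChains.Defs
import Pool.Agent.OrthoChains.JohnsonLog
import Pool.Agent.OrthoChains.ChooseSum
import Pool.Agent.OrthoChains.ChooseJ0

set_option autoImplicit false

/-!
# Isoperimetry in the Johnson graph (OC7)
-/

open Finset

namespace Pool.Agent.OrthoChains

/-- Every `k`-set has at most `k (n - k)` Johnson neighbours. -/
theorem johnson_deg {n k : ℕ} (X : Finset (Finset (Fin n))) (hX : X ⊆ Lv n k)
    (A : Finset (Fin n)) (hA : A.card = k) :
    (X.filter (fun A' => (A \ A').card = 1)).card ≤ k * (n - k) := by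
  classical
  have hsub : X.filter (fun A' => (A \ A').card = 1) ⊆
      (A ×ˢ Aᶜ).image (fun p => insert p.2 (A.erase p.1)) := by
    intro A' hA'
    rw [Finset.mem_filter] at hA'
    obtain ⟨hA'X, hcard⟩ := hA'
    have hA'k : A'.card = k := by
      have := hX hA'X
      simpa [Lv] using this
    have hcard' : (A' \ A).card = 1 := by
      have h1 := Finset.card_sdiff_add_card_inter A A'
      have h2 := Finset.card_sdiff_add_card_inter A' A
      rw [Finset.inter_comm A' A] at h2
      omega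
    obtain ⟨a, ha⟩ := Finset.card_eq_one.mp hcard
    obtain ⟨b, hb⟩ := Finset.card_eq_one.mp hcard'
    have haA : a ∈ A \ A' := by rw [ha]; exact Finset.mem_singleton_self a
    have hbA : b ∈ A' \ A := by rw [hb]; exact Finset.mem_singleton_self b
    rw [Finset.mem_sdiff] at haA hbA
    rw [Finset.mem_image]
    refine ⟨(a, b), ?_, ?_⟩
    · rw [Finset.mem_product]
      exact ⟨haA.1, by simpa using hbA.2⟩
    · ext x
      simp only [Finset.mem_insert, Finset.mem_erase]
      have h1 : x ∈ A \ A' ↔ x = a := by rw [ha]; exact Finset.mem_singleton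
      have h2 : x ∈ A' \ A ↔ x = b := by rw [hb]; exact Finset.mem_singleton
      rw [Finset.mem_sdiff] at h1 h2
      tauto
  calc (X.filter (fun A' => (A \ A').card = 1)).card
      ≤ ((A ×ˢ Aᶜ).image (fun p => insert p.2 (A.erase p.1))).card := Finset.card_le_card hsub
    _ ≤ (A ×ˢ Aᶜ).card := Finset.card_image_le
    _ = k * (n - k) := by
        rw [Finset.card_product, Finset.card_compl, Fintype.card_fin, hA]

theorem johnson_iso {n k : ℕ} (hk : 2 * k ≤ n) (hk0 : 400 ≤ k) (X : Finset (Finset (Fin n)))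
    (hX : X ⊆ Lv n k) (hne : X.Nonempty) :
    (∑ A ∈ X, ((X.filter (fun A' => (A \ A').card = 1)).card : ℝ)) ≤
      ((n : ℝ) - k) * X.card * (k -
        min ((Real.logb 2 ((n.choose k : ℝ) / X.card) - ((n : ℝ) - 2 * k)) / 2 - 3)
          (2 * (k : ℝ) / 25)) := by
  have hxpos : (0 : ℝ) < X.card := by
    exact_mod_cast hne.card_pos
  have hnk : (0 : ℝ) ≤ (n : ℝ) - k := by
    have : (k : ℝ) ≤ n := by exact_mod_cast (by omega : k ≤ n)
    linarith
  have hNpos : (0 : ℝ) < (n.choose k : ℝ) := by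
    exact_mod_cast Nat.choose_pos (by omega : k ≤ n)
  have hAk : ∀ A ∈ X, A.card = k := by
    intro A hA
    have := hX hA
    simpa [Lv] using this
  set L : ℝ := Real.logb 2 ((n.choose k : ℝ) / X.card) with hL
  set μ : ℝ := (2 : ℝ) ^ (-(L - ((n : ℝ) - 2 * k))) with hμdef
  have hμ : 0 < μ := Real.rpow_pos_of_pos (by norm_num) _
  have hlogμ : Real.logb 2 (1 / μ) = L - ((n : ℝ) - 2 * k) := by
    rw [hμdef, one_div, ← Real.rpow_neg (by norm_num : (0 : ℝ) ≤ 2), neg_neg]
    exact Real.logb_rpow (by norm_num) (by norm_num)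
  rcases le_or_gt μ (1 / 64) with hμ1 | hμ1
  · obtain ⟨j0, hj0, hj⟩ := exists_j0 hk0 μ hμ hμ1
    rw [hlogμ] at hj
    set a : ℝ := (k.choose j0 : ℝ) / (k.choose (k / 2) : ℝ) with ha
    have hcj : (0 : ℝ) < (k.choose j0 : ℝ) := by
      exact_mod_cast Nat.choose_pos (by omega : j0 ≤ k)
    have hcm : (0 : ℝ) < (k.choose (k / 2) : ℝ) := by
      exact_mod_cast Nat.choose_pos (by omega : k / 2 ≤ k)
    have hapos : 0 < a := div_pos hcj hcm
    -- the size of X
    have hxμ : (X.card : ℝ) ≤ 2 ^ k * (k.choose (k / 2) : ℝ) * μ := by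
      have h1 : (X.card : ℝ) = (n.choose k : ℝ) * (2 : ℝ) ^ (-L) := by
        rw [Real.rpow_neg (by norm_num), hL, Real.rpow_logb (by norm_num) (by norm_num)
          (div_pos hNpos hxpos)]
        field_simp
      have h2 : (n.choose k : ℝ) ≤ (2 : ℝ) ^ (n - 2 * k) * (2 ^ k * (k.choose (k / 2) : ℝ)) := by
        exact_mod_cast choose_le_mid hk
      have h3 : (2 : ℝ) ^ (n - 2 * k) * (2 : ℝ) ^ (-L) = μ := by
        rw [hμdef, ← Real.rpow_natCast (2 : ℝ) (n - 2 * k), ← Real.rpow_add (by norm_num)]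
        congr 1
        rw [Nat.cast_sub hk]
        push_cast
        ring
      calc (X.card : ℝ) = (n.choose k : ℝ) * (2 : ℝ) ^ (-L) := h1
        _ ≤ ((2 : ℝ) ^ (n - 2 * k) * (2 ^ k * (k.choose (k / 2) : ℝ))) * (2 : ℝ) ^ (-L) :=
            mul_le_mul_of_nonneg_right h2 (Real.rpow_pos_of_pos (by norm_num) _).le
        _ = 2 ^ k * (k.choose (k / 2) : ℝ) * ((2 : ℝ) ^ (n - 2 * k) * (2 : ℝ) ^ (-L)) := by ring
        _ = 2 ^ k * (k.choose (k / 2) : ℝ) * μ := by rw [h3]
    set S : ℝ := (1 / (X.card : ℝ)) *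
      ∑ A ∈ X, ∑ A' ∈ X, (1 : ℝ) / ((n - k).choose (A \ A').card : ℝ) with hS
    have hSle : S ≤ 2 ^ k * (μ / a + a) := by
      have h1 : ∀ A ∈ X, ∑ A' ∈ X, (1 : ℝ) / ((n - k).choose (A \ A').card : ℝ) ≤
          2 ^ k * (μ / a + a) := by
        intro A hA
        have h2 := sum_recip_choose_le hk X hX A (hAk A hA) j0 hj0
        have h3 : (X.card : ℝ) / (k.choose j0 : ℝ) ≤ 2 ^ k * (μ / a) := by
          have h4 : μ / a = μ * (k.choose (k / 2) : ℝ) / (k.choose j0 : ℝ) := by
            rw [ha]; field_simp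
          rw [h4, ← mul_div_assoc]
          apply div_le_div_of_nonneg_right _ hcj.le
          linarith [hxμ]
        calc _ ≤ _ := h2
          _ ≤ 2 ^ k * (μ / a) + 2 ^ k * a := by
              rw [ha] at h3 ⊢
              linarith
          _ = 2 ^ k * (μ / a + a) := by ring
      calc S ≤ (1 / (X.card : ℝ)) * ∑ A ∈ X, (2 ^ k * (μ / a + a)) := by
            rw [hS]
            exact mul_le_mul_of_nonneg_left (Finset.sum_le_sum h1) (by positivity)
        _ = 2 ^ k * (μ / a + a) := by
            rw [Finset.sum_const, nsmul_eq_mul]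
            field_simp
    have hSpos : 0 < S := by
      obtain ⟨A, hA⟩ := hne
      rw [hS]
      apply mul_pos (by positivity)
      have hnn : ∀ B ∈ X, ∀ B' ∈ X, (0 : ℝ) ≤ (1 : ℝ) / ((n - k).choose (B \ B').card : ℝ) := by
        intro B _ B' _; positivity
      calc (0 : ℝ) < (1 : ℝ) / ((n - k).choose (A \ A).card : ℝ) := by simp
        _ ≤ ∑ A' ∈ X, (1 : ℝ) / ((n - k).choose (A \ A').card : ℝ) :=
            Finset.single_le_sum (f := fun A' => (1 : ℝ) / ((n - k).choose (A \ A').card : ℝ))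
              (hnn A hA) hA
        _ ≤ ∑ A ∈ X, ∑ A' ∈ X, (1 : ℝ) / ((n - k).choose (A \ A').card : ℝ) :=
            Finset.single_le_sum
              (f := fun A => ∑ A' ∈ X, (1 : ℝ) / ((n - k).choose (A \ A').card : ℝ))
              (fun B hB => Finset.sum_nonneg (hnn B hB)) hA
    have hlogS : Real.logb 2 S ≤ (k : ℝ) -
        min ((L - ((n : ℝ) - 2 * k)) / 2 - 3) (2 * (k : ℝ) / 25) := by
      have h1 : S ≤ (2 : ℝ) ^ ((k : ℝ) -
          min ((L - ((n : ℝ) - 2 * k)) / 2 - 3) (2 * (k : ℝ) / 25)) := by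
        rw [sub_eq_add_neg, Real.rpow_add (by norm_num), Real.rpow_natCast]
        exact hSle.trans (mul_le_mul_of_nonneg_left hj (by positivity))
      have h2 := Real.logb_le_logb_of_le (b := 2) (by norm_num) hSpos h1
      rwa [Real.logb_rpow (by norm_num) (by norm_num)] at h2
    have hJ := johnson_log hk (by omega) X hX hne
    refine hJ.trans ?_
    exact mul_le_mul_of_nonneg_left hlogS (by positivity)
  · -- the trivial case
    have hmin : min ((L - ((n : ℝ) - 2 * k)) / 2 - 3) (2 * (k : ℝ) / 25) ≤ 0 := by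
      apply (min_le_left _ _).trans
      have h1 : L - ((n : ℝ) - 2 * k) < 6 := by
        rw [← hlogμ]
        have h2 : 1 / μ < 64 := by
          rw [div_lt_iff₀ hμ]
          linarith
        have h3 := Real.logb_lt_logb (b := 2) (by norm_num) (by positivity : (0 : ℝ) < 1 / μ) h2
        have h4 : Real.logb 2 (64 : ℝ) = 6 := by
          rw [show (64 : ℝ) = (2 : ℝ) ^ (6 : ℝ) by norm_num]
          exact Real.logb_rpow (by norm_num) (by norm_num)
        linarith
      linarith
    have hkn : k ≤ n := by omega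
    calc (∑ A ∈ X, ((X.filter (fun A' => (A \ A').card = 1)).card : ℝ))
        ≤ ∑ A ∈ X, ((k : ℝ) * ((n : ℝ) - k)) := by
          apply Finset.sum_le_sum
          intro A hA
          have := johnson_deg X hX A (hAk A hA)
          have h2 : ((X.filter (fun A' => (A \ A').card = 1)).card : ℝ) ≤
              ((k * (n - k) : ℕ) : ℝ) := by exact_mod_cast this
          rwa [Nat.cast_mul, Nat.cast_sub hkn] at h2
      _ = ((n : ℝ) - k) * X.card * k := by
          rw [Finset.sum_const, nsmul_eq_mul]; ring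
      _ ≤ _ := by
          apply mul_le_mul_of_nonneg_left _ (by positivity)
          linarith

end Pool.Agent.OrthoChains
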